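import Pool.Agent.Helper35.EAM.Spec

/-!
# EAM part NET: a network with frozen spins versus percolation
-/

set_option autoImplicit false

open MeasureTheory

namespace Pool.Agent.Helper35.EAM

open Pool.H47EA

theorem sg_not (b : Bool) : sg (!b) = - sg b := by
  cases b <;> simp [sg]

theorem sg_xor (b c : Bool) : sg (xor b c) = (if c then -1 else 1) * sg b := by
  cases b <;> cases c <;> simp [sg]

theorem sg_cases (b : Bool) : sg b = 1 ∨ sg b = -1 := by
  cases b <;> simp [sg]

theorem exp_spin (β s : ℝ) (hs : s = 1 ∨ s = -1) :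
    Real.exp (β * s) = Real.cosh β * (1 + Real.tanh β * s) := by
  have hc : Real.cosh β ≠ 0 := (Real.cosh_pos β).ne'
  rw [Real.tanh_eq_sinh_div_cosh]
  rcases hs with rfl | rfl
  · rw [mul_one, mul_one, mul_add, mul_one, mul_div_cancel₀ _ hc, Real.cosh_add_sinh]
  · have : Real.cosh β * (1 + Real.sinh β / Real.cosh β * -1) = Real.cosh β - Real.sinh β := by
      field_simp
      ring
    rw [this, Real.cosh_sub_sinh]
    congr 1; ring

theorem Jc_cases {d : ℕ} (J : Coupling d) {x y : Site d} (h : dist1 x y = 1) :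
    Jc J x y = 1 ∨ Jc J x y = -1 := by
  have h' : (lat d).Adj x y := h
  unfold Jc
  rw [dif_pos h']
  exact sg_cases _

section pathsets

variable {I : Type} [DecidableEq I] (S : Finset I)

/-- both small edges of the indices in `T` -/
def dbl (T : Finset I) : Finset ({i // i ∈ S} × Bool) :=
  Finset.univ.filter fun e => e.1.1 ∈ T

theorem dbl_union (T T' : Finset I) : dbl S T ∪ dbl S T' = dbl S (T ∪ T') := by
  ext e
  simp [dbl]

theorem dbl_card {T : Finset I} (hT : T ⊆ S) : (dbl S T).card = 2 * T.card := by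
  have h : dbl S T = (Finset.univ.filter fun i : {i // i ∈ S} => i.1 ∈ T) ×ˢ
      (Finset.univ : Finset Bool) := by
    ext e
    simp [dbl]
  rw [h, Finset.card_product]
  have h2 : (Finset.univ.filter fun i : {i // i ∈ S} => i.1 ∈ T).card = T.card := by
    rw [← Finset.card_image_of_injective _ Subtype.val_injective]
    congr 1
    ext i
    simp only [Finset.mem_image, Finset.mem_filter, Finset.mem_univ, true_and, Subtype.exists,
      exists_and_left, exists_prop, exists_eq_right_right]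
    constructor
    · exact fun h => h.1
    · exact fun h => ⟨h, hT h⟩
  rw [h2]
  simp
  ring

theorem dbl_prod {T : Finset I} (hT : T ⊆ S) (t : ℝ) :
    ∏ _e ∈ dbl S T, t = (t ^ 2) ^ T.card := by
  rw [Finset.prod_const, dbl_card S hT, pow_mul]

end pathsets

section net

variable {d : ℕ} {I : Type} (β : ℝ) (J : Coupling d) (Nd Bd : Finset (Site d)) (S : Finset I)
    (w u v : I → Site d)

/-- the free sites -/
abbrev LL (Nd : Finset (Site d)) (S : Finset I) (w : I → Site d) : Finset (Site d) :=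
  Nd ∪ S.image w

/-- the vertex of a site -/
def kap (y : Site d) : Option {x // x ∈ LL Nd S w} :=
  if h : y ∈ LL Nd S w then some ⟨y, h⟩ else none

/-- configuration on the vertices from the free spins and the boundary spin -/
def cfg (c : Bool) (η : {x // x ∈ LL Nd S w} → Bool) : Option {x // x ∈ LL Nd S w} → Bool
  | none => c
  | some y => η y

/-- edges: end points -/
def ea (e : {i // i ∈ S} × Bool) : Option {x // x ∈ LL Nd S w} := kap Nd S w (w e.1.1)
def eb (e : {i // i ∈ S} × Bool) : Option {x // x ∈ LL Nd S w} :=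
  kap Nd S w (if e.2 then u e.1.1 else v e.1.1)

variable {J Nd Bd S w u v} {ω : Site d → Bool}

theorem cfg_kap {c : Bool} (η : {x // x ∈ LL Nd S w} → Bool) {y : Site d}
    (hy : y ∉ LL Nd S w → ω y = c) :
    cfg Nd S w c η (kap Nd S w y) = glue (LL Nd S w) η ω y := by
  unfold kap glue
  by_cases h : y ∈ LL Nd S w
  · rw [dif_pos h, dif_pos h]; rfl
  · rw [dif_neg h, dif_neg h, hy h]; rfl

theorem notL_of_Bd (h : IsNet J Nd Bd S w u v ω) {y : Site d} (hy : y ∈ Bd) :
    y ∉ LL Nd S w := by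
  intro hL
  rcases Finset.mem_union.1 hL with hN | hW
  · exact h.NB y hN hy
  · obtain ⟨i, hi, rfl⟩ := Finset.mem_image.1 hW
    exact h.wB i hi hy

theorem Bd_of_notL {y : Site d} (hy : y ∈ Nd ∨ y ∈ Bd) (hL : y ∉ LL Nd S w) : y ∈ Bd := by
  rcases hy with hy | hy
  · exact absurd (Finset.mem_union_left _ hy) hL
  · exact hy

open Classical in
/-- the gauge: which free spins are flipped -/
noncomputable def flp (J : Coupling d) (S : Finset I) (w u : I → Site d) (y : Site d) : Bool :=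
  decide (∃ i ∈ S, w i = y ∧ Jc J (w i) (u i) = -1)

theorem flp_node (h : IsNet J Nd Bd S w u v ω) {y : Site d} (hy : y ∈ Nd) :
    flp J S w u y = false := by
  unfold flp
  rw [decide_eq_false_iff_not]
  rintro ⟨i, hi, rfl, -⟩
  exact h.wN i hi hy

theorem flp_w (h : IsNet J Nd Bd S w u v ω) {i : I} (hi : i ∈ S) :
    (if flp J S w u (w i) then (-1 : ℝ) else 1) = Jc J (w i) (u i) := by
  have hadj : dist1 (w i) (u i) = 1 := ((h.adW i hi (u i) (h.um i hi)).2 (Or.inl rfl))
  unfold flp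
  by_cases hJ : Jc J (w i) (u i) = -1
  · rw [hJ, if_pos]
    rw [decide_eq_true_iff]
    exact ⟨i, hi, rfl, hJ⟩
  · rw [if_neg]
    · rcases Jc_cases J hadj with h1 | h1
      · rw [h1]
      · exact absurd h1 hJ
    · rw [decide_eq_true_iff]
      rintro ⟨j, hj, hjw, hj1⟩
      have := h.inj j hj i hi hjw
      subst this
      exact hJ hj1

/-- the gauge transformation -/
noncomputable def gau (J : Coupling d) (Nd : Finset (Site d)) (S : Finset I) (w u : I → Site d) :
    ({x // x ∈ LL Nd S w} → Bool) ≃ ({x // x ∈ LL Nd S w} → Bool) :=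
  Function.Involutive.toPerm (fun η y => xor (η y) (flp J S w u y.1)) (by
    intro η
    funext y
    simp)

theorem gau_apply (η : {x // x ∈ LL Nd S w} → Bool) (y : {x // x ∈ LL Nd S w}) :
    gau J Nd S w u η y = xor (η y) (flp J S w u y.1) := rfl

theorem gau_glue (η : {x // x ∈ LL Nd S w} → Bool) {y : Site d} :
    sg (glue (LL Nd S w) (gau J Nd S w u η) ω y) =
      (if y ∈ LL Nd S w then (if flp J S w u y then (-1 : ℝ) else 1) else 1) *
        sg (glue (LL Nd S w) η ω y) := by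
  unfold glue
  by_cases h : y ∈ LL Nd S w
  · rw [dif_pos h, dif_pos h, if_pos h, gau_apply, sg_xor]
  · rw [dif_neg h, dif_neg h, if_neg h, one_mul]

theorem gau_node (h : IsNet J Nd Bd S w u v ω) (η : {x // x ∈ LL Nd S w} → Bool) {y : Site d}
    (hy : y ∈ Nd ∨ y ∈ Bd) :
    sg (glue (LL Nd S w) (gau J Nd S w u η) ω y) = sg (glue (LL Nd S w) η ω y) := by
  rw [gau_glue]
  rcases hy with hy | hy
  · rw [flp_node h hy]; simp
  · rw [if_neg (notL_of_Bd h hy), one_mul]

theorem gau_w (h : IsNet J Nd Bd S w u v ω) (η : {x // x ∈ LL Nd S w} → Bool) {i : I}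
    (hi : i ∈ S) :
    sg (glue (LL Nd S w) (gau J Nd S w u η) ω (w i)) =
      Jc J (w i) (u i) * sg (glue (LL Nd S w) η ω (w i)) := by
  rw [gau_glue, if_pos (Finset.mem_union_right _ (Finset.mem_image_of_mem _ hi)), flp_w h hi]

theorem wt_eq {c : Bool} (h : IsNet J Nd Bd S w u v ω) (hc : ∀ y ∈ Bd, ω y = c)
    (η : {x // x ∈ LL Nd S w} → Bool) (t : ℝ) :
    wt (ea Nd S w) (eb Nd S w u v) (fun _ => t) (cfg Nd S w c η) =
      ∏ i ∈ S, ((1 + t * (sg (glue (LL Nd S w) η ω (w i)) * sg (glue (LL Nd S w) η ω (u i)))) *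
        (1 + t * (sg (glue (LL Nd S w) η ω (w i)) * sg (glue (LL Nd S w) η ω (v i))))) := by
  have hk : ∀ y : Site d, (y ∈ Nd ∨ y ∈ Bd) → cfg Nd S w c η (kap Nd S w y) =
      glue (LL Nd S w) η ω y := fun y hy => cfg_kap η fun hL => hc y (Bd_of_notL hy hL)
  have hw : ∀ i ∈ S, cfg Nd S w c η (kap Nd S w (w i)) = glue (LL Nd S w) η ω (w i) :=
    fun i hi => cfg_kap η fun hL =>
      absurd (Finset.mem_union_right _ (Finset.mem_image_of_mem _ hi)) hL
  unfold wt
  rw [Fintype.prod_prod_type, ← Finset.prod_coe_sort S]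
  refine Finset.prod_congr rfl fun i _ => ?_
  rw [Fintype.prod_bool]
  simp only [ea, eb, if_true, Bool.false_eq_true, if_false]
  rw [hw i.1 i.2, hk _ (h.um i.1 i.2), hk _ (h.vm i.1 i.2)]

theorem exp_ham (hH : S_HAM) (h : IsNet J Nd Bd S w u v ω)
    (η : {x // x ∈ LL Nd S w} → Bool) :
    Real.exp (β * ham J (LL Nd S w) (glue (LL Nd S w) (gau J Nd S w u η) ω)) =
      (Real.cosh β ^ 2) ^ S.card *
      ∏ i ∈ S, ((1 + Real.tanh β *
          (sg (glue (LL Nd S w) η ω (w i)) * sg (glue (LL Nd S w) η ω (u i)))) *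
        (1 + Real.tanh β *
          (sg (glue (LL Nd S w) η ω (w i)) * sg (glue (LL Nd S w) η ω (v i))))) := by
  rw [hH d I J Nd Bd S w u v ω h, Finset.mul_sum, Real.exp_sum, ← Finset.prod_const,
    ← Finset.prod_mul_distrib]
  refine Finset.prod_congr rfl fun i hi => ?_
  rw [gau_w h η hi, gau_node h η (h.um i hi), gau_node h η (h.vm i hi), ← h.ferro i hi]
  have hadj : dist1 (w i) (u i) = 1 := ((h.adW i hi (u i) (h.um i hi)).2 (Or.inl rfl))
  have hJ2 : Jc J (w i) (u i) * Jc J (w i) (u i) = 1 := by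
    rcases Jc_cases J hadj with h1 | h1 <;> rw [h1] <;> norm_num
  set s1 := sg (glue (LL Nd S w) η ω (w i)) with hs1
  set s2 := sg (glue (LL Nd S w) η ω (u i)) with hs2
  set s3 := sg (glue (LL Nd S w) η ω (v i)) with hs3
  have e1 : β * (Jc J (w i) (u i) * (Jc J (w i) (u i) * s1) * s2 +
      Jc J (w i) (u i) * (Jc J (w i) (u i) * s1) * s3) = β * (s1 * s2) + β * (s1 * s3) := by
    linear_combination (β * s1 * s2 + β * s1 * s3) * hJ2
  rw [e1, Real.exp_add]
  have c1 : s1 * s2 = 1 ∨ s1 * s2 = -1 := by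
    rcases sg_cases (glue (LL Nd S w) η ω (w i)) with h1 | h1 <;>
      rcases sg_cases (glue (LL Nd S w) η ω (u i)) with h2 | h2 <;>
      rw [hs1, hs2, h1, h2] <;> norm_num
  have c2 : s1 * s3 = 1 ∨ s1 * s3 = -1 := by
    rcases sg_cases (glue (LL Nd S w) η ω (w i)) with h1 | h1 <;>
      rcases sg_cases (glue (LL Nd S w) η ω (v i)) with h2 | h2 <;>
      rw [hs1, hs3, h1, h2] <;> norm_num
  rw [exp_spin β _ c1, exp_spin β _ c2]
  ring

/-- the partition functions of the ferromagnet -/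
noncomputable def XX (β : ℝ) (Nd : Finset (Site d)) (S : Finset I) (w u v : I → Site d) (c : Bool)
    (f : ({x // x ∈ LL Nd S w} → Bool) → ℝ) : ℝ :=
  ∑ η : {x // x ∈ LL Nd S w} → Bool,
    wt (ea Nd S w) (eb Nd S w u v) (fun _ => Real.tanh β) (cfg Nd S w c η) * f η

theorem sum_gau (hH : S_HAM) (h : IsNet J Nd Bd S w u v ω) {c : Bool} (hc : ∀ y ∈ Bd, ω y = c)
    (f : (Site d → Bool) → ℝ) (f' : ({x // x ∈ LL Nd S w} → Bool) → ℝ)
    (hf : ∀ η, f (glue (LL Nd S w) (gau J Nd S w u η) ω) = f' η) :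
    ∑ η : {x // x ∈ LL Nd S w} → Bool,
        Real.exp (β * ham J (LL Nd S w) (glue (LL Nd S w) η ω)) * f (glue (LL Nd S w) η ω) =
      (Real.cosh β ^ 2) ^ S.card * XX β Nd S w u v c f' := by
  unfold XX
  rw [← Equiv.sum_comp (gau J Nd S w u), Finset.mul_sum]
  refine Finset.sum_congr rfl fun η _ => ?_
  rw [exp_ham β hH h η, wt_eq h hc η, hf]
  ring

theorem XX_flip (c : Bool)
    (f : ({x // x ∈ LL Nd S w} → Bool) → ℝ) :
    XX β Nd S w u v (!c) f = XX β Nd S w u v c (fun η => f fun y => !η y) := by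
  unfold XX
  have hinv : Function.Involutive (fun (η : {x // x ∈ LL Nd S w} → Bool) y => !η y) := by
    intro η; funext y; simp
  rw [← Equiv.sum_comp hinv.toPerm]
  refine Finset.sum_congr rfl fun η _ => ?_
  show wt (ea Nd S w) (eb Nd S w u v) (fun _ => Real.tanh β)
      (cfg Nd S w (!c) (fun y => !η y)) * f (fun y => !η y) = _
  have e1 : wt (ea Nd S w) (eb Nd S w u v) (fun _ => Real.tanh β)
      (cfg Nd S w (!c) (fun y => !η y)) =
      wt (ea Nd S w) (eb Nd S w u v) (fun _ => Real.tanh β) (cfg Nd S w c η) := by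
    unfold wt
    refine Finset.prod_congr rfl fun e _ => ?_
    have hx : ∀ y : Option {x // x ∈ LL Nd S w},
        sg (cfg Nd S w (!c) (fun y => !η y) y) = - sg (cfg Nd S w c η y) := by
      intro y
      cases y with
      | none => exact sg_not c
      | some y => exact sg_not (η y)
    rw [hx, hx]
    ring
  rw [e1]

end net

theorem t_NET (hH : S_HAM) (hK : S_GKS) : S_NET := by
  intro d I _ β J Nd Bd S w u v ωp ωm o hβ hp hm hbp hbm ho P _ γ hγ lam
  classical
  have hoL : o ∈ LL Nd S w := Finset.mem_union_left _ ho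
  set T := Real.tanh β with hT
  have hT0 : 0 ≤ T := by
    rw [hT, Real.tanh_eq_sinh_div_cosh]
    exact div_nonneg (Real.sinh_nonneg_iff.2 hβ) (Real.cosh_pos β).le
  have hT1 : T ≤ 1 := (Real.tanh_lt_one β).le
  -- GKS
  have hG := hK (Option {x // x ∈ LL Nd S w}) ({i // i ∈ S} × Bool) {s : P // γ s ⊆ S}
    (ea Nd S w) (eb Nd S w u v) (some ⟨o, hoL⟩) none (fun s => dbl S (γ s.1)) (by
      rintro ⟨s, hs⟩ σ hσ
      set τ : Site d → Bool := fun y => σ (kap Nd S w y) with hτ
      have h1 := hγ s τ (σ none) (fun y hy => by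
        show σ (kap Nd S w y) = σ none
        unfold kap
        rw [dif_neg (notL_of_Bd hp hy)]) (fun i hi => by
        have hiS := hs hi
        have a1 := hσ (⟨i, hiS⟩, true) (by simp [dbl, hi])
        have a2 := hσ (⟨i, hiS⟩, false) (by simp [dbl, hi])
        simp only [ea, eb, if_true, Bool.false_eq_true, if_false] at a1 a2
        show σ (kap Nd S w (u i)) = σ (kap Nd S w (v i))
        rw [← a1, ← a2])
      have h2 : kap Nd S w o = some ⟨o, hoL⟩ := by
        unfold kap; rw [dif_pos hoL]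
      rw [← h2]
      exact h1) (fun _ => T) (fun _ => ⟨hT0, hT1⟩) lam
  -- the polynomial side
  have hs1 : ∑ s : {s : P // γ s ⊆ S}, ∏ _e ∈ dbl S (γ s.1), T =
      ∑ s, (if γ s ⊆ S then (T ^ 2) ^ (γ s).card else 0) := by
    rw [← Finset.sum_filter, ← Finset.sum_subtype (Finset.univ.filter fun s => γ s ⊆ S)
      (p := fun s => γ s ⊆ S) (by intro x; simp) (fun s => ∏ _e ∈ dbl S (γ s), T)]
    refine Finset.sum_congr rfl fun s hs => ?_
    exact dbl_prod S (Finset.mem_filter.1 hs).2 T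
  have hs2 : ∑ s : {s : P // γ s ⊆ S}, ∑ s' : {s : P // γ s ⊆ S},
      ∏ _e ∈ dbl S (γ s.1) ∪ dbl S (γ s'.1), T =
      ∑ s, ∑ s', (if γ s ∪ γ s' ⊆ S then (T ^ 2) ^ (γ s ∪ γ s').card else 0) := by
    have e1 : ∀ s : {s : P // γ s ⊆ S}, ∑ s' : {s : P // γ s ⊆ S},
        ∏ _e ∈ dbl S (γ s.1) ∪ dbl S (γ s'.1), T =
        ∑ s', (if γ s.1 ∪ γ s' ⊆ S then (T ^ 2) ^ (γ s.1 ∪ γ s').card else 0) := by
      intro s
      have : ∑ s', (if γ s.1 ∪ γ s' ⊆ S then (T ^ 2) ^ (γ s.1 ∪ γ s').card else 0) =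
          ∑ s', (if γ s' ⊆ S then (T ^ 2) ^ (γ s.1 ∪ γ s').card else 0) := by
        refine Finset.sum_congr rfl fun s' _ => ?_
        have : γ s.1 ∪ γ s' ⊆ S ↔ γ s' ⊆ S := by
          rw [Finset.union_subset_iff]
          exact ⟨fun h => h.2, fun h => ⟨s.2, h⟩⟩
        by_cases h : γ s' ⊆ S
        · rw [if_pos h, if_pos (this.2 h)]
        · rw [if_neg h, if_neg (fun h' => h (this.1 h'))]
      rw [this, ← Finset.sum_filter, ← Finset.sum_subtype (Finset.univ.filter fun s => γ s ⊆ S)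
        (p := fun s => γ s ⊆ S) (by intro x; simp)
        (fun s' => ∏ _e ∈ dbl S (γ s.1) ∪ dbl S (γ s'), T)]
      refine Finset.sum_congr rfl fun s' hs' => ?_
      rw [dbl_union]
      exact dbl_prod S (Finset.union_subset s.2 (Finset.mem_filter.1 hs').2) T
    rw [Finset.sum_congr rfl fun s _ => e1 s]
    have e2 : ∑ s, ∑ s', (if γ s ∪ γ s' ⊆ S then (T ^ 2) ^ (γ s ∪ γ s').card else 0) =
        ∑ s, (if γ s ⊆ S then ∑ s', (if γ s ∪ γ s' ⊆ S then (T ^ 2) ^ (γ s ∪ γ s').card else 0)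
          else 0) := by
      refine Finset.sum_congr rfl fun s _ => ?_
      by_cases h : γ s ⊆ S
      · rw [if_pos h]
      · rw [if_neg h]
        refine Finset.sum_eq_zero fun s' _ => ?_
        rw [if_neg]
        intro h'
        exact h (Finset.union_subset_iff.1 h').1
    rw [e2, ← Finset.sum_filter, ← Finset.sum_subtype (Finset.univ.filter fun s => γ s ⊆ S)
      (p := fun s => γ s ⊆ S) (by intro x; simp)
      (fun s => ∑ s', (if γ s ∪ γ s' ⊆ S then (T ^ 2) ^ (γ s ∪ γ s').card else 0))]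
  rw [hs1, hs2] at hG
  set ρ := 2 * lam * ∑ s, (if γ s ⊆ S then (T ^ 2) ^ (γ s).card else 0) -
    lam ^ 2 * ∑ s, ∑ s', (if γ s ∪ γ s' ⊆ S then (T ^ 2) ^ (γ s ∪ γ s').card else 0) with hρ
  -- the sums over the vertices
  have split : ∀ F : (Option {x // x ∈ LL Nd S w} → Bool) → ℝ,
      ∑ σ, F σ = ∑ η, F (cfg Nd S w true η) + ∑ η, F (cfg Nd S w false η) := by
    intro F
    rw [← Equiv.sum_comp (Equiv.piOptionEquivProd (α := {x // x ∈ LL Nd S w})
      (β := fun _ => Bool)).symm, Fintype.sum_prod_type, Fintype.sum_bool]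
    congr 1
    · refine Finset.sum_congr rfl fun η _ => ?_
      congr 1
      funext y
      cases y <;> rfl
    · refine Finset.sum_congr rfl fun η _ => ?_
      congr 1
      funext y
      cases y <;> rfl
  set X := XX β Nd S w u v true (fun _ => 1) with hX
  set Y := XX β Nd S w u v true (fun η => sg (η ⟨o, hoL⟩)) with hY
  have hXf : XX β Nd S w u v false (fun _ => 1) = X := XX_flip β true _
  have hYf : XX β Nd S w u v false (fun η => sg (η ⟨o, hoL⟩)) = - Y := by
    have := XX_flip (u := u) (v := v) β true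
      (fun η : {x // x ∈ LL Nd S w} → Bool => sg (η ⟨o, hoL⟩))
    rw [show (false : Bool) = !true from rfl, this, hY]
    unfold XX
    rw [← Finset.sum_neg_distrib]
    refine Finset.sum_congr rfl fun η _ => ?_
    show _ * sg (!η ⟨o, hoL⟩) = -(_ * sg (η ⟨o, hoL⟩))
    rw [sg_not]; ring
  have hD : ∑ σ : Option {x // x ∈ LL Nd S w} → Bool,
      wt (ea Nd S w) (eb Nd S w u v) (fun _ => T) σ = 2 * X := by
    rw [split]
    have a1 : ∑ η, wt (ea Nd S w) (eb Nd S w u v) (fun _ => T) (cfg Nd S w true η) = X := by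
      rw [hX]; unfold XX; simp [hT]
    have a2 : ∑ η, wt (ea Nd S w) (eb Nd S w u v) (fun _ => T) (cfg Nd S w false η) = X := by
      rw [← hXf]; unfold XX; simp [hT]
    rw [a1, a2]; ring
  have hN : ∑ σ : Option {x // x ∈ LL Nd S w} → Bool,
      wt (ea Nd S w) (eb Nd S w u v) (fun _ => T) σ * (sg (σ (some ⟨o, hoL⟩)) * sg (σ none)) =
      2 * Y := by
    rw [split]
    have a1 : ∑ η, wt (ea Nd S w) (eb Nd S w u v) (fun _ => T) (cfg Nd S w true η) *
        (sg (cfg Nd S w true η (some ⟨o, hoL⟩)) * sg (cfg Nd S w true η none)) = Y := by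
      rw [hY]; unfold XX
      refine Finset.sum_congr rfl fun η _ => ?_
      show _ * (sg (η ⟨o, hoL⟩) * sg true) = _
      rw [show sg true = 1 by simp [sg]]; ring
    have a2 : ∑ η, wt (ea Nd S w) (eb Nd S w u v) (fun _ => T) (cfg Nd S w false η) *
        (sg (cfg Nd S w false η (some ⟨o, hoL⟩)) * sg (cfg Nd S w false η none)) = Y := by
      rw [← neg_neg Y, ← hYf]; unfold XX
      rw [← Finset.sum_neg_distrib]
      refine Finset.sum_congr rfl fun η _ => ?_
      show _ * (sg (η ⟨o, hoL⟩) * sg false) = _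
      rw [show sg false = -1 by simp [sg]]; ring
    rw [a1, a2]; ring
  rw [hD, hN] at hG
  -- the expectations
  set C := (Real.cosh β ^ 2) ^ S.card with hC
  have hCpos : 0 < C := by
    rw [hC]; have := Real.cosh_pos β; positivity
  have hind : ∀ η : {x // x ∈ LL Nd S w} → Bool, ∀ ω : Site d → Bool,
      IsNet J Nd Bd S w u v ω →
      ind o (glue (LL Nd S w) (gau J Nd S w u η) ω) = (1 + sg (η ⟨o, hoL⟩)) / 2 := by
    intro η ω h
    have h1 := gau_node h η (y := o) (Or.inl ho)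
    have h2 : glue (LL Nd S w) η ω o = η ⟨o, hoL⟩ := by
      unfold glue; rw [dif_pos hoL]
    rw [h2] at h1
    unfold ind
    cases hb : glue (LL Nd S w) (gau J Nd S w u η) ω o with
    | true =>
      rw [hb] at h1
      rw [← h1]; simp [sg]
    | false =>
      rw [hb] at h1
      rw [← h1]; simp [sg]
  have hgE : ∀ (c : Bool) (ω : Site d → Bool), IsNet J Nd Bd S w u v ω →
      (∀ y ∈ Bd, ω y = c) → gE β J (LL Nd S w) ω (ind o) =
        (XX β Nd S w u v c (fun _ => 1) + XX β Nd S w u v c (fun η => sg (η ⟨o, hoL⟩))) /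
          (2 * XX β Nd S w u v c (fun _ => 1)) ∧ 0 < XX β Nd S w u v c (fun _ => 1) := by
    intro c ω h hc
    have z1 := sum_gau β hH h hc (fun _ => 1) (fun _ => 1) (fun _ => rfl)
    have z2 := sum_gau β hH h hc (ind o) (fun η => (1 + sg (η ⟨o, hoL⟩)) / 2)
      (fun η => hind η ω h)
    have z3 : Zp β J (LL Nd S w) ω = C * XX β Nd S w u v c (fun _ => 1) := by
      rw [← z1]; unfold Zp; simp
    have z4 : XX β Nd S w u v c (fun η => (1 + sg (η ⟨o, hoL⟩)) / 2) =
        (XX β Nd S w u v c (fun _ => 1) + XX β Nd S w u v c (fun η => sg (η ⟨o, hoL⟩))) / 2 := by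
      unfold XX
      rw [← Finset.sum_add_distrib, Finset.sum_div]
      refine Finset.sum_congr rfl fun η _ => ?_
      ring
    have hpos : 0 < XX β Nd S w u v c (fun _ => 1) := by
      have h1 := Basic.Zp_pos β J (LL Nd S w) ω
      rw [z3] at h1
      exact (pos_iff_pos_of_mul_pos h1).1 hCpos
    refine ⟨?_, hpos⟩
    unfold gE
    rw [z2, z3, z4, ← hC]
    field_simp
  obtain ⟨g1, hXp⟩ := hgE true ωp hp hbp
  obtain ⟨g2, -⟩ := hgE false ωm hm hbm
  rw [← hX] at hXp
  show ρ ≤ gE β J (LL Nd S w) ωp (ind o) - gE β J (LL Nd S w) ωm (ind o)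
  rw [g1, g2, hXf, hYf, ← hX, ← hY]
  have : (X + Y) / (2 * X) - (X + -Y) / (2 * X) = Y / X := by
    field_simp
    ring
  rw [this, le_div_iff₀ hXp]
  linarith

end Pool.Agent.Helper35.EAM
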