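import Pool.Agent.Helper35.EAM.Spec2
import Pool.Agent.Helper35.EAM.NET

/-!
# EAM2 part NETG: an unfrustrated network with frozen spins versus percolation
-/

set_option autoImplicit false

open MeasureTheory

namespace Pool.Agent.Helper35.EAM2

open Pool.H47EA Pool.Agent.Helper35.EAM

section netg

variable {d : ℕ} (L Bd : Finset (Site d))

/-- the edges of the network -/
noncomputable def EE (L Bd : Finset (Site d)) : Finset (Sym2 (Site d)) :=
  (edgesOf L).filter fun e => e.out.1 ∈ L ∪ Bd ∧ e.out.2 ∈ L ∪ Bd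

theorem out_eq (e : Sym2 (Site d)) : s(e.out.1, e.out.2) = e := Quot.out_eq e

theorem EE_mk {x y : Site d} : s(x, y) ∈ EE L Bd ↔ s(x, y) ∈ edgesOf L ∧ x ∈ L ∪ Bd ∧ y ∈ L ∪ Bd := by
  unfold EE
  rw [Finset.mem_filter]
  have h := out_eq s(x, y)
  rw [Sym2.eq_iff] at h
  rcases h with ⟨h1, h2⟩ | ⟨h1, h2⟩
  · rw [h1, h2]
  · rw [h1, h2]; tauto

theorem mem_edgesOf' {x y : Site d} :
    s(x, y) ∈ edgesOf L ↔ dist1 x y = 1 ∧ (x ∈ L ∨ y ∈ L) := by
  rw [Basic.mem_edgesOf]
  constructor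
  · rintro ⟨u, hu, v, huv, h⟩
    rw [Sym2.eq_iff] at h
    rcases h with ⟨rfl, rfl⟩ | ⟨rfl, rfl⟩
    · exact ⟨huv, Or.inl hu⟩
    · exact ⟨by rw [Basic.dist1_comm]; exact huv, Or.inr hu⟩
  · rintro ⟨h, hx | hy⟩
    · exact ⟨x, hx, y, h, rfl⟩
    · exact ⟨y, hy, x, by rw [Basic.dist1_comm]; exact h, Sym2.eq_swap⟩

variable {L Bd}

theorem ham_net (J : Coupling d) (σ : Site d → Bool)
    (h : ∀ x ∈ L, ∑ y ∈ nbr x \ (L ∪ Bd), Jc J x y * sg (σ y) = 0) :
    ham J L σ = ∑ e ∈ EE L Bd, bond J σ e := by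
  unfold ham
  have hsub : EE L Bd ⊆ edgesOf L := Finset.filter_subset _ _
  rw [← Finset.sum_sdiff hsub]
  have h0 : ∑ e ∈ edgesOf L \ EE L Bd, bond J σ e = 0 := by
    have h1 : ∑ p ∈ L.sigma (fun x => nbr x \ (L ∪ Bd)), bond J σ s(p.1, p.2) = 0 := by
      rw [Finset.sum_sigma]
      refine Finset.sum_eq_zero fun x hx => ?_
      have : ∀ y ∈ nbr x \ (L ∪ Bd), bond J σ s(x, y) = sg (σ x) * (Jc J x y * sg (σ y)) := by
        intro y _
        rw [Basic.bond_mk]; ring
      rw [Finset.sum_congr rfl this, ← Finset.mul_sum, h x hx, mul_zero]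
    rw [← h1]
    symm
    refine Finset.sum_bij (fun p _ => s(p.1, p.2)) ?_ ?_ ?_ ?_
    · rintro ⟨x, y⟩ hp
      rw [Finset.mem_sigma, Finset.mem_sdiff, Basic.mem_nbr] at hp
      obtain ⟨hx, hxy, hy⟩ := hp
      rw [Finset.mem_sdiff, mem_edgesOf', EE_mk]
      exact ⟨⟨hxy, Or.inl hx⟩, fun h => hy h.2.2⟩
    · rintro ⟨x, y⟩ hp ⟨x', y'⟩ hp' he
      rw [Finset.mem_sigma, Finset.mem_sdiff, Basic.mem_nbr] at hp hp'
      simp only at hp hp' he
      rw [Sym2.eq_iff] at he
      rcases he with ⟨rfl, rfl⟩ | ⟨rfl, rfl⟩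
      · rfl
      · exact absurd (Finset.mem_union_left _ hp.1) hp'.2.2
    · intro e he
      rw [Finset.mem_sdiff] at he
      obtain ⟨he1, he2⟩ := he
      obtain ⟨x, hx, y, hxy, rfl⟩ := Basic.mem_edgesOf.1 he1
      rw [EE_mk] at he2
      have hy : y ∉ L ∪ Bd := fun hy => he2 ⟨he1, Finset.mem_union_left _ hx, hy⟩
      exact ⟨⟨x, y⟩, Finset.mem_sigma.2 ⟨hx, Finset.mem_sdiff.2 ⟨Basic.mem_nbr.2 hxy, hy⟩⟩, rfl⟩
    · rintro ⟨x, y⟩ _; rfl
  rw [h0, zero_add]

variable (L) in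
/-- the vertex of a site -/
def kapg (y : Site d) : Option {x // x ∈ L} :=
  if h : y ∈ L then some ⟨y, h⟩ else none

variable (L) in
/-- configuration on the vertices from the free spins and the boundary spin -/
def cfgg (c : Bool) (η : {x // x ∈ L} → Bool) : Option {x // x ∈ L} → Bool
  | none => c
  | some y => η y

theorem cfgg_kap {c : Bool} {ω : Site d → Bool} (η : {x // x ∈ L} → Bool) {y : Site d}
    (hy : y ∉ L → ω y = c) : cfgg L c η (kapg L y) = glue L η ω y := by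
  unfold kapg glue
  by_cases h : y ∈ L
  · rw [dif_pos h, dif_pos h]; rfl
  · rw [dif_neg h, dif_neg h, hy h]; rfl

variable (L Bd) in
/-- end points -/
noncomputable def ga (e : {e // e ∈ EE L Bd}) : Option {x // x ∈ L} := kapg L e.1.out.1
variable (L Bd) in
noncomputable def gb (e : {e // e ∈ EE L Bd}) : Option {x // x ∈ L} := kapg L e.1.out.2

theorem EE_out (e : {e // e ∈ EE L Bd}) :
    dist1 e.1.out.1 e.1.out.2 = 1 ∧ (e.1.out.1 ∈ L ∨ e.1.out.2 ∈ L) ∧ e.1.out.1 ∈ L ∪ Bd ∧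
      e.1.out.2 ∈ L ∪ Bd := by
  have h := e.2
  rw [← out_eq e.1, EE_mk, mem_edgesOf'] at h
  exact ⟨h.1.1, h.1.2, h.2.1, h.2.2⟩

/-- the gauge transformation -/
noncomputable def gaug (L : Finset (Site d)) (g : Site d → Bool) :
    ({x // x ∈ L} → Bool) ≃ ({x // x ∈ L} → Bool) :=
  Function.Involutive.toPerm (fun η y => xor (η y) (!g y.1)) (by
    intro η
    funext y
    simp)

theorem gaug_glue {g ω : Site d → Bool} {c : Bool}
    (hg : ∀ y ∈ Bd, g y = true) (hω : ∀ y ∈ Bd, ω y = c) (η : {x // x ∈ L} → Bool) {y : Site d}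
    (hy : y ∈ L ∪ Bd) :
    sg (glue L (gaug L g η) ω y) = sg (g y) * sg (cfgg L c η (kapg L y)) := by
  by_cases h : y ∈ L
  · unfold glue kapg
    rw [dif_pos h, dif_pos h]
    show sg (xor (η ⟨y, h⟩) (!g y)) = sg (g y) * sg (η ⟨y, h⟩)
    cases η ⟨y, h⟩ <;> cases g y <;> simp [sg]
  · have hyB : y ∈ Bd := by
      rcases Finset.mem_union.1 hy with h' | h'
      · exact absurd h' h
      · exact h'
    unfold glue kapg
    rw [dif_neg h, dif_neg h, hg y hyB, hω y hyB]
    show sg c = sg true * sg c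
    simp [sg]

/-- the partition functions of the ferromagnet -/
noncomputable def XXg (β : ℝ) (L Bd : Finset (Site d)) (c : Bool)
    (f : ({x // x ∈ L} → Bool) → ℝ) : ℝ :=
  ∑ η : {x // x ∈ L} → Bool,
    wt (ga L Bd) (gb L Bd) (fun _ => Real.tanh β) (cfgg L c η) * f η

theorem exp_hamg (β : ℝ) (J : Coupling d) {g ω : Site d → Bool} {c : Bool}
    (hg : ∀ y ∈ Bd, g y = true) (hω : ∀ y ∈ Bd, ω y = c)
    (hJ : ∀ x ∈ L, ∀ y ∈ L ∪ Bd, dist1 x y = 1 → Jc J x y = sg (g x) * sg (g y))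
    (hf : ∀ x ∈ L, ∑ y ∈ nbr x \ (L ∪ Bd), Jc J x y * sg (ω y) = 0)
    (η : {x // x ∈ L} → Bool) :
    Real.exp (β * ham J L (glue L (gaug L g η) ω)) =
      (Real.cosh β) ^ (EE L Bd).card *
        wt (ga L Bd) (gb L Bd) (fun _ => Real.tanh β) (cfgg L c η) := by
  have hf' : ∀ x ∈ L, ∑ y ∈ nbr x \ (L ∪ Bd),
      Jc J x y * sg (glue L (gaug L g η) ω y) = 0 := by
    intro x hx
    rw [← hf x hx]
    refine Finset.sum_congr rfl fun y hy => ?_
    rw [Finset.mem_sdiff] at hy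
    have hyL : y ∉ L := fun h => hy.2 (Finset.mem_union_left _ h)
    rw [Basic.glue_not_mem _ _ hyL]
  rw [ham_net (Bd := Bd) J _ hf', Finset.mul_sum, Real.exp_sum, ← Finset.prod_const]
  unfold wt
  rw [← Finset.prod_coe_sort (EE L Bd), ← Finset.prod_coe_sort (EE L Bd),
    ← Finset.prod_mul_distrib]
  refine Finset.prod_congr rfl fun e _ => ?_
  obtain ⟨h1, h2, h3, h4⟩ := EE_out e
  have hbond : bond J (glue L (gaug L g η) ω) e.1 =
      sg (cfgg L c η (ga L Bd e)) * sg (cfgg L c η (gb L Bd e)) := by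
    have e0 : bond J (glue L (gaug L g η) ω) e.1 =
        bond J (glue L (gaug L g η) ω) s(e.1.out.1, e.1.out.2) := by rw [out_eq]
    rw [e0, Basic.bond_mk, gaug_glue hg hω η h3, gaug_glue hg hω η h4]
    have e1 : Jc J e.1.out.1 e.1.out.2 = sg (g e.1.out.1) * sg (g e.1.out.2) := by
      rcases h2 with h2 | h2
      · exact hJ _ h2 _ h4 h1
      · rw [Jc_comm, hJ _ h2 _ h3 (by rw [Basic.dist1_comm]; exact h1), mul_comm]
    rw [e1]
    have s1 : sg (g e.1.out.1) * sg (g e.1.out.1) = 1 := by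
      cases g e.1.out.1 <;> simp [sg]
    have s2 : sg (g e.1.out.2) * sg (g e.1.out.2) = 1 := by
      cases g e.1.out.2 <;> simp [sg]
    show _ = sg (cfgg L c η (kapg L e.1.out.1)) * sg (cfgg L c η (kapg L e.1.out.2))
    linear_combination
      (sg (cfgg L c η (kapg L e.1.out.1)) * sg (cfgg L c η (kapg L e.1.out.2))) *
        (sg (g e.1.out.2) * sg (g e.1.out.2)) * s1 +
      (sg (cfgg L c η (kapg L e.1.out.1)) * sg (cfgg L c η (kapg L e.1.out.2))) * s2
  rw [hbond]
  refine exp_spin β _ ?_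
  rcases sg_cases (cfgg L c η (ga L Bd e)) with h5 | h5 <;>
    rcases sg_cases (cfgg L c η (gb L Bd e)) with h6 | h6 <;> rw [h5, h6] <;> norm_num

theorem sum_gaug (β : ℝ) (J : Coupling d) {g ω : Site d → Bool} {c : Bool}
    (hg : ∀ y ∈ Bd, g y = true) (hω : ∀ y ∈ Bd, ω y = c)
    (hJ : ∀ x ∈ L, ∀ y ∈ L ∪ Bd, dist1 x y = 1 → Jc J x y = sg (g x) * sg (g y))
    (hf : ∀ x ∈ L, ∑ y ∈ nbr x \ (L ∪ Bd), Jc J x y * sg (ω y) = 0)
    (f : (Site d → Bool) → ℝ) (f' : ({x // x ∈ L} → Bool) → ℝ)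
    (hff : ∀ η, f (glue L (gaug L g η) ω) = f' η) :
    ∑ η : {x // x ∈ L} → Bool,
        Real.exp (β * ham J L (glue L η ω)) * f (glue L η ω) =
      (Real.cosh β) ^ (EE L Bd).card * XXg β L Bd c f' := by
  unfold XXg
  rw [← Equiv.sum_comp (gaug L g), Finset.mul_sum]
  refine Finset.sum_congr rfl fun η _ => ?_
  rw [exp_hamg β J hg hω hJ hf η, hff]
  ring

theorem XXg_flip (β : ℝ) (c : Bool) (f : ({x // x ∈ L} → Bool) → ℝ) :
    XXg β L Bd (!c) f = XXg β L Bd c (fun η => f fun y => !η y) := by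
  unfold XXg
  have hinv : Function.Involutive (fun (η : {x // x ∈ L} → Bool) y => !η y) := by
    intro η; funext y; simp
  rw [← Equiv.sum_comp hinv.toPerm]
  refine Finset.sum_congr rfl fun η _ => ?_
  show wt (ga L Bd) (gb L Bd) (fun _ => Real.tanh β)
      (cfgg L (!c) (fun y => !η y)) * f (fun y => !η y) = _
  have e1 : wt (ga L Bd) (gb L Bd) (fun _ => Real.tanh β) (cfgg L (!c) (fun y => !η y)) =
      wt (ga L Bd) (gb L Bd) (fun _ => Real.tanh β) (cfgg L c η) := by
    unfold wt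
    refine Finset.prod_congr rfl fun e _ => ?_
    have hx : ∀ y : Option {x // x ∈ L},
        sg (cfgg L (!c) (fun y => !η y) y) = - sg (cfgg L c η y) := by
      intro y
      cases y with
      | none => exact sg_not c
      | some y => exact sg_not (η y)
    rw [hx, hx]
    ring
  rw [e1]

/-! ### the percolation probability as a finite sum -/

theorem EE_adj (e : {e // e ∈ EE L Bd}) : e.1 ∈ (lat d).edgeSet := by
  rw [← out_eq e.1]
  exact (EE_out e).1

/-- the edge of the lattice -/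
def eidx (e : {e // e ∈ EE L Bd}) : (lat d).edgeSet := ⟨e.1, EE_adj e⟩

theorem eidx_inj : Function.Injective (eidx (L := L) (Bd := Bd)) := by
  intro e e' h
  apply Subtype.ext
  have := congrArg (fun z : (lat d).edgeSet => z.1) h
  exact this

theorem Jc_one {U : Coupling d} {x y : Site d} (h : (lat d).Adj x y) :
    Jc U x y = 1 ↔ U ⟨s(x, y), h⟩ = true := by
  unfold Jc
  rw [dif_pos h]
  cases U ⟨s(x, y), h⟩
  · simp [sg]; norm_num
  · simp [sg]

variable (L Bd) in
/-- the connection event in the finite graph -/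
def CN (o : {x // x ∈ L}) (U : {e // e ∈ EE L Bd} → Bool) : Prop :=
  ∀ σ : Option {x // x ∈ L} → Bool,
    (∀ e, U e = true → σ (ga L Bd e) = σ (gb L Bd e)) → σ (some o) = σ none

theorem conn_iff (hB : Disjoint L Bd) {o : Site d} (ho : o ∈ L) (U : Coupling d) :
    Conn L Bd o U ↔ CN L Bd ⟨o, ho⟩ (fun e => U (eidx e)) := by
  have hko : kapg L o = some ⟨o, ho⟩ := by unfold kapg; rw [dif_pos ho]
  have hkB : ∀ y ∈ Bd, kapg L y = none := by
    intro y hy
    unfold kapg
    rw [dif_neg (fun h => (Finset.disjoint_left.1 hB h) hy)]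
  constructor
  · intro h σ hσ
    have := h (fun y => σ (kapg L y)) (σ none) (fun y hy => by
      show σ (kapg L y) = σ none
      rw [hkB y hy]) (fun x hx y hy hxy => by
      show σ (kapg L x) = σ (kapg L y)
      have hadj : (lat d).Adj x y := by
        by_contra hn
        unfold Jc at hxy
        rw [dif_neg hn] at hxy
        norm_num at hxy
      have hmem : s(x, y) ∈ EE L Bd := by
        rw [EE_mk, mem_edgesOf']
        exact ⟨⟨hadj, Or.inl hx⟩, Finset.mem_union_left _ hx, hy⟩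
      have h1 := hσ ⟨s(x, y), hmem⟩ ((Jc_one hadj).1 hxy)
      have h2 := out_eq s(x, y)
      rw [Sym2.eq_iff] at h2
      unfold ga gb at h1
      rcases h2 with ⟨h3, h4⟩ | ⟨h3, h4⟩
      · simp only [h3, h4] at h1; exact h1
      · simp only [h3, h4] at h1; exact h1.symm)
    rw [← hko]
    exact this
  · intro h σ c hc hσ
    have h1 := h (cfgg L c fun y => σ y.1) (fun e he => by
      obtain ⟨a1, a2, a3, a4⟩ := EE_out e
      have hk : ∀ y ∈ L ∪ Bd, cfgg L c (fun y => σ y.1) (kapg L y) = σ y := by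
        intro y hy
        by_cases hyL : y ∈ L
        · unfold kapg; rw [dif_pos hyL]; rfl
        · unfold kapg; rw [dif_neg hyL]
          rcases Finset.mem_union.1 hy with h' | h'
          · exact absurd h' hyL
          · exact (hc y h').symm
      unfold ga gb
      rw [hk _ a3, hk _ a4]
      have hadj : (lat d).Adj e.1.out.1 e.1.out.2 := a1
      have hU : Jc U e.1.out.1 e.1.out.2 = 1 := by
        rw [Jc_one hadj]
        have : (⟨s(e.1.out.1, e.1.out.2), hadj⟩ : (lat d).edgeSet) = eidx e := by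
          apply Subtype.ext
          exact out_eq e.1
        rw [this]; exact he
      rcases a2 with a2 | a2
      · exact hσ _ a2 _ a4 hU
      · rw [Jc_comm] at hU
        exact (hσ _ a2 _ a3 hU).symm)
    exact h1

open Classical in
theorem perc_sum (T : ℝ) (hT0 : 0 ≤ T) (hT1 : T ≤ 1) (hB : Disjoint L Bd) {o : Site d}
    (ho : o ∈ L) :
    (percLaw d T).real {U | Conn L Bd o U} =
      ∑ U : {e // e ∈ EE L Bd} → Bool, (∏ e, if U e = true then T else 1 - T) *
        (if CN L Bd ⟨o, ho⟩ U then (1 : ℝ) else 0) := by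
  set ν := ProbabilityTheory.bernoulliMeasure true false (Set.projIcc (0 : ℝ) 1 zero_le_one T)
    with hν
  have hmeas : Measurable (fun (U : Coupling d) (e : {e // e ∈ EE L Bd}) => U (eidx e)) :=
    measurable_pi_lambda _ fun e => measurable_pi_apply _
  have hlaw : (percLaw d T).map (fun (U : Coupling d) (e : {e // e ∈ EE L Bd}) => U (eidx e)) =
      Measure.pi fun _ => ν := by
    rw [← Measure.infinitePi_eq_pi]
    exact Pool.Agent.Helper79K9.FS.law_inj ν eidx eidx_inj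
  have hset : {U : Coupling d | Conn L Bd o U} =
      (fun (U : Coupling d) (e : {e // e ∈ EE L Bd}) => U (eidx e)) ⁻¹'
        {U | CN L Bd ⟨o, ho⟩ U} := by
    ext U
    exact conn_iff hB ho U
  have hfin : MeasurableSet {U : {e // e ∈ EE L Bd} → Bool | CN L Bd ⟨o, ho⟩ U} :=
    (Set.toFinite _).measurableSet
  have h1 : (percLaw d T).real {U | Conn L Bd o U} =
      (Measure.pi fun _ : {e // e ∈ EE L Bd} => ν).real {U | CN L Bd ⟨o, ho⟩ U} := by
    rw [measureReal_def, measureReal_def, ← hlaw, Measure.map_apply hmeas hfin, hset]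
  have hproj : ((Set.projIcc (0 : ℝ) 1 zero_le_one T : unitInterval) : ℝ) = T := by
    rw [Set.projIcc_of_mem zero_le_one ⟨hT0, hT1⟩]
  have hν1 : ∀ b : Bool, ν.real {b} = if b = true then T else 1 - T := by
    intro b
    rw [hν, ProbabilityTheory.bernoulliMeasure_real_apply _ (measurableSet_singleton b)]
    cases b
    · simp only [Set.mem_singleton_iff, Bool.true_eq_false, Bool.false_eq_true, if_false, if_true]
      show 1 - ((Set.projIcc (0 : ℝ) 1 zero_le_one T : unitInterval) : ℝ) = 1 - T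
      rw [hproj]
    · simp only [Set.mem_singleton_iff, Bool.false_eq_true, if_false, if_true]
      exact hproj
  rw [h1, ← integral_indicator_one hfin, integral_fintype .of_finite]
  refine Finset.sum_congr rfl fun U _ => ?_
  have h2 : (Measure.pi fun _ : {e // e ∈ EE L Bd} => ν).real {U} =
      ∏ e, if U e = true then T else 1 - T := by
    rw [measureReal_def, Measure.pi_singleton, ENNReal.toReal_prod]
    refine Finset.prod_congr rfl fun e _ => ?_
    rw [← measureReal_def]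
    exact hν1 (U e)
  rw [h2, smul_eq_mul]
  congr 1

open Classical in
theorem gks_inst (hK : S_GKSP) {T : ℝ} (hT0 : 0 ≤ T) (hT1 : T ≤ 1) {o : Site d} (ho : o ∈ L) :
    (∑ U : {e // e ∈ EE L Bd} → Bool, (∏ e, if U e = true then T else 1 - T) *
        (if CN L Bd ⟨o, ho⟩ U then (1 : ℝ) else 0)) *
      ∑ σ : Option {x // x ∈ L} → Bool, wt (ga L Bd) (gb L Bd) (fun _ => T) σ ≤
      ∑ σ : Option {x // x ∈ L} → Bool, wt (ga L Bd) (gb L Bd) (fun _ => T) σ *
        (sg (σ (some ⟨o, ho⟩)) * sg (σ none)) := by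
  have h := hK (Option {x // x ∈ L}) {e // e ∈ EE L Bd} (ga L Bd) (gb L Bd) (some ⟨o, ho⟩) none
    (fun _ => T) (fun _ => ⟨hT0, hT1⟩)
  refine le_trans (le_of_eq ?_) h
  refine congrArg₂ (· * ·) (Finset.sum_congr rfl fun U _ => ?_) rfl
  refine congrArg₂ (· * ·) rfl ?_
  by_cases hc : CN L Bd ⟨o, ho⟩ U
  · rw [if_pos hc]
    symm
    exact if_pos hc
  · rw [if_neg hc]
    symm
    exact if_neg hc

end netg

theorem t_NETG (hK : S_GKSP) : S_NETG := by
  intro d β J L Bd g ωp ωm o hβ hB ho hgo hg hJ hbp hbm hfp hfm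
  classical
  set T := Real.tanh β with hT
  have hT0 : 0 ≤ T := by
    rw [hT, Real.tanh_eq_sinh_div_cosh]
    exact div_nonneg (Real.sinh_nonneg_iff.2 hβ) (Real.cosh_pos β).le
  have hT1 : T ≤ 1 := (Real.tanh_lt_one β).le
  have hG := gks_inst hK hT0 hT1 (Bd := Bd) ho
  rw [perc_sum T hT0 hT1 hB ho]
  set ρ := ∑ U : {e // e ∈ EE L Bd} → Bool, (∏ e, if U e = true then T else 1 - T) *
        (if CN L Bd ⟨o, ho⟩ U then (1 : ℝ) else 0) with hρ
  have hG' : ρ * ∑ σ : Option {x // x ∈ L} → Bool, wt (ga L Bd) (gb L Bd) (fun _ => T) σ ≤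
      ∑ σ : Option {x // x ∈ L} → Bool, wt (ga L Bd) (gb L Bd) (fun _ => T) σ *
        (sg (σ (some ⟨o, ho⟩)) * sg (σ none)) := hG
  have split : ∀ F : (Option {x // x ∈ L} → Bool) → ℝ,
      ∑ σ, F σ = ∑ η, F (cfgg L true η) + ∑ η, F (cfgg L false η) := by
    intro F
    rw [← Equiv.sum_comp (Equiv.piOptionEquivProd (α := {x // x ∈ L})
      (β := fun _ => Bool)).symm, Fintype.sum_prod_type, Fintype.sum_bool]
    congr 1
    · refine Finset.sum_congr rfl fun η _ => ?_
      congr 1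
      funext y
      cases y <;> rfl
    · refine Finset.sum_congr rfl fun η _ => ?_
      congr 1
      funext y
      cases y <;> rfl
  set X := XXg β L Bd true (fun _ => 1) with hX
  set Y := XXg β L Bd true (fun η => sg (η ⟨o, ho⟩)) with hY
  have hXf : XXg β L Bd false (fun _ => 1) = X := XXg_flip β true _
  have hYf : XXg β L Bd false (fun η => sg (η ⟨o, ho⟩)) = - Y := by
    have := XXg_flip (Bd := Bd) β true (fun η : {x // x ∈ L} → Bool => sg (η ⟨o, ho⟩))
    rw [show (false : Bool) = !true from rfl, this, hY]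
    unfold XXg
    rw [← Finset.sum_neg_distrib]
    refine Finset.sum_congr rfl fun η _ => ?_
    show _ * sg (!η ⟨o, ho⟩) = -(_ * sg (η ⟨o, ho⟩))
    rw [sg_not]; ring
  have hD : ∑ σ : Option {x // x ∈ L} → Bool, wt (ga L Bd) (gb L Bd) (fun _ => T) σ = 2 * X := by
    rw [split]
    have a1 : ∑ η, wt (ga L Bd) (gb L Bd) (fun _ => T) (cfgg L true η) = X := by
      rw [hX]; unfold XXg; simp [hT]
    have a2 : ∑ η, wt (ga L Bd) (gb L Bd) (fun _ => T) (cfgg L false η) = X := by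
      rw [← hXf]; unfold XXg; simp [hT]
    rw [a1, a2]; ring
  have hN : ∑ σ : Option {x // x ∈ L} → Bool,
      wt (ga L Bd) (gb L Bd) (fun _ => T) σ * (sg (σ (some ⟨o, ho⟩)) * sg (σ none)) = 2 * Y := by
    rw [split]
    have a1 : ∑ η, wt (ga L Bd) (gb L Bd) (fun _ => T) (cfgg L true η) *
        (sg (cfgg L true η (some ⟨o, ho⟩)) * sg (cfgg L true η none)) = Y := by
      rw [hY]; unfold XXg
      refine Finset.sum_congr rfl fun η _ => ?_
      show _ * (sg (η ⟨o, ho⟩) * sg true) = _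
      rw [show sg true = 1 by simp [sg]]; ring
    have a2 : ∑ η, wt (ga L Bd) (gb L Bd) (fun _ => T) (cfgg L false η) *
        (sg (cfgg L false η (some ⟨o, ho⟩)) * sg (cfgg L false η none)) = Y := by
      rw [← neg_neg Y, ← hYf]; unfold XXg
      rw [← Finset.sum_neg_distrib]
      refine Finset.sum_congr rfl fun η _ => ?_
      show _ * (sg (η ⟨o, ho⟩) * sg false) = _
      rw [show sg false = -1 by simp [sg]]; ring
    rw [a1, a2]; ring
  rw [hD, hN] at hG'
  set C := (Real.cosh β) ^ (EE L Bd).card with hC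
  have hCpos : 0 < C := by
    rw [hC]; have := Real.cosh_pos β; positivity
  have hind : ∀ (η : {x // x ∈ L} → Bool) (ω : Site d → Bool),
      ind o (glue L (gaug L g η) ω) = (1 + sg (η ⟨o, ho⟩)) / 2 := by
    intro η ω
    have h1 : glue L (gaug L g η) ω o = η ⟨o, ho⟩ := by
      unfold glue
      rw [dif_pos ho]
      show xor (η ⟨o, ho⟩) (!g o) = _
      rw [hgo]; simp
    unfold ind
    rw [h1]
    cases η ⟨o, ho⟩ <;> simp [sg]
  have hgE : ∀ (c : Bool) (ω : Site d → Bool), (∀ y ∈ Bd, ω y = c) →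
      (∀ x ∈ L, ∑ y ∈ nbr x \ (L ∪ Bd), Jc J x y * sg (ω y) = 0) →
      gE β J L ω (ind o) =
        (XXg β L Bd c (fun _ => 1) + XXg β L Bd c (fun η => sg (η ⟨o, ho⟩))) /
          (2 * XXg β L Bd c (fun _ => 1)) ∧ 0 < XXg β L Bd c (fun _ => 1) := by
    intro c ω hc hf
    have z1 := sum_gaug β J hg hc hJ hf (fun _ => 1) (fun _ => 1) (fun _ => rfl)
    have z2 := sum_gaug β J hg hc hJ hf (ind o) (fun η => (1 + sg (η ⟨o, ho⟩)) / 2)
      (fun η => hind η ω)
    have z3 : Zp β J L ω = C * XXg β L Bd c (fun _ => 1) := by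
      rw [← z1]; unfold Zp; simp
    have z4 : XXg β L Bd c (fun η => (1 + sg (η ⟨o, ho⟩)) / 2) =
        (XXg β L Bd c (fun _ => 1) + XXg β L Bd c (fun η => sg (η ⟨o, ho⟩))) / 2 := by
      unfold XXg
      rw [← Finset.sum_add_distrib, Finset.sum_div]
      refine Finset.sum_congr rfl fun η _ => ?_
      ring
    have hpos : 0 < XXg β L Bd c (fun _ => 1) := by
      have h1 := Basic.Zp_pos β J L ω
      rw [z3] at h1
      exact (pos_iff_pos_of_mul_pos h1).1 hCpos
    refine ⟨?_, hpos⟩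
    unfold gE
    rw [z2, z3, z4, ← hC]
    field_simp
  obtain ⟨g1, hXp⟩ := hgE true ωp hbp hfp
  obtain ⟨g2, -⟩ := hgE false ωm hbm hfm
  rw [← hX] at hXp
  rw [g1, g2, hXf, hYf, ← hX, ← hY]
  have : (X + Y) / (2 * X) - (X + -Y) / (2 * X) = Y / X := by
    field_simp
    ring
  rw [this, le_div_iff₀ hXp]
  linarith

end Pool.Agent.Helper35.EAM2
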