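import Pool.Agent.Helper35.EAM.Spec3
import Pool.Graph.R_pool_sql_team_seeded_1e53cb71.Helper79K9.FS.A5

/-!
# EAM3 part BASH: elementary facts on the influence in volumes contained in a hyperplane
-/

set_option autoImplicit false

open MeasureTheory
open scoped ENNReal

namespace Pool.Agent.Helper35.EAM3

open Pool.H47EA Pool.Agent.Helper35.EAM Pool.Agent.Helper35.EAM2 Pool.Agent.Helper79K9.FS

variable {d : ℕ}

section

variable {c : Fin d} {β : ℝ} {J : Coupling d} {n : ℕ} {x : Site d}

theorem bddH : BddAbove (inflHSet c β J n x) := by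
  refine ⟨1, ?_⟩
  rintro t ⟨L, ω, ω', -, -, -, rfl⟩
  exact diff_le_one β J L ω ω' (unit_ind x)

theorem zeroH : (0 : ℝ) ∈ inflHSet c β J n x :=
  ⟨{x}, fun _ => true, fun _ => true, by simp, by simp, by simp, by simp⟩

theorem inflH_nonneg : 0 ≤ inflH c β J n x := le_csSup bddH zeroH

theorem inflH_le {b : ℝ} (hb : ∀ (L : Finset (Site d)) (ω ω' : Site d → Bool), x ∈ L →
    (∀ y ∈ L, y c = x c) →
    (∀ y, y ∉ L → dist1 x y < n → ω y = ω' y) →
    |gE β J L ω (ind x) - gE β J L ω' (ind x)| ≤ b) : inflH c β J n x ≤ b := by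
  refine csSup_le ⟨0, zeroH⟩ ?_
  rintro t ⟨L, ω, ω', hx, hc, h, rfl⟩
  exact hb L ω ω' hx hc h

theorem le_inflH (L : Finset (Site d)) (ω ω' : Site d → Bool) (hx : x ∈ L)
    (hc : ∀ y ∈ L, y c = x c)
    (h : ∀ y, y ∉ L → dist1 x y < n → ω y = ω' y) :
    |gE β J L ω (ind x) - gE β J L ω' (ind x)| ≤ inflH c β J n x :=
  le_csSup bddH ⟨L, ω, ω', hx, hc, h, rfl⟩

theorem restrictH (hn : 1 ≤ n) {b : ℝ}
    (hb : ∀ (L : Finset (Site d)) (ω ω' : Site d → Bool), x ∈ L → (∀ y ∈ L, y c = x c) →
      (∀ y ∈ L, dist1 x y < n) →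
      (∀ y, y ∉ L → dist1 x y < n → ω y = ω' y) →
      |gE β J L ω (ind x) - gE β J L ω' (ind x)| ≤ b) : inflH c β J n x ≤ b := by
  classical
  refine inflH_le fun Λ ω ω' hx hc hω => ?_
  set L : Finset (Site d) := Λ.filter (fun y => dist1 x y < n) with hL
  have hLΛ : L ⊆ Λ := Finset.filter_subset _ _
  have hLB : ∀ y ∈ L, dist1 x y < n := fun y hy => (Finset.mem_filter.1 hy).2
  have hxL : x ∈ L := Finset.mem_filter.2 ⟨hx, by rw [InfAux.dist_self]; omega⟩
  have hinner : ∀ (η η' : Λ → Bool),
      |gE β J L (glue Λ η ω) (ind x) - gE β J L (glue Λ η' ω') (ind x)| ≤ b := by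
    intro η η'
    refine hb L _ _ hxL (fun y hy => hc y (hLΛ hy)) hLB fun y hyL hy => ?_
    have hyΛ : y ∉ Λ := fun h => hyL (Finset.mem_filter.2 ⟨h, hy⟩)
    simp only [glue, hyΛ, dif_neg, not_false_iff]
    exact hω y hyΛ hy
  have s := spEA β J
  rw [s.cons Λ ω L hLΛ (ind x), s.cons Λ ω' L hLΛ (ind x)]
  set X := gE β J Λ ω (fun τ => gE β J L τ (ind x)) with hX
  have h1 : ∀ η' : Λ → Bool, |X - gE β J L (glue Λ η' ω') (ind x)| ≤ b := by
    intro η'
    set c := gE β J L (glue Λ η' ω') (ind x) with hc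
    have u1 : X ≤ c + b := by
      calc X ≤ gE β J Λ ω (fun _ => c + b) := s.mono _ _ _ _ fun η => by
            have := (abs_le.1 (hinner η η')).2
            show gE β J L (glue Λ η ω) (ind x) ≤ c + b
            linarith
        _ = c + b := s.const _ _ _
    have u2 : c - b ≤ X := by
      calc c - b = gE β J Λ ω (fun _ => c - b) := (s.const _ _ _).symm
        _ ≤ X := s.mono _ _ _ _ fun η => by
            have := (abs_le.1 (hinner η η')).1
            show c - b ≤ gE β J L (glue Λ η ω) (ind x)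
            linarith
    rw [abs_le]
    constructor <;> linarith
  set Y := gE β J Λ ω' (fun τ => gE β J L τ (ind x)) with hY
  have v1 : X - b ≤ Y := by
    calc X - b = gE β J Λ ω' (fun _ => X - b) := (s.const _ _ _).symm
      _ ≤ Y := s.mono _ _ _ _ fun η => by
          have := (abs_le.1 (h1 η)).2
          show X - b ≤ gE β J L (glue Λ η ω') (ind x)
          linarith
  have v2 : Y ≤ X + b := by
    calc Y ≤ gE β J Λ ω' (fun _ => X + b) := s.mono _ _ _ _ fun η => by
          have := (abs_le.1 (h1 η)).1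
          show gE β J L (glue Λ η ω') (ind x) ≤ X + b
          linarith
      _ = X + b := s.const _ _ _
  rw [abs_le]
  constructor <;> linarith

theorem inflH_local (hn : 1 ≤ n) {J J' : Coupling d} (h : ∀ e ∈ EF n x, J e = J' e) :
    inflH c β J n x = inflH c β J' n x := by
  have key : ∀ J J' : Coupling d, (∀ e ∈ EF n x, J e = J' e) →
      inflH c β J n x ≤ inflH c β J' n x := by
    intro J J' h
    refine restrictH hn fun L ω ω' hx hc hL hω => ?_
    have e1 : ∀ τ, gE β J L τ (ind x) = gE β J' L τ (ind x) := by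
      intro τ
      refine gE_coupling β L (fun e he heL => h ⟨e, he⟩ ?_) τ _
      obtain ⟨u, hu, v, huv, rfl⟩ := Basic.mem_edgesOf.1 heL
      have hxu := hL u hu
      rw [mem_EF]
      refine ⟨fun w hw => ?_, u, Sym2.mem_mk_left u v, hxu⟩
      rw [chain_mem_ball]
      have hw' : w ∈ s(u, v) := hw
      rw [Sym2.mem_iff] at hw'
      rcases hw' with rfl | rfl
      · exact hxu.le
      · have := chain_dist_tri x u w
        omega
    rw [e1, e1]
    exact le_inflH L ω ω' hx hc hω
  exact le_antisymm (key J J' h) (key J' J fun e he => (h e he).symm)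

theorem meas_inflH (hn : 1 ≤ n) (c : Fin d) (β : ℝ) (x : Site d) :
    Measurable (fun J : Coupling d => inflH c β J n x) := by
  have h1 := chain_meas (EF n x) (fun J => ENNReal.ofReal (inflH c β J n x))
    (fun J J' h => by rw [inflH_local hn h])
  have h2 := h1.ennreal_toReal
  simpa [ENNReal.toReal_ofReal inflH_nonneg] using h2

end

theorem dist_trH (v : Site d) : ∀ x y : Site d, dist1 (x + v) (y + v) = dist1 x y :=
  fun x y => dist_add x y v

theorem inflH_tr_le (c : Fin d) (β : ℝ) (J' : Coupling d) (n : ℕ) (x v : Site d) :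
    inflH c β (pull (fun z => z + v) (dist_trH v) J') n x ≤ inflH c β J' n (x + v) := by
  classical
  have hinj := emb_inj (fun z : Site d => z + v) (dist_trH v)
  refine inflH_le fun L ω ω' hx hc h => ?_
  -- transport the boundary conditions
  have hg : ∀ τ : Site d → Bool,
      gE β J' (L.image (fun z => z + v)) (fun z => τ (z - v)) (ind (x + v)) =
        gE β (pull (fun z => z + v) (dist_trH v) J') L τ (ind x) := by
    intro τ
    have := gE_pull (fun z : Site d => z + v) (dist_trH v) β J' L x (fun z => τ (z - v))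
      (fun z _ => by
        rw [Finset.sum_eq_zero]
        intro y hy
        exact absurd ⟨y - v, by simp⟩ (Finset.mem_filter.1 hy).2)
    simpa using this
  rw [← hg ω, ← hg ω']
  refine le_inflH _ _ _ (Finset.mem_image_of_mem _ hx) ?_ ?_
  · intro y hy
    obtain ⟨z, hz, rfl⟩ := Finset.mem_image.1 hy
    have := hc z hz
    simp [this]
  · intro y hy hd
    refine h (y - v) (fun hm => hy ?_) ?_
    · rw [Finset.mem_image]
      exact ⟨y - v, hm, by simp⟩
    · have := dist_trH v x (y - v)
      rw [sub_add_cancel] at this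
      omega

theorem inflH_tr (c : Fin d) (β : ℝ) (J' : Coupling d) (n : ℕ) (x v : Site d) :
    inflH c β (pull (fun z => z + v) (dist_trH v) J') n x = inflH c β J' n (x + v) := by
  refine le_antisymm (inflH_tr_le c β J' n x v) ?_
  have h := inflH_tr_le c β (pull (fun z => z + v) (dist_trH v) J') n (x + v) (-v)
  have e1 : pull (fun z => z + -v) (dist_trH (-v)) (pull (fun z => z + v) (dist_trH v) J') = J' := by
    funext e
    unfold pull
    congr 1
    apply Subtype.ext
    show Sym2.map (fun z => z + v) (Sym2.map (fun z => z + -v) e.1) = e.1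
    rw [Sym2.map_map]
    have : ((fun z : Site d => z + v) ∘ fun z => z + -v) = id := by
      funext z
      simp
    rw [this, Sym2.map_id]
    rfl
  rw [e1] at h
  have e2 : x + v + -v = x := by simp
  rwa [e2] at h

theorem t_BASH : S_BASH := by
  intro d c β
  refine ⟨fun J n x L ω ω' hx hc h => le_inflH L ω ω' hx hc h, fun J n x =>
    ⟨inflH_nonneg, ?_, ?_⟩, ?_, ?_, ?_, ?_⟩
  · exact inflH_le fun L ω ω' _ _ _ => diff_le_one β J L ω ω' (unit_ind x)
  · exact inflH_le fun L ω ω' hx _ h => le_infl L ω ω' hx h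
  · intro J n n' x hn
    exact inflH_le fun L ω ω' hx hc h' =>
      le_inflH L ω ω' hx hc fun y hy hd => h' y hy (hd.trans_le hn)
  · exact fun J J' n x hn h => inflH_local hn h
  · intro n x hn
    refine ⟨meas_inflH hn c β x, Integrable.of_bound (meas_inflH hn c β x).aestronglyMeasurable 1
      (ae_of_all _ fun J => ?_)⟩
    rw [Real.norm_eq_abs, abs_of_nonneg inflH_nonneg]
    exact inflH_le fun L ω ω' _ _ _ => diff_le_one β J L ω ω' (unit_ind x)
  · exact fun J' n x v => inflH_tr c β J' n x v

end Pool.Agent.Helper35.EAM3
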