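import Pool.Agent.Helper35.EAM.Spec5
import Pool.Agent.Helper35.EAM.BASH

/-!
# EAM4 part BASV: elementary facts on the influence uniform in the temperature
-/

set_option autoImplicit false

open MeasureTheory
open scoped ENNReal

namespace Pool.Agent.Helper35.EAM4

open Pool.H47EA Pool.Agent.Helper35.EAM Pool.Agent.Helper35.EAM2 Pool.Agent.Helper79K9.FS
open Pool.Agent.Helper35.EAM3 (dist_trH)

variable {d : ℕ}

section

variable {C : Site d → Site d → Prop} {b : ℝ} {J : Coupling d} {n : ℕ} {x : Site d}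

theorem bddV : BddAbove (inflVSet C b J n x) := by
  refine ⟨1, ?_⟩
  rintro t ⟨L, ω, ω', -, -, -, h⟩
  exact (h b le_rfl).trans (diff_le_one b J L ω ω' (unit_ind x))

theorem zeroV (hC : ∀ x, C x x) : (0 : ℝ) ∈ inflVSet C b J n x :=
  ⟨{x}, fun _ => true, fun _ => true, by simp, by simpa using hC x, by simp, by simp⟩

theorem inflV_nonneg (hC : ∀ x, C x x) : 0 ≤ inflV C b J n x := le_csSup bddV (zeroV hC)

theorem inflV_le (hC : ∀ x, C x x) {a : ℝ}
    (ha : ∀ (L : Finset (Site d)) (ω ω' : Site d → Bool) (t : ℝ), x ∈ L →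
    (∀ y ∈ L, C x y) → (∀ y, y ∉ L → dist1 x y < n → ω y = ω' y) →
    (∀ β : ℝ, b ≤ β → t ≤ |gE β J L ω (ind x) - gE β J L ω' (ind x)|) → t ≤ a) :
    inflV C b J n x ≤ a := by
  refine csSup_le ⟨0, zeroV hC⟩ ?_
  rintro t ⟨L, ω, ω', hx, hc, h, ht⟩
  exact ha L ω ω' t hx hc h ht

theorem le_inflV (L : Finset (Site d)) (ω ω' : Site d → Bool) (t : ℝ) (hx : x ∈ L)
    (hc : ∀ y ∈ L, C x y) (h : ∀ y, y ∉ L → dist1 x y < n → ω y = ω' y)
    (ht : ∀ β : ℝ, b ≤ β → t ≤ |gE β J L ω (ind x) - gE β J L ω' (ind x)|) :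
    t ≤ inflV C b J n x :=
  le_csSup bddV ⟨L, ω, ω', hx, hc, h, ht⟩

end

/-- open sets of couplings are measurable -/
theorem meas_open (U : Set (Coupling d)) (hU : ∀ J ∈ U, ∃ F : Finset (lat d).edgeSet,
    ∀ J' : Coupling d, (∀ e ∈ F, J e = J' e) → J' ∈ U) : MeasurableSet U := by
  classical
  -- countable union of cylinders
  have : U = ⋃ p : {p : Σ F : Finset (lat d).edgeSet, (F → Bool) //
      {J : Coupling d | ∀ e : p.1, J e.1 = p.2 e} ⊆ U}, {J : Coupling d | ∀ e : p.1.1, J e.1 = p.1.2 e} := by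
    ext J
    rw [Set.mem_iUnion]
    constructor
    · intro hJ
      obtain ⟨F, hF⟩ := hU J hJ
      refine ⟨⟨⟨F, fun e => J e.1⟩, fun J' hJ' => hF J' fun e he => ?_⟩, fun e => rfl⟩
      exact (hJ' ⟨e, he⟩).symm
    · rintro ⟨⟨p, hp⟩, hJ⟩
      exact hp hJ
  rw [this]
  refine MeasurableSet.iUnion fun p => ?_
  have : {J : Coupling d | ∀ e : p.1.1, J e.1 = p.1.2 e} =
      ⋂ e : p.1.1, (fun J : Coupling d => J e.1) ⁻¹' {p.1.2 e} := by
    ext J
    simp
  rw [this]
  exact MeasurableSet.iInter fun e => measurable_pi_apply _ (measurableSet_singleton _)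

/-- the edges touching a finite set of sites -/
noncomputable def EL (L : Finset (Site d)) : Finset (lat d).edgeSet := by
  classical
  exact (edgesOf L).subtype (fun e => e ∈ (lat d).edgeSet)

theorem mem_EL (L : Finset (Site d)) (e : (lat d).edgeSet) : e ∈ EL L ↔ e.1 ∈ edgesOf L := by
  classical
  unfold EL
  rw [Finset.mem_subtype]

theorem meas_inflV {C : Site d → Site d → Prop} (hC : ∀ x, C x x) (b : ℝ) (n : ℕ) (x : Site d) :
    Measurable (fun J : Coupling d => inflV C b J n x) := by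
  refine measurable_of_Ioi fun a => meas_open _ fun J hJ => ?_
  have hJ' : a < sSup (inflVSet C b J n x) := hJ
  obtain ⟨t, ⟨L, ω, ω', hx, hc, h, ht⟩, hat⟩ :=
    exists_lt_of_lt_csSup ⟨0, zeroV hC⟩ hJ'
  refine ⟨EL L, fun J' hJJ => ?_⟩
  show a < inflV C b J' n x
  refine hat.trans_le (le_inflV L ω ω' t hx hc h fun β hβ => ?_)
  have e1 : ∀ τ, gE β J L τ (ind x) = gE β J' L τ (ind x) := fun τ =>
    gE_coupling β L (fun e he heL => hJJ ⟨e, he⟩ ((mem_EL L _).2 heL)) τ _
  rw [← e1, ← e1]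
  exact ht β hβ

theorem inflV_tr_le {C : Site d → Site d → Prop} (hC : ∀ x, C x x)
    (hCt : ∀ x y v, C (x + v) (y + v) ↔ C x y) (b : ℝ) (J' : Coupling d) (n : ℕ) (x v : Site d) :
    inflV C b (pull (fun z => z + v) (dist_trH v) J') n x ≤ inflV C b J' n (x + v) := by
  classical
  refine inflV_le hC fun L ω ω' t hx hc h ht => ?_
  have hg : ∀ (β : ℝ) (τ : Site d → Bool),
      gE β J' (L.image (fun z => z + v)) (fun z => τ (z - v)) (ind (x + v)) =
        gE β (pull (fun z => z + v) (dist_trH v) J') L τ (ind x) := by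
    intro β τ
    have := gE_pull (fun z : Site d => z + v) (dist_trH v) β J' L x (fun z => τ (z - v))
      (fun z _ => by
        rw [Finset.sum_eq_zero]
        intro y hy
        exact absurd ⟨y - v, by simp⟩ (Finset.mem_filter.1 hy).2)
    simpa using this
  refine le_inflV (L.image (fun z => z + v)) (fun z => ω (z - v)) (fun z => ω' (z - v)) t
    (Finset.mem_image_of_mem _ hx) ?_ ?_ fun β hβ => ?_
  · intro y hy
    obtain ⟨z, hz, rfl⟩ := Finset.mem_image.1 hy
    exact (hCt x z v).2 (hc z hz)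
  · intro y hy hd
    refine h (y - v) (fun hm => hy ?_) ?_
    · rw [Finset.mem_image]
      exact ⟨y - v, hm, by simp⟩
    · have := dist_trH v x (y - v)
      rw [sub_add_cancel] at this
      omega
  · rw [hg, hg]
    exact ht β hβ

theorem inflV_tr {C : Site d → Site d → Prop} (hC : ∀ x, C x x)
    (hCt : ∀ x y v, C (x + v) (y + v) ↔ C x y) (b : ℝ) (J' : Coupling d) (n : ℕ) (x v : Site d) :
    inflV C b (pull (fun z => z + v) (dist_trH v) J') n x = inflV C b J' n (x + v) := by
  refine le_antisymm (inflV_tr_le hC hCt b J' n x v) ?_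
  have h := inflV_tr_le hC hCt b (pull (fun z => z + v) (dist_trH v) J') n (x + v) (-v)
  have e1 : pull (fun z => z + -v) (dist_trH (-v)) (pull (fun z => z + v) (dist_trH v) J') = J' := by
    funext e
    unfold pull
    congr 1
    apply Subtype.ext
    show Sym2.map (fun z => z + v) (Sym2.map (fun z => z + -v) e.1) = e.1
    rw [Sym2.map_map]
    have : ((fun z : Site d => z + v) ∘ fun z => z + -v) = id := by
      funext z
      simp
    rw [this, Sym2.map_id]
    rfl
  rw [e1] at h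
  have e2 : x + v + -v = x := by simp
  rwa [e2] at h

theorem t_BASV : S_BASV := by
  intro d C b hC
  have h1 : ∀ (J : Coupling d) (n : ℕ) (x : Site d), inflV C b J n x ≤ 1 := fun J n x =>
    inflV_le hC fun L ω ω' t _ _ _ ht =>
      (ht b le_rfl).trans (diff_le_one b J L ω ω' (unit_ind x))
  refine ⟨fun J n x L ω ω' t hx hc h ht => le_inflV L ω ω' t hx hc h ht, fun J n x =>
    ⟨inflV_nonneg hC, h1 J n x⟩, ?_, ?_, ?_⟩
  · intro J n n' x hn
    exact inflV_le hC fun L ω ω' t hx hc h' ht =>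
      le_inflV L ω ω' t hx hc (fun y hy hd => h' y hy (hd.trans_le hn)) ht
  · intro n x
    refine ⟨meas_inflV hC b n x, Integrable.of_bound (meas_inflV hC b n x).aestronglyMeasurable 1
      (ae_of_all _ fun J => ?_)⟩
    rw [Real.norm_eq_abs, abs_of_nonneg (inflV_nonneg hC)]
    exact h1 J n x
  · exact fun hCt J' n x v => inflV_tr hC hCt b J' n x v

end Pool.Agent.Helper35.EAM4
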