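import Pool.Agent.Helper35.EAM.Spec5
import Pool.Agent.Helper74.EAM.CPTH

/-!
# EAM4 part CPTV: compactness, the frozen spins do not depend on the temperature
(after `Helper74/EAM/CPTH.lean`)
-/

set_option autoImplicit false

open MeasureTheory Filter Topology
open scoped ENNReal

namespace Pool.Agent.Helper35.EAM4

open Pool.Agent.Helper35.EAM Pool.Agent.Helper35.EAM2 Pool.H47EA Pool.H47EA.GIBBSE
  Helper74.EAM2 Helper74.EAM3

variable {d : ℕ}

theorem t_CPTV : S_CPTV := by
  classical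
  intro d c b J x a ha hinfl
  have hex : ∀ n : ℕ, ∃ (L : Finset (Site d)) (ω ω' : Site d → Bool), x ∈ L ∧
      (∀ y ∈ L, y c = x c) ∧ (∀ y, y ∉ L → dist1 x y < n + 1 → ω y = ω' y) ∧
      ∀ β : ℝ, b ≤ β → a / 2 < |gE β J L ω (ind x) - gE β J L ω' (ind x)| := by
    intro n
    have h1 := hinfl (n + 1) (by omega)
    unfold inflV at h1
    have hne : (inflVSet (fun x y => y c = x c) b J (n + 1) x).Nonempty := by
      by_contra hcon
      rw [Set.not_nonempty_iff_eq_empty] at hcon
      rw [hcon, Real.sSup_empty] at h1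
      linarith
    obtain ⟨t, ⟨L, ω, ω', hL, hLc, hy, ht⟩, hlt⟩ :=
      exists_lt_of_lt_csSup hne (by linarith : a / 2 < _)
    exact ⟨L, ω, ω', hL, hLc, hy, fun β hβ => hlt.trans_le (ht β hβ)⟩
  choose L0 ω ω' hxL0 hLc hagree0 hgap0 using hex
  let L : ℕ → Finset (Site d) := fun n => L0 n ∪ far c x n
  have hxL : ∀ n, x ∈ L n := fun n => Finset.mem_union_left _ (hxL0 n)
  have hagree : ∀ n, ∀ y, y ∉ L n → dist1 x y < n + 1 → ω n y = ω' n y := fun n y hy =>
    hagree0 n y fun h => hy (Finset.mem_union_left _ h)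
  have hgap : ∀ β : ℝ, b ≤ β → ∀ n,
      a / 2 < |gE β J (L n) (ω n) (ind x) - gE β J (L n) (ω' n) (ind x)| := by
    intro β hβ n
    have hna : ∀ u ∈ L0 n, ∀ y ∈ far c x n, ¬ (lat d).Adj u y := fun u hu y hy =>
      not_adj c x u y (hLc n u hu) ((mem_far c x y n).1 hy).2
    rw [decouple β J (L0 n) (far c x n) (ω n) x (hxL0 n) hna,
      decouple β J (L0 n) (far c x n) (ω' n) x (hxL0 n) hna]
    exact hgap0 n β hβ
  let U : Ultrafilter ℕ := Ultrafilter.of atTop
  have hU : (U : Filter ℕ) ≤ atTop := Ultrafilter.of_le _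
  let S : Set (Site d) := {y | ∀ᶠ n in (U : Filter ℕ), y ∈ L n}
  let ζ : Site d → Bool := fun y => if ∀ᶠ n in (U : Filter ℕ), ω n y = true then true else false
  have hnot : ∀ y, y ∉ S → ∀ᶠ n in (U : Filter ℕ), y ∉ L n := by
    intro y hy
    exact Ultrafilter.eventually_not.2 hy
  have hζ : ∀ y, ∀ᶠ n in (U : Filter ℕ), ω n y = ζ y := by
    intro y
    by_cases h : ∀ᶠ n in (U : Filter ℕ), ω n y = true
    · have : ζ y = true := if_pos h
      rw [this]; exact h
    · have : ζ y = false := if_neg h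
      rw [this]
      filter_upwards [Ultrafilter.eventually_not.2 h] with n hn
      simpa using hn
  have hω' : ∀ y, y ∉ S → ∀ᶠ n in (U : Filter ℕ), y ∉ L n ∧ ω' n y = ζ y := by
    intro y hy
    have h3 : ∀ᶠ n in (U : Filter ℕ), dist1 x y < n + 1 := by
      refine hU ?_
      filter_upwards [eventually_ge_atTop (dist1 x y)] with n hn
      omega
    filter_upwards [hnot y hy, hζ y, h3] with n h4 h5 h6
    exact ⟨h4, by rw [← hagree n y h4 h6, h5]⟩
  refine ⟨S, ζ, ?_, fun β hβ => ?_⟩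
  · intro y hy
    refine hU ?_
    filter_upwards [eventually_ge_atTop (dist1 x y)] with n hn
    refine Finset.mem_union_right _ ((mem_far c x y n).2 ⟨fun i => ?_, hy⟩)
    have h2 : (x i - y i).natAbs ≤ dist1 x y := by
      unfold dist1
      exact Finset.single_le_sum (f := fun i => (x i - y i).natAbs) (fun _ _ => Nat.zero_le _)
        (Finset.mem_univ i)
    rw [abs_sub_comm, ← Int.natCast_natAbs]
    exact_mod_cast h2.trans hn
  obtain ⟨π, hπp, hπc, hπg⟩ := limit_state β J L ω U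
  obtain ⟨π', hπp', hπc', hπg'⟩ := limit_state β J L ω' U
  refine ⟨π, π', ⟨hπp, ?_, ?_⟩, ⟨hπp', ?_, ?_⟩, ?_⟩
  · refine limit_frozen β J L ω U π hπc S ζ fun y hy => ?_
    filter_upwards [hnot y hy, hζ y] with n h4 h5
    exact ⟨h4, h5⟩
  · intro L' hL'
    refine hπg L' ?_
    have : ∀ᶠ n in (U : Filter ℕ), ∀ y ∈ L', y ∈ L n := (Finset.eventually_all L').2 hL'
    filter_upwards [this] with n hn y hy
    exact hn y hy
  · exact limit_frozen β J L ω' U π' hπc' S ζ hω'
  · intro L' hL'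
    refine hπg' L' ?_
    have : ∀ᶠ n in (U : Filter ℕ), ∀ y ∈ L', y ∈ L n := (Finset.eventually_all L').2 hL'
    filter_upwards [this] with n hn y hy
    exact hn y hy
  · intro heq
    have h1 := hπc (ind x) (continuous_ind x)
    have h2 := hπc' (ind x) (continuous_ind x)
    rw [← heq] at h2
    have h3 := (h1.sub h2).abs
    rw [sub_self, abs_zero] at h3
    have h4 : ∀ᶠ n in (U : Filter ℕ),
        |gE β J (L n) (ω n) (ind x) - gE β J (L n) (ω' n) (ind x)| < a / 2 :=
      h3.eventually (gt_mem_nhds (by linarith))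
    obtain ⟨n, hn⟩ := h4.exists
    exact absurd hn (not_lt.2 (hgap β hβ n).le)

end Pool.Agent.Helper35.EAM4
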