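import Pool.Agent.Helper35.EAM.BASV

/-!
# EAM4 part DIMV: comparison with the volumes in a hyperplane (after `Helper57/EAM/DIMH.lean`)
-/

set_option autoImplicit false

open MeasureTheory

namespace Pool.Agent.Helper35.EAM4

open Pool.H47EA Pool.Agent.Helper35.EAM Pool.Agent.Helper35.EAM2 Pool.Agent.Helper79K9.FS

theorem hyp_zero {d : ℕ} : hyp (0 : Site d) = (0 : Site (d + 1)) := by
  funext i
  refine Fin.cases ?_ (fun j => ?_) i
  · rfl
  · rfl

theorem t_DIMV : S_DIMV := by
  classical
  intro d n b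
  have hinj := emb_inj (hyp (d := d)) dist_hyp
  have hT : ∀ x : Site d, (fun _ _ => True : Site d → Site d → Prop) x x := fun _ => trivial
  have hH : ∀ x : Site (d + 1),
      (fun x y : Site (d + 1) => y (0 : Fin (d + 1)) = x (0 : Fin (d + 1))) x x := fun _ => rfl
  rw [← law_pull (hyp (d := d)) dist_hyp, integral_map (meas_pull hyp dist_hyp).aemeasurable
    (meas_inflV hT b n 0).aestronglyMeasurable]
  refine integral_mono ?_ ((t_BASV (d + 1) _ b hH).2.2.2.1 n 0).2 fun J' => ?_
  · exact Integrable.of_bound ((meas_inflV hT b n 0).comp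
      (meas_pull hyp dist_hyp)).aestronglyMeasurable 1
      (ae_of_all _ fun J => by
        rw [Real.norm_eq_abs, abs_of_nonneg (inflV_nonneg hT)]
        exact ((t_BASV d _ b hT).2.1 _ n 0).2)
  · obtain ⟨ζ, hζ'⟩ := exists_zeta J'
    have hζ : ∀ x, ∑ y ∈ (nbr (hyp x)).filter (fun y => y ∉ Set.range (hyp (d := d))),
        Jc J' (hyp x) y * sg (ζ y) = 0 := fun x => by convert! hζ' x
    refine inflV_le hT fun L ω ω' t hx _ h ht => ?_
    have key : ∀ (β : ℝ) (τ : Site d → Bool), gE β (pull hyp dist_hyp J') L τ (ind 0) =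
        gE β J' (L.image hyp) (Function.extend hyp τ ζ) (ind (hyp 0)) := by
      intro β τ
      rw [gE_pull hyp dist_hyp β J' L 0]
      · congr 1
        funext z
        rw [hinj.extend_apply]
      · intro y hy
        rw [← hζ y]
        refine Finset.sum_congr rfl fun z hz => ?_
        rw [Function.extend_apply' _ _ _ (fun ⟨a, ha⟩ => (Finset.mem_filter.1 hz).2 ⟨a, ha⟩)]
    refine le_inflV (L.image hyp) (Function.extend hyp ω ζ) (Function.extend hyp ω' ζ) t
      ?_ ?_ ?_ fun β hβ => ?_
    · rw [← hyp_zero]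
      exact Finset.mem_image_of_mem hyp hx
    · intro y hy
      obtain ⟨z, -, rfl⟩ := Finset.mem_image.1 hy
      rfl
    · intro y hy hd
      by_cases hr : ∃ z, hyp z = y
      · obtain ⟨z, rfl⟩ := hr
        rw [hinj.extend_apply, hinj.extend_apply]
        refine h z (fun hz => hy (Finset.mem_image_of_mem hyp hz)) ?_
        rwa [← hyp_zero, dist_hyp] at hd
      · rw [Function.extend_apply' _ _ _ hr, Function.extend_apply' _ _ _ hr]
    · rw [← hyp_zero, ← key, ← key]
      exact ht β hβ

end Pool.Agent.Helper35.EAM4
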