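import Pool.Agent.Helper35.EAM.BASH
import Pool.Agent.Helper61.EAM.ERG

/-!
# EAM3 part ERGH: the zero-one law for translation invariant events (after Helper61/EAM/ERG.lean)
-/

set_option autoImplicit false

open MeasureTheory Filter
open scoped ENNReal symmDiff Topology

namespace Pool.Agent.Helper35.EAM3

open Pool.H47EA Pool.Agent.Helper79K9.FS Pool.Agent.Helper35.EAM Pool.Agent.Helper35.EAM2

variable {d : ℕ}

/-- families of local functions, decreasing in the scale and covariant under translations -/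
structure Cov (F : ℕ → Site d → Coupling d → ℝ) : Prop where
  anti : ∀ (n n' : ℕ) (x : Site d) (J : Coupling d), n ≤ n' → F n' x J ≤ F n x J
  loc : ∀ (n : ℕ) (x : Site d) (J J' : Coupling d), 1 ≤ n → (∀ e ∈ EF n x, J e = J' e) →
    F n x J = F n x J'
  tr : ∀ (n : ℕ) (x v : Site d) (J : Coupling d),
    F n x (pull (fun z => z + v) (dist_trH v) J) = F n (x + v) J

def EV (F : ℕ → Site d → Coupling d → ℝ) (a : ℝ) (x : Site d) : Set (Coupling d) :=
  {J | ∀ n : ℕ, 1 ≤ n → a ≤ F n x J}

def EN (F : ℕ → Site d → Coupling d → ℝ) (a : ℝ) (n : ℕ) (x : Site d) : Set (Coupling d) :=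
  {J | a ≤ F n x J}

variable {F : ℕ → Site d → Coupling d → ℝ}

theorem meas_loc (hF : Cov F) {n : ℕ} (hn : 1 ≤ n) (x : Site d) :
    Measurable (fun J : Coupling d => F n x J) := by
  have h1 := chain_meas (EF n x) (fun J => ENNReal.ofReal (F n x J))
    (fun J J' h => by rw [hF.loc n x J J' hn h])
  have h2 := chain_meas (EF n x) (fun J => ENNReal.ofReal (-F n x J))
    (fun J J' h => by rw [hF.loc n x J J' hn h])
  have h3 := h1.ennreal_toReal.sub h2.ennreal_toReal
  have e : (fun J : Coupling d => F n x J) = (fun J => (ENNReal.ofReal (F n x J)).toReal) -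
      fun J => (ENNReal.ofReal (-F n x J)).toReal := by
    funext J
    simp only [Pi.sub_apply]
    rcases le_total 0 (F n x J) with h | h
    · rw [ENNReal.toReal_ofReal h, ENNReal.ofReal_of_nonpos (by linarith)]
      simp
    · rw [ENNReal.ofReal_of_nonpos h, ENNReal.toReal_ofReal (by linarith)]
      simp
  rw [e]
  exact h3

theorem meas_EN (hF : Cov F) {n : ℕ} (hn : 1 ≤ n) (a : ℝ) (x : Site d) :
    MeasurableSet (EN F a n x) :=
  (meas_loc hF hn x) measurableSet_Ici

theorem EV_eq (F : ℕ → Site d → Coupling d → ℝ) (a : ℝ) (x : Site d) :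
    EV F a x = ⋂ n : ℕ, EN F a (n + 1) x := by
  ext J
  simp only [EV, EN, Set.mem_ofPred_eq, Set.mem_iInter]
  constructor
  · exact fun h n => h (n + 1) (by omega)
  · intro h n hn
    have := h (n - 1)
    rwa [Nat.sub_add_cancel hn] at this

theorem meas_EV (hF : Cov F) (a : ℝ) (x : Site d) : MeasurableSet (EV F a x) := by
  rw [EV_eq]
  exact MeasurableSet.iInter fun n => meas_EN hF (by omega) a x

theorem EV_sub (F : ℕ → Site d → Coupling d → ℝ) (a : ℝ) {n : ℕ} (hn : 1 ≤ n) (x : Site d) :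
    EV F a x ⊆ EN F a n x :=
  fun _ h => h n hn

theorem mu_EN (hF : Cov F) {n : ℕ} (hn : 1 ≤ n) (a : ℝ) (v : Site d) :
    couplingLaw d (EN F a n v) = couplingLaw d (EN F a n 0) := by
  rw [← law_pull (fun z => z + v) (dist_trH v), Measure.map_apply (meas_pull _ _)
    (meas_EN hF hn a 0), law_pull (fun z => z + v) (dist_trH v)]
  congr 1
  ext J
  simp only [EN, Set.mem_ofPred_eq, Set.mem_preimage]
  rw [hF.tr, zero_add]

theorem mu_EV (hF : Cov F) (a : ℝ) (v : Site d) :
    couplingLaw d (EV F a v) = couplingLaw d (EV F a 0) := by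
  rw [← law_pull (fun z => z + v) (dist_trH v), Measure.map_apply (meas_pull _ _)
    (meas_EV hF a 0), law_pull (fun z => z + v) (dist_trH v)]
  congr 1
  ext J
  simp only [EV, Set.mem_ofPred_eq, Set.mem_preimage]
  simp only [hF.tr, zero_add]

/-- the events at scale `n` approximate -/
theorem approx_EN (hF : Cov F) (a : ℝ) {ε : ℝ≥0∞} (hε : 0 < ε) : ∃ n : ℕ, 1 ≤ n ∧
    couplingLaw d (EN F a n 0) ≤ couplingLaw d (EV F a 0) + ε := by
  have h : Tendsto (fun n : ℕ => couplingLaw d (EN F a (n + 1) 0)) atTop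
      (𝓝 (couplingLaw d (⋂ n : ℕ, EN F a (n + 1) 0))) := by
    refine tendsto_measure_iInter_atTop (fun n => (meas_EN hF (by omega) a 0).nullMeasurableSet)
      ?_ ⟨0, measure_ne_top _ _⟩
    intro m n hmn J hJ
    exact le_trans hJ (hF.anti _ _ _ _ (by omega))
  rw [← EV_eq] at h
  have h2 : couplingLaw d (EV F a 0) < couplingLaw d (EV F a 0) + ε :=
    ENNReal.lt_add_right (measure_ne_top _ _) hε.ne'
  obtain ⟨n, hn⟩ := ((tendsto_order.1 h).2 _ h2).exists
  exact ⟨n + 1, by omega, hn.le⟩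

theorem indep_EN (hF : Cov F) {n : ℕ} (hn : 1 ≤ n) (a : ℝ) (v : Site d)
    (S : Finset (lat d).edgeSet) (B : Set (S → Bool)) (hS : Disjoint S (EF n v)) :
    couplingLaw d (cylinder S B ∩ EN F a n v) =
      couplingLaw d (cylinder S B) * couplingLaw d (EN F a n v) := by
  have hB : MeasurableSet (cylinder S B : Set (Coupling d)) :=
    MeasurableSet.cylinder S (Set.toFinite B).measurableSet
  have hE := meas_EN hF hn a v
  have h := chain_indep S (EF n v) hS ((cylinder S B : Set (Coupling d)).indicator 1)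
    ((EN F a n v).indicator 1) ?_ ?_
  · rw [lintegral_indicator_one hB, lintegral_indicator_one hE] at h
    rw [← h, ← lintegral_indicator_one (hB.inter hE)]
    congr 1
    funext J
    rw [Set.inter_indicator_one]
    rfl
  · intro J J' hJ
    have : (J ∈ (cylinder S B : Set (Coupling d))) = (J' ∈ (cylinder S B : Set (Coupling d))) := by
      rw [mem_cylinder, mem_cylinder]
      have : S.restrict J = S.restrict J' := by
        funext e
        exact hJ e.1 e.2
      rw [this]
    by_cases hm : J' ∈ (cylinder S B : Set (Coupling d))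
    · rw [Set.indicator_of_mem (this ▸ hm), Set.indicator_of_mem hm]
      rfl
    · rw [Set.indicator_of_notMem (this ▸ hm), Set.indicator_of_notMem hm]
  · intro J J' hJ
    have h1 : F n v J = F n v J' := hF.loc n v J J' hn hJ
    by_cases hm : J' ∈ EN F a n v
    · have hm' : J ∈ EN F a n v := by
        show a ≤ F n v J
        rw [h1]
        exact hm
      rw [Set.indicator_of_mem hm', Set.indicator_of_mem hm]
      rfl
    · have hm' : J ∉ EN F a n v := by
        intro hm'
        apply hm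
        show a ≤ F n v J'
        rw [← h1]
        exact hm'
      rw [Set.indicator_of_notMem hm', Set.indicator_of_notMem hm]

theorem bound (hd : 1 ≤ d) (hF : Cov F) (a : ℝ) {ε : ℝ} (hε : 0 < ε) :
    couplingLaw d (⋃ x : Site d, EV F a x)ᶜ * couplingLaw d (EV F a 0) ≤
      3 * ENNReal.ofReal ε := by
  set A : Set (Coupling d) := (⋃ x : Site d, EV F a x)ᶜ with hA
  have hAm : MeasurableSet A := (MeasurableSet.iUnion fun x => meas_EV hF a x).compl
  have hε' : (0 : ℝ≥0∞) < ENNReal.ofReal ε := ENNReal.ofReal_pos.2 hε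
  obtain ⟨t, ht, hAt⟩ := Pool.Agent.Helper61.EAM.dense_cyl.approx A hAm (measure_ne_top _ _) ε hε
  obtain ⟨S, B, -, rfl⟩ := (mem_measurableCylinders t).1 ht
  obtain ⟨n, hn, hEN⟩ := approx_EN hF a hε'
  obtain ⟨v, hv⟩ := Pool.Agent.Helper61.EAM.far hd S n
  set μ := couplingLaw d
  set c : Set (Coupling d) := cylinder S B
  have h1 : μ (c \ A) ≤ ENNReal.ofReal ε :=
    (measure_mono (fun J hJ => Or.inr hJ)).trans hAt.le
  have h2 : μ (A \ c) ≤ ENNReal.ofReal ε :=
    (measure_mono (fun J hJ => Or.inl hJ)).trans hAt.le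
  have h3 : μ (EN F a n v \ EV F a v) ≤ ENNReal.ofReal ε := by
    rw [measure_sdiff (EV_sub F a hn v) (meas_EV hF a v).nullMeasurableSet (measure_ne_top _ _)]
    rw [mu_EN hF hn, mu_EV hF]
    exact tsub_le_iff_left.2 hEN
  have h4 : μ (c ∩ EN F a n v) ≤ ENNReal.ofReal ε + ENNReal.ofReal ε := by
    have : c ∩ EN F a n v ⊆ (c \ A) ∪ (EN F a n v \ EV F a v) := by
      rintro J ⟨hc, hE⟩
      by_cases hJ : J ∈ EV F a v
      · left
        refine ⟨hc, fun h => h ?_⟩
        exact Set.mem_iUnion.2 ⟨v, hJ⟩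
      · right
        exact ⟨hE, hJ⟩
    exact (measure_mono this).trans ((measure_union_le _ _).trans (add_le_add h1 h3))
  have h5 : μ A ≤ μ c + ENNReal.ofReal ε := by
    have : A ⊆ c ∪ (A \ c) := by
      intro J hJ
      by_cases h : J ∈ c
      · exact Or.inl h
      · exact Or.inr ⟨hJ, h⟩
    exact (measure_mono this).trans ((measure_union_le _ _).trans (add_le_add le_rfl h2))
  have h6 : μ (EV F a 0) ≤ μ (EN F a n v) := by
    rw [← mu_EV hF a v]
    exact measure_mono (EV_sub F a hn v)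
  calc μ A * μ (EV F a 0) ≤ (μ c + ENNReal.ofReal ε) * μ (EV F a 0) :=
        mul_le_mul' h5 le_rfl
    _ = μ c * μ (EV F a 0) + ENNReal.ofReal ε * μ (EV F a 0) := add_mul _ _ _
    _ ≤ μ c * μ (EN F a n v) + ENNReal.ofReal ε * 1 :=
        add_le_add (mul_le_mul' le_rfl h6) (mul_le_mul' le_rfl prob_le_one)
    _ = μ (c ∩ EN F a n v) + ENNReal.ofReal ε := by
        rw [indep_EN hF hn a v S B hv, mul_one]
    _ ≤ ENNReal.ofReal ε + ENNReal.ofReal ε + ENNReal.ofReal ε := add_le_add h4 le_rfl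
    _ = 3 * ENNReal.ofReal ε := by ring

/-- the zero-one law -/
theorem ergF (hd : 1 ≤ d) (hF : Cov F) (a : ℝ)
    (hpos : 0 < couplingLaw d {J | ∀ n : ℕ, 1 ≤ n → a ≤ F n 0 J}) :
    ∀ᵐ J ∂(couplingLaw d), ∃ x : Site d, ∀ n : ℕ, 1 ≤ n → a ≤ F n x J := by
  have hpos' : 0 < couplingLaw d (EV F a 0) := hpos
  have h0 : couplingLaw d (⋃ x : Site d, EV F a x)ᶜ * couplingLaw d (EV F a 0) = 0 := by
    refine le_antisymm ?_ zero_le
    refine ENNReal.le_of_forall_pos_le_add fun ε hε _ => ?_
    have := bound hd hF a (ε := (ε : ℝ) / 3) (by positivity)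
    refine this.trans ?_
    rw [zero_add]
    have e1 : (3 : ℝ≥0∞) = ENNReal.ofReal 3 := by simp
    rw [e1, ← ENNReal.ofReal_mul (by norm_num)]
    have e2 : (3 : ℝ) * ((ε : ℝ) / 3) = ε := by ring
    rw [e2, ENNReal.ofReal_coe_nnreal]
  have h1 : couplingLaw d (⋃ x : Site d, EV F a x)ᶜ = 0 := by
    rcases mul_eq_zero.1 h0 with h | h
    · exact h
    · exact absurd h hpos'.ne'
  have h2 : ∀ᵐ J ∂(couplingLaw d), J ∈ ⋃ x : Site d, EV F a x := by
    rw [ae_iff]
    exact h1
  filter_upwards [h2] with J hJ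
  obtain ⟨x, hx⟩ := Set.mem_iUnion.1 hJ
  exact ⟨x, hx⟩

theorem t_ERGH : S_ERGH := by
  intro d c β a hpos
  have hF : Cov (fun (n : ℕ) (x : Site d) (J : Coupling d) => inflH c β J n x) :=
    ⟨fun n n' x J h => (t_BASH d c β).2.2.1 J n n' x h,
     fun n x J J' hn h => (t_BASH d c β).2.2.2.1 J J' n x hn h,
     fun n x v J => inflH_tr c β J n x v⟩
  exact ergF (Fin.pos_iff_nonempty.2 ⟨c⟩) hF a hpos

end Pool.Agent.Helper35.EAM3
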