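import Pool.Agent.Helper35.EAM.Spec2

/-!
# EAM3: without frozen spins the Gibbs states are those of the question
-/

set_option autoImplicit false

open MeasureTheory

namespace Pool.Agent.Helper35.EAM3

open Pool.H47EA Pool.Agent.Helper35.EAM Pool.Agent.Helper35.EAM2

/-- `IsGibbs` has the DLR equations for the boxes `Finset.Icc a b` only; for a finite set `L` take a
box `Λ ⊇ L`, `gE Λ ω 1_A = gE Λ ω (gE L · 1_A)` (consistency, `spEA` in `Helper79K9/FS/A1.lean`), and the DLR equation
for `Λ` extends from indicators to bounded measurable functions -/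
def S_UNIV : Prop :=
  ∀ (d : ℕ) (β : ℝ) (J : Coupling d) (ζ : Site d → Bool) (π : Measure (Site d → Bool)),
    IsGibbsOn β J Set.univ ζ π ↔ IsGibbs β J π

end Pool.Agent.Helper35.EAM3
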