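import Pool.Agent.Helper35.EAM.NET
import Pool.Agent.Helper35.EAM.MAIN
import Pool.Agent.Helper36.EAM.Paths
import Pool.Agent.Helper52.EAM.GEOM
import Pool.Agent.Helper52.EAM.PROB
import Pool.Agent.Helper6.EAM.EXPA
import Pool.Agent.Helper6.EAM.HAM
import Pool.Agent.Helper6.EAM.REN
import Pool.Agent.Helper74.EAM.FIELD
import Pool.Agent.Helper74.EAM.PAR
import Pool.Agent.Helper85.EAM.NETJ
import Pool.Agent.Helper97.EAM.GKS
import Pool.Agent.Helper97.EAM.WALK

/-!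
# Edwards Anderson spin glass: the mean influence for `d ≥ 64`, `β ≥ 20 / √d`
-/

set_option autoImplicit false

open MeasureTheory

namespace Pool.Agent.Helper35.EAM.V1

open Pool.H47EA (Site couplingLaw)
open Pool.Agent.Helper79K9.FS (infl)

open Pool.Agent.Helper35.EAM Pool.Agent.Helper36.EAM Pool.Agent.Helper52.EAM
  Pool.Agent.Helper6.EAM Helper74.EAM Helper85.EAM Pool.Agent.Helper97.EAM in
theorem main : S_MAIN :=
  t_MAIN (t_NET t_HAM t_GKS) (t_NETJ t_GEOM t_FIELD) t_PATH (t_SEC t_UNI t_EXPA t_REN t_WALK)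
    t_PROB t_GEOM

theorem v1 (d n : ℕ) (β : ℝ) (hd : 64 ≤ d) (hβ : 20 / √(d : ℝ) ≤ β) (hn : 1 ≤ n) :
    1 / 2 ≤ ∫ J, infl β J n (0 : Site d) ∂(couplingLaw d) := by
  obtain ⟨r, hr, hrd, hT⟩ := Helper74.EAM.t_PAR d β hd hβ
  have hd0 : (0 : ℝ) < d := by
    have : 0 < d := by omega
    exact_mod_cast this
  have hβ0 : 0 < β := lt_of_lt_of_le (by positivity) hβ
  exact main r d n β hr hrd hβ0 hT hn

end Pool.Agent.Helper35.EAM.V1
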