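import Pool.Agent.Helper35.EAM.Spec3
import Pool.Agent.Helper35.EAM.Spec4
import Pool.Agent.Helper35.EAM.V1

/-!
# EAM3: assembly
-/

set_option autoImplicit false

open MeasureTheory

namespace Pool.Agent.Helper35.EAM3

open Pool.H47EA Pool.Agent.Helper35.EAM Pool.Agent.Helper35.EAM2
open Pool.Agent.Helper79K9.FS (infl mm mm_eq mm_dim int_infl phase)

theorem infl_dim (d n : ℕ) (β : ℝ) (hn : 1 ≤ n) :
    ∫ J, infl β J n (0 : Site d) ∂(couplingLaw d) ≤
      ∫ J, infl β J n (0 : Site (d + 1)) ∂(couplingLaw (d + 1)) := by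
  rw [← mm_eq β hn, ← mm_eq β hn]
  exact mm_dim β hn

theorem low (hB : S_BASH) (hM : S_MAIN3H) {β : ℝ} (hβ : 21 ≤ β) {n : ℕ} (hn : 1 ≤ n) :
    ∀ m : ℕ, 1 / 2 ≤ ∫ J, infl β J n (0 : Site (3 + m)) ∂(couplingLaw (3 + m)) := by
  intro m
  induction m with
  | zero =>
    refine (hM n β hβ hn).trans ?_
    exact integral_mono ((hB 3 2 β).2.2.2.2.1 n 0 hn).2 (int_infl hn β 0)
      fun J => ((hB 3 2 β).2.1 J n 0).2.2
  | succ m ih => exact ih.trans (infl_dim (3 + m) n β hn)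

theorem low' (hB : S_BASH) (hM : S_MAIN3H) {β : ℝ} (hβ : 21 ≤ β) {n : ℕ} (hn : 1 ≤ n) {d : ℕ}
    (hd : 3 ≤ d) : 1 / 2 ≤ ∫ J, infl β J n (0 : Site d) ∂(couplingLaw d) := by
  obtain ⟨m, rfl⟩ := Nat.exists_eq_add_of_le hd
  exact low hB hM hβ hn m

/-- the mean influence in volumes contained in a hyperplane -/
theorem hyper (hB : S_BASH) (hM : S_MAIN3H) (hD : S_DIMH) (d : ℕ) (hd : 3 ≤ d) :
    ∃ i : Fin d, ∀ (β : ℝ) (n : ℕ), 168 / √(d : ℝ) ≤ β → 1 ≤ n →
      1 / 2 ≤ ∫ J, inflH i β J n (0 : Site d) ∂(couplingLaw d) := by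
  rcases Nat.lt_or_ge 3 d with h4 | h3
  · obtain ⟨e, rfl⟩ := Nat.exists_eq_add_of_le' (show 1 ≤ d by omega)
    refine ⟨0, fun β n hβ hn => le_trans ?_ (hD e n β hn)⟩
    rcases Nat.lt_or_ge e 64 with he | he
    · refine low' hB hM ?_ hn (by omega)
      refine le_trans ?_ hβ
      have h0 : (0 : ℝ) < √((e + 1 : ℕ) : ℝ) := Real.sqrt_pos.2 (by positivity)
      rw [le_div_iff₀ h0]
      have : √((e + 1 : ℕ) : ℝ) ≤ 8 := by
        rw [show (8 : ℝ) = √64 by
          rw [show (64 : ℝ) = 8 ^ 2 by norm_num, Real.sqrt_sq (by norm_num)]]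
        apply Real.sqrt_le_sqrt
        have : e + 1 ≤ 64 := by omega
        exact_mod_cast this
      linarith
    · have := Pool.Agent.Helper35.EAM.V1.v1 e n β he ?_ hn
      · exact this
      · refine le_trans ?_ hβ
        have h0 : (0 : ℝ) < √((e + 1 : ℕ) : ℝ) := Real.sqrt_pos.2 (by positivity)
        have h1 : (0 : ℝ) < √(e : ℝ) := Real.sqrt_pos.2 (by
          have : 0 < e := by omega
          exact_mod_cast this)
        rw [div_le_div_iff₀ h1 h0]
        have h2 : √((e + 1 : ℕ) : ℝ) ≤ 2 * √(e : ℝ) := by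
          rw [show 2 * √(e : ℝ) = √(4 * (e : ℝ)) by
            rw [Real.sqrt_mul (by norm_num), show (4 : ℝ) = 2 ^ 2 by norm_num,
              Real.sqrt_sq (by norm_num)]]
          apply Real.sqrt_le_sqrt
          have : (1 : ℝ) ≤ e := by
            have : 1 ≤ e := by omega
            exact_mod_cast this
          push_cast
          linarith
        linarith
  · have : d = 3 := by omega
    subst this
    refine ⟨2, fun β n hβ hn => hM n β ?_ hn⟩
    refine le_trans ?_ hβ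
    have h0 : (0 : ℝ) < √((3 : ℕ) : ℝ) := Real.sqrt_pos.2 (by norm_num)
    rw [le_div_iff₀ h0]
    have : √((3 : ℕ) : ℝ) ≤ 8 := by
      rw [show (8 : ℝ) = √64 by
        rw [show (64 : ℝ) = 8 ^ 2 by norm_num, Real.sqrt_sq (by norm_num)]]
      apply Real.sqrt_le_sqrt
      norm_num
    linarith

/-- positive probability -/
theorem posprob (hB : S_BASH) {d : ℕ} (i : Fin d) (β : ℝ)
    (h1 : ∀ n : ℕ, 1 ≤ n → 1 / 2 ≤ ∫ J, inflH i β J n (0 : Site d) ∂(couplingLaw d)) :
    ENNReal.ofReal (1 / 3) ≤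
      couplingLaw d {J | ∀ n : ℕ, 1 ≤ n → 1 / 4 ≤ inflH i β J n (0 : Site d)} := by
  obtain ⟨-, hb, hanti, -, hmi, -⟩ := hB d i β
  have hm : ∀ n : ℕ, 1 ≤ n → MeasurableSet {J : Coupling d | 1 / 4 ≤ inflH i β J n (0 : Site d)} :=
    fun n hn => measurableSet_le measurable_const (hmi n 0 hn).1
  have hn : ∀ n : ℕ, ENNReal.ofReal (1 / 3) ≤
      couplingLaw d {J : Coupling d | 1 / 4 ≤ inflH i β J (n + 1) (0 : Site d)} := by
    intro n
    set E := {J : Coupling d | 1 / 4 ≤ inflH i β J (n + 1) (0 : Site d)} with hE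
    have hmE : MeasurableSet E := hm (n + 1) (by omega)
    have h3 : ∫ J, inflH i β J (n + 1) (0 : Site d) ∂(couplingLaw d) ≤
        1 / 4 + (3 / 4) * (couplingLaw d).real E := by
      have hle : ∀ J : Coupling d, inflH i β J (n + 1) (0 : Site d) ≤
          1 / 4 + (3 / 4) * E.indicator (fun _ => (1 : ℝ)) J := by
        intro J
        by_cases hJ : J ∈ E
        · rw [Set.indicator_of_mem hJ]
          have := (hb J (n + 1) 0).2.1
          linarith
        · rw [Set.indicator_of_notMem hJ]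
          have : inflH i β J (n + 1) (0 : Site d) < 1 / 4 := by
            by_contra hcon
            exact hJ (not_lt.1 hcon)
          linarith
      have hint : Integrable (fun J : Coupling d =>
          1 / 4 + (3 / 4) * E.indicator (fun _ => (1 : ℝ)) J) (couplingLaw d) :=
        (integrable_const _).add (((integrable_const (1 : ℝ)).indicator hmE).const_mul _)
      have := integral_mono (hmi (n + 1) (0 : Site d) (by omega)).2 hint hle
      refine this.trans (le_of_eq ?_)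
      rw [integral_add (integrable_const _)
        (((integrable_const (1 : ℝ)).indicator hmE).const_mul _), integral_const_mul,
        integral_indicator_const _ hmE]
      simp
    have h4 := h1 (n + 1) (by omega)
    have h5 : 1 / 3 ≤ (couplingLaw d).real E := by linarith
    rw [← ofReal_measureReal]
    exact ENNReal.ofReal_le_ofReal h5
  have hset : {J : Coupling d | ∀ n : ℕ, 1 ≤ n → 1 / 4 ≤ inflH i β J n (0 : Site d)} =
      ⋂ n : ℕ, {J : Coupling d | 1 / 4 ≤ inflH i β J (n + 1) (0 : Site d)} := by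
    ext J
    simp only [Set.mem_iInter, Set.mem_ofPred_eq]
    constructor
    · exact fun h n => h (n + 1) (by omega)
    · intro h n hn1
      have := h (n - 1)
      rwa [show n - 1 + 1 = n by omega] at this
  rw [hset]
  have hant : Antitone fun n : ℕ => {J : Coupling d | 1 / 4 ≤ inflH i β J (n + 1) (0 : Site d)} := by
    intro m n hmn J hJ
    exact le_trans hJ (hanti J (m + 1) (n + 1) 0 (by omega))
  rw [hant.measure_iInter (fun n => (hm (n + 1) (by omega)).nullMeasurableSet)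
    ⟨0, measure_ne_top _ _⟩]
  exact le_iInf hn

/-- the final statement -/
theorem final (hB : S_BASH) (hM : S_MAIN3H) (hD : S_DIMH) (hE : S_ERGH) (hC : S_CPTH)
    (hHU : S_HU) : ∃ c : ℝ, 0 < c ∧ ∀ d : ℕ, 3 ≤ d →
    (∀ᵐ J ∂(couplingLaw d), ∀ β : ℝ, 0 < β → β ≤ c / √(d : ℝ) →
      ∀ (S : Set (Site d)) (ζ : Site d → Bool), ∃! π : Measure (Site d → Bool),
        IsGibbsOn β J S ζ π) ∧
    (∃ i : Fin d, ∀ β : ℝ, 168 / √(d : ℝ) ≤ β → ∀ᵐ J ∂(couplingLaw d),
      ∃ (h : ℤ) (S : Set (Site d)) (ζ : Site d → Bool) (π π' : Measure (Site d → Bool)),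
        (∀ y : Site d, y ∉ S → |y i - h| ≤ 1) ∧ IsGibbsOn β J S ζ π ∧ IsGibbsOn β J S ζ π' ∧
        π ≠ π') ∧
    (∀ (β : ℝ) (n : ℕ), 168 / √(d : ℝ) ≤ β → 1 ≤ n →
      1 / 2 ≤ ∫ J, infl β J n (0 : Site d) ∂(couplingLaw d)) := by
  obtain ⟨c, hc, hsmall⟩ := Pool.Agent.Helper79K9.FS.small
  refine ⟨c, hc, fun d hd => ⟨?_, ?_, ?_⟩⟩
  · filter_upwards [hHU d (by omega)] with J hJ β hβ hβc
    exact hJ β (hsmall d (by omega) β hβ hβc)
  · obtain ⟨i, hi⟩ := hyper hB hM hD d hd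
    refine ⟨i, fun β hβ => ?_⟩
    have h1 := posprob hB i β fun n hn => hi β n hβ hn
    have h2 := hE d i β (1 / 4) (lt_of_lt_of_le (ENNReal.ofReal_pos.2 (by norm_num)) h1)
    filter_upwards [h2] with J hJ
    obtain ⟨x, hx⟩ := hJ
    obtain ⟨S, ζ, π, π', -, hS, hπ, hπ', hne⟩ := hC d i β J x (1 / 4) (by norm_num) hx
    refine ⟨x i, S, ζ, π, π', fun y hy => ?_, hπ, hπ', hne⟩
    by_contra hcon
    exact hy (hS y (by omega))
  · intro β n hβ hn
    obtain ⟨i, hi⟩ := hyper hB hM hD d hd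
    refine (hi β n hβ hn).trans ?_
    exact integral_mono ((hB d i β).2.2.2.2.1 n 0 hn).2 (int_infl hn β 0)
      fun J => ((hB d i β).2.1 J n 0).2.2

end Pool.Agent.Helper35.EAM3
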