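import Pool.Agent.Helper35.EAM.Spec5
import Pool.Agent.Helper35.EAM.BASH
import Pool.Agent.Helper74.EAM.PAR

/-!
# EAM4: assembly
-/

set_option autoImplicit false

open MeasureTheory

namespace Pool.Agent.Helper35.EAM4

open Pool.H47EA Pool.Agent.Helper35.EAM Pool.Agent.Helper35.EAM2
open Pool.Agent.Helper79K9.FS (infl mm int_infl phase le_infl infl_nonneg pull dist_add)

variable {d : ℕ}

/-- the threshold -/
noncomputable def bd (d : ℕ) : ℝ := if d < 65 then 21 else 21 / √(d : ℝ)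

/-- the constraint on the volumes: the hyperplane -/
abbrev HC (i : Fin d) (x y : Site d) : Prop := y i = x i

theorem bd_pos (hd : 3 ≤ d) : 0 < bd d := by
  unfold bd
  split_ifs
  · norm_num
  · have : (0 : ℝ) < √(d : ℝ) := Real.sqrt_pos.2 (by
      have : 0 < d := by omega
      exact_mod_cast this)
    positivity

theorem inflV_monoC (hB : S_BASV) {C C' : Site d → Site d → Prop} (hC : ∀ x, C x x)
    (hC' : ∀ x, C' x x) (h : ∀ x y, C x y → C' x y) (b : ℝ) (J : Coupling d) (n : ℕ)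
    (x : Site d) : inflV C b J n x ≤ inflV C' b J n x := by
  have hne : (inflVSet C b J n x).Nonempty :=
    ⟨0, {x}, fun _ => true, fun _ => true, by simp, by simpa using hC x, by simp, by simp⟩
  refine csSup_le hne ?_
  rintro t ⟨L, ω, ω', hx, hL, ha, ht⟩
  exact (hB d C' b hC').1 J n x L ω ω' t hx (fun y hy => h x y (hL y hy)) ha ht

theorem inflV_le_infl (C : Site d → Site d → Prop) (hC : ∀ x, C x x) (b β : ℝ) (hβ : b ≤ β)
    (J : Coupling d) (n : ℕ) (x : Site d) : inflV C b J n x ≤ infl β J n x := by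
  have hne : (inflVSet C b J n x).Nonempty :=
    ⟨0, {x}, fun _ => true, fun _ => true, by simp, by simpa using hC x, by simp, by simp⟩
  refine csSup_le hne ?_
  rintro t ⟨L, ω, ω', hx, hL, ha, ht⟩
  exact (ht β hβ).trans (le_infl L ω ω' hx ha)

/-- all dimensions at least three -/
theorem lowV (hB : S_BASV) (hD : S_DIMV) (hM : S_MAIN3V) {n : ℕ} (hn : 1 ≤ n) :
    ∀ m : ℕ, 1 / 2 ≤ ∫ J, inflV (fun _ _ => True) 21 J n (0 : Site (3 + m))
      ∂(couplingLaw (3 + m)) := by
  intro m
  induction m with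
  | zero =>
    refine (hM n 21 le_rfl hn).trans ?_
    exact integral_mono ((hB 3 (HC 2) 21 (fun _ => rfl)).2.2.2.1 n 0).2
      ((hB 3 (fun _ _ => True) 21 (fun _ => trivial)).2.2.2.1 n 0).2
      fun J => inflV_monoC hB (C := HC 2) (C' := fun _ _ => True) (fun _ => rfl)
        (fun _ => trivial) (fun _ _ _ => trivial) 21 J n 0
  | succ m ih =>
    refine (ih.trans (hD (3 + m) n 21)).trans ?_
    exact integral_mono ((hB (3 + m + 1) (HC 0) 21 (fun _ => rfl)).2.2.2.1 n 0).2
      ((hB (3 + m + 1) (fun _ _ => True) 21 (fun _ => trivial)).2.2.2.1 n 0).2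
      fun J => inflV_monoC hB (C := HC 0) (C' := fun _ _ => True) (fun _ => rfl)
        (fun _ => trivial) (fun _ _ _ => trivial) 21 J n 0

/-- the mean influence in volumes contained in a hyperplane -/
theorem hyperV (hB : S_BASV) (hD : S_DIMV) (hM : S_MAIN3V) (hV : S_MAINV) (d : ℕ) (hd : 3 ≤ d) :
    ∃ i : Fin d, ∀ n : ℕ, 1 ≤ n →
      1 / 2 ≤ ∫ J, inflV (fun x y => y i = x i) (bd d) J n (0 : Site d) ∂(couplingLaw d) := by
  rcases Nat.lt_or_ge 3 d with h4 | h3
  · obtain ⟨e, rfl⟩ := Nat.exists_eq_add_of_le' (show 1 ≤ d by omega)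
    refine ⟨0, fun n hn => le_trans ?_ (hD e n (bd (e + 1)))⟩
    rcases Nat.lt_or_ge e 64 with he | he
    · have hb : bd (e + 1) = 21 := by
        unfold bd
        rw [if_pos (by omega)]
      rw [hb]
      obtain ⟨m, rfl⟩ := Nat.exists_eq_add_of_le (show 3 ≤ e by omega)
      exact lowV hB hD hM hn m
    · have hb : bd (e + 1) = 21 / √((e + 1 : ℕ) : ℝ) := by
        unfold bd
        rw [if_neg (by omega)]
      have h0 : (0 : ℝ) < √((e + 1 : ℕ) : ℝ) := Real.sqrt_pos.2 (by positivity)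
      have h1 : (0 : ℝ) < √(e : ℝ) := Real.sqrt_pos.2 (by
        have : 0 < e := by omega
        exact_mod_cast this)
      have hle : 20 / √(e : ℝ) ≤ bd (e + 1) := by
        rw [hb, div_le_div_iff₀ h1 h0]
        have h2 : √((e + 1 : ℕ) : ℝ) ≤ 21 / 20 * √(e : ℝ) := by
          rw [show 21 / 20 * √(e : ℝ) = √((21 / 20) ^ 2 * (e : ℝ)) by
            rw [Real.sqrt_mul (by norm_num), Real.sqrt_sq (by norm_num)]]
          apply Real.sqrt_le_sqrt
          have : (64 : ℝ) ≤ e := by exact_mod_cast he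
          push_cast
          linarith
        linarith
      obtain ⟨r, hr, hrd, hT⟩ := Helper74.EAM.t_PAR e (bd (e + 1)) he hle
      exact hV r e n (bd (e + 1)) hr hrd (bd_pos (by omega)) hT hn
  · have : d = 3 := by omega
    subst this
    refine ⟨2, fun n hn => ?_⟩
    have hb : bd 3 = 21 := by
      unfold bd
      rw [if_pos (by omega)]
    rw [hb]
    exact hM n 21 le_rfl hn

/-- positive probability -/
theorem posprobV (hB : S_BASV) {d : ℕ} (C : Site d → Site d → Prop) (hC : ∀ x, C x x) (b : ℝ)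
    (h1 : ∀ n : ℕ, 1 ≤ n → 1 / 2 ≤ ∫ J, inflV C b J n (0 : Site d) ∂(couplingLaw d)) :
    ENNReal.ofReal (1 / 3) ≤
      couplingLaw d {J | ∀ n : ℕ, 1 ≤ n → 1 / 4 ≤ inflV C b J n (0 : Site d)} := by
  obtain ⟨-, hb, hanti, hmi, -⟩ := hB d C b hC
  have hm : ∀ n : ℕ, MeasurableSet {J : Coupling d | 1 / 4 ≤ inflV C b J n (0 : Site d)} :=
    fun n => measurableSet_le measurable_const (hmi n 0).1
  have hn : ∀ n : ℕ, ENNReal.ofReal (1 / 3) ≤
      couplingLaw d {J : Coupling d | 1 / 4 ≤ inflV C b J (n + 1) (0 : Site d)} := by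
    intro n
    set E := {J : Coupling d | 1 / 4 ≤ inflV C b J (n + 1) (0 : Site d)} with hE
    have hmE : MeasurableSet E := hm (n + 1)
    have h3 : ∫ J, inflV C b J (n + 1) (0 : Site d) ∂(couplingLaw d) ≤
        1 / 4 + (3 / 4) * (couplingLaw d).real E := by
      have hle : ∀ J : Coupling d, inflV C b J (n + 1) (0 : Site d) ≤
          1 / 4 + (3 / 4) * E.indicator (fun _ => (1 : ℝ)) J := by
        intro J
        by_cases hJ : J ∈ E
        · rw [Set.indicator_of_mem hJ]
          have := (hb J (n + 1) 0).2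
          linarith
        · rw [Set.indicator_of_notMem hJ]
          have : inflV C b J (n + 1) (0 : Site d) < 1 / 4 := by
            by_contra hcon
            exact hJ (not_lt.1 hcon)
          linarith
      have hint : Integrable (fun J : Coupling d =>
          1 / 4 + (3 / 4) * E.indicator (fun _ => (1 : ℝ)) J) (couplingLaw d) :=
        (integrable_const _).add (((integrable_const (1 : ℝ)).indicator hmE).const_mul _)
      have := integral_mono (hmi (n + 1) (0 : Site d)).2 hint hle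
      refine this.trans (le_of_eq ?_)
      rw [integral_add (integrable_const _)
        (((integrable_const (1 : ℝ)).indicator hmE).const_mul _), integral_const_mul,
        integral_indicator_const _ hmE]
      simp
    have h4 := h1 (n + 1) (by omega)
    have h5 : 1 / 3 ≤ (couplingLaw d).real E := by linarith
    rw [← ofReal_measureReal]
    exact ENNReal.ofReal_le_ofReal h5
  have hset : {J : Coupling d | ∀ n : ℕ, 1 ≤ n → 1 / 4 ≤ inflV C b J n (0 : Site d)} =
      ⋂ n : ℕ, {J : Coupling d | 1 / 4 ≤ inflV C b J (n + 1) (0 : Site d)} := by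
    ext J
    simp only [Set.mem_iInter, Set.mem_ofPred_eq]
    constructor
    · exact fun h n => h (n + 1) (by omega)
    · intro h n hn1
      have := h (n - 1)
      rwa [show n - 1 + 1 = n by omega] at this
  rw [hset]
  have hant : Antitone fun n : ℕ => {J : Coupling d | 1 / 4 ≤ inflV C b J (n + 1) (0 : Site d)} := by
    intro m n hmn J hJ
    exact le_trans hJ (hanti J (m + 1) (n + 1) 0 (by omega))
  rw [hant.measure_iInter (fun n => (hm (n + 1)).nullMeasurableSet)
    ⟨0, measure_ne_top _ _⟩]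
  exact le_iInf hn

/-- almost surely somewhere -/
theorem someV (hB : S_BASV) (hZ : S_ZO) {d : ℕ} (hd : 1 ≤ d) (C : Site d → Site d → Prop)
    (hC : ∀ x, C x x) (hCt : ∀ x y v, C (x + v) (y + v) ↔ C x y) (b : ℝ)
    (h1 : ∀ n : ℕ, 1 ≤ n → 1 / 2 ≤ ∫ J, inflV C b J n (0 : Site d) ∂(couplingLaw d)) :
    ∀ᵐ J ∂(couplingLaw d), ∃ x : Site d, ∀ n : ℕ, 1 ≤ n → 1 / 4 ≤ inflV C b J n x := by
  obtain ⟨-, -, -, hmi, htr⟩ := hB d C b hC
  have hpos := posprobV hB C hC b h1
  set E : Set (Coupling d) := {J | ∃ x : Site d, ∀ n : ℕ, 1 ≤ n → 1 / 4 ≤ inflV C b J n x}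
    with hE
  have hEm : MeasurableSet E := by
    have : E = ⋃ x : Site d, ⋂ n : ℕ, {J | 1 ≤ n → 1 / 4 ≤ inflV C b J n x} := by
      ext J
      simp only [hE, Set.mem_ofPred_eq, Set.mem_iUnion, Set.mem_iInter]
    rw [this]
    refine MeasurableSet.iUnion fun x => MeasurableSet.iInter fun n => ?_
    by_cases hn : 1 ≤ n
    · have : {J : Coupling d | 1 ≤ n → 1 / 4 ≤ inflV C b J n x} =
          {J : Coupling d | 1 / 4 ≤ inflV C b J n x} := by
        ext J
        simp only [Set.mem_ofPred_eq, hn, true_imp_iff]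
      rw [this]
      exact measurableSet_le measurable_const (hmi n x).1
    · have : {J : Coupling d | 1 ≤ n → 1 / 4 ≤ inflV C b J n x} = Set.univ := by
        ext J
        simp only [Set.mem_ofPred_eq, Set.mem_univ, iff_true]
        exact fun h => absurd h hn
      rw [this]
      exact MeasurableSet.univ
  refine hZ d E hd hEm (fun v J => ?_) ?_
  · constructor
    · rintro ⟨x, hx⟩
      refine ⟨x + v, fun n hn => ?_⟩
      rw [← htr hCt J n x v]
      exact hx n hn
    · rintro ⟨x, hx⟩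
      refine ⟨x - v, fun n hn => ?_⟩
      rw [htr hCt J n (x - v) v, sub_add_cancel]
      exact hx n hn
  · refine lt_of_lt_of_le (ENNReal.ofReal_pos.2 (by norm_num)) (hpos.trans (measure_mono ?_))
    intro J hJ
    exact ⟨0, hJ⟩

/-- the final statement -/
theorem finalV (hB : S_BASV) (hD : S_DIMV) (hM : S_MAIN3V) (hV : S_MAINV) (hZ : S_ZO)
    (hC : S_CPTV) (hHU : S_HU) : ∃ c : ℝ, 0 < c ∧ ∀ d : ℕ, 3 ≤ d →
    (∀ᵐ J ∂(couplingLaw d), ∀ β : ℝ, 0 < β → β ≤ c / √(d : ℝ) →
      ∀ (S : Set (Site d)) (ζ : Site d → Bool), ∃! π : Measure (Site d → Bool),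
        IsGibbsOn β J S ζ π) ∧
    (∃ i : Fin d, ∀ᵐ J ∂(couplingLaw d), ∃ (h : ℤ) (S : Set (Site d)) (ζ : Site d → Bool),
      (∀ y : Site d, y ∉ S → |y i - h| ≤ 1) ∧ ∀ β : ℝ, bd d ≤ β →
        ∃ π π' : Measure (Site d → Bool), IsGibbsOn β J S ζ π ∧ IsGibbsOn β J S ζ π' ∧
          π ≠ π') ∧
    (∀ (β : ℝ) (n : ℕ), bd d ≤ β → 1 ≤ n →
      1 / 2 ≤ ∫ J, infl β J n (0 : Site d) ∂(couplingLaw d)) := by
  obtain ⟨c, hc, hsmall⟩ := Pool.Agent.Helper79K9.FS.small
  refine ⟨c, hc, fun d hd => ⟨?_, ?_, ?_⟩⟩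
  · filter_upwards [hHU d (by omega)] with J hJ β hβ hβc
    exact hJ β (hsmall d (by omega) β hβ hβc)
  · obtain ⟨i, hi⟩ := hyperV hB hD hM hV d hd
    refine ⟨i, ?_⟩
    filter_upwards [someV hB hZ (by omega) (fun x y => y i = x i) (fun _ => rfl)
      (fun x y v => by simp) (bd d) hi] with J hJ
    obtain ⟨x, hx⟩ := hJ
    obtain ⟨S, ζ, hS, h⟩ := hC d i (bd d) J x (1 / 4) (by norm_num) hx
    refine ⟨x i, S, ζ, fun y hy => ?_, h⟩
    by_contra hcon
    exact hy (hS y (by omega))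
  · intro β n hβ hn
    obtain ⟨i, hi⟩ := hyperV hB hD hM hV d hd
    refine (hi n hn).trans ?_
    exact integral_mono ((hB d (HC i) (bd d) (fun _ => rfl)).2.2.2.1 n 0).2 (int_infl hn β 0)
      fun J => inflV_le_infl (HC i) (fun _ => rfl) (bd d) β hβ J n 0

end Pool.Agent.Helper35.EAM4
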