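import Pool.Agent.Helper35.EAM.MAINV
import Pool.Agent.Helper35.EAM.MAIN3

/-!
# EAM4 part MAIN3V: dimension 3, volumes in a plane, uniform in the temperature
-/

set_option autoImplicit false

open MeasureTheory

namespace Pool.Agent.Helper35.EAM4

open Pool.H47EA Pool.Agent.Helper35.EAM Pool.Agent.Helper35.EAM2
open Pool.Agent.Lib.helper12.Peierls (Surv)

/-- the constraint on the volumes: the plane -/
abbrev Pl (x y : Site 3) : Prop := y (2 : Fin 3) = x (2 : Fin 3)

theorem main3V_J (hB : S_BASV) (hF : S_FIELD2) (hN : S_NETG) (hPM : S_PERCM) (hP : S_PARITY) (hG : S_GAUGE)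
    {n : ℕ} {β : ℝ} (hβ : 0 ≤ β) (J : Coupling 3) (h0 : (0 : Site 3) ∈ Ln J n) :
    (percLaw 3 (Real.tanh β)).real {U | Conn (Ln J n) (Bdn n) 0 U} ≤
      inflV Pl β J n (0 : Site 3) := by
  classical
  obtain ⟨g, hg1, hg2⟩ := hG J n
  have hA := Ln_union J n
  obtain ⟨ω, hω⟩ := hF 2 3 J (Ln J n ∪ Bdn n) (Ln J n) (by norm_num)
    (fun x hx i hi => by
      rw [hA] at hx
      have h2 : i = 2 := by
        apply Fin.ext
        have := i.isLt
        show i.val = 2
        omega
      rw [h2]; exact An_two hx)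
    Finset.subset_union_left
    (fun x hx => by
      have := hP (nq J) (nq_lt J) n (gcells J n) (by
        unfold gcells; exact Finset.filter_subset _ _) x hx
      rw [hA]
      exact ⟨this.1, by omega⟩)
  set ωp : Site 3 → Bool := fun y => if y ∈ Bdn n then true else ω y with hωp
  set ωm : Site 3 → Bool := fun y => if y ∈ Bdn n then false else ω y with hωm
  have hfp : ∀ x ∈ Ln J n, ∑ y ∈ nbr x \ (Ln J n ∪ Bdn n), Jc J x y * sg (ωp y) = 0 := by
    intro x hx
    rw [← hω x hx]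
    refine Finset.sum_congr rfl fun y hy => ?_
    have : y ∉ Bdn n := fun h => (Finset.mem_sdiff.1 hy).2 (Finset.mem_union_right _ h)
    rw [hωp]
    simp only [this, if_false]
  have hfm : ∀ x ∈ Ln J n, ∑ y ∈ nbr x \ (Ln J n ∪ Bdn n), Jc J x y * sg (ωm y) = 0 := by
    intro x hx
    rw [← hω x hx]
    refine Finset.sum_congr rfl fun y hy => ?_
    have : y ∉ Bdn n := fun h => (Finset.mem_sdiff.1 hy).2 (Finset.mem_union_right _ h)
    rw [hωm]
    simp only [this, if_false]
  have hgB : ∀ y ∈ Bdn n, g y = true := by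
    intro y hy
    unfold Bdn at hy
    obtain ⟨c, -, rfl⟩ := Finset.mem_image.1 hy
    exact hg1 c n
  have hg0 : g 0 = true := by rw [← crn_zero]; exact hg1 0 0
  have hdisj : Disjoint (Ln J n) (Bdn n) := by
    unfold Ln
    exact Finset.sdiff_disjoint
  have hT0 : 0 ≤ Real.tanh β := by
    rw [Real.tanh_eq_sinh_div_cosh]
    exact div_nonneg (Real.sinh_nonneg_iff.2 hβ) (Real.cosh_pos β).le
  have key := fun (β' : ℝ) (hβ' : β ≤ β') => hN 3 β' J (Ln J n) (Bdn n) g ωp ωm 0
    (hβ.trans hβ') hdisj h0 hg0 hgB hg2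
    (fun y hy => by rw [hωp]; simp only [hy, if_true])
    (fun y hy => by rw [hωm]; simp only [hy, if_true]) hfp hfm
  refine (hB 3 Pl β (fun _ => rfl)).1 J n 0 _ ωp ωm _ h0 (fun y hy => ?_) (fun y _ hy => ?_)
    fun β' hβ' => ((hPM 3 (Ln J n) (Bdn n) _ _ 0 hT0 (tanh_mono hβ')
      (Real.tanh_lt_one β').le hdisj h0).trans (key β' hβ')).trans (le_abs_self _)
  · have : y ∈ An (gcells J n) (nq J) n := by
      unfold Ln at hy
      exact (Finset.mem_sdiff.1 hy).1
    exact An_two this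
  have hyB : y ∉ Bdn n := fun h => by
    have := Bdn_dist h
    omega
  rw [hωp, hωm]
  simp only [hyB, if_false]

theorem t_MAIN3V (hB : S_BASV) (hF : S_FIELD2) (hN : S_NETG) (hPM : S_PERCM) (hPe : S_PEI) (hP : S_PARITY)
    (hG : S_GAUGE) (hC : S_CONN) (hL : S_LISTB) (hM : S_MEAS) (hNum : S_NUM) : S_MAIN3V := by
  intro n β hβ hn
  classical
  have hβ0 : 0 ≤ β := by linarith
  set T := Real.tanh β with hT
  have hT0 : 0 ≤ T := by
    rw [hT, Real.tanh_eq_sinh_div_cosh]
    exact div_nonneg (Real.sinh_nonneg_iff.2 hβ0) (Real.cosh_pos β).le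
  have hT1 : T ≤ 1 := (Real.tanh_lt_one β).le
  obtain ⟨p, r, hpr, hr, hr2, hp60, hpT⟩ := hNum
  set μ := (couplingLaw 3).prod (percLaw 3 T) with hμ
  have hlist := hL T hT0 hT1 p hp60 (hpT β hβ)
  have hbad := hPe (Coupling 3 × Coupling 3) KK μ cl p r hlist hpr hr n
  set E : Set (Coupling 3 × Coupling 3) := {x | Surv (cl x) n 0} with hE
  have hmE : MeasurableSet E := hM n
  have hbad' : μ Eᶜ ≤ 1 / 2 := hbad.trans hr2
  have hgood : 1 / 2 ≤ μ E := by
    have h1 : μ E + μ Eᶜ = 1 := by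
      rw [measure_add_measure_compl hmE, measure_univ]
    by_contra hlt
    rw [not_le] at hlt
    have : μ E + μ Eᶜ < 1 / 2 + 1 / 2 := ENNReal.add_lt_add_of_lt_of_le
      (ne_top_of_le_ne_top (by simp) hbad') hlt hbad'
    rw [h1, ENNReal.add_halves] at this
    exact lt_irrefl _ this
  have hpt : ∀ J : Coupling 3, percLaw 3 T (Prod.mk J ⁻¹' E) ≤
      ENNReal.ofReal (inflV Pl β J n (0 : Site 3)) := by
    intro J
    by_cases hne : ∃ U, Surv (cl (J, U)) n 0
    · obtain ⟨U, hU⟩ := hne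
      have h0 := (hC n J U hn hU).1
      have hsub : Prod.mk J ⁻¹' E ⊆ {U | Conn (Ln J n) (Bdn n) 0 U} := by
        intro U hU
        exact (hC n J U hn hU).2
      refine (measure_mono hsub).trans ?_
      rw [← ofReal_measureReal]
      exact ENNReal.ofReal_le_ofReal (main3V_J hB hF hN hPM hP hG hβ0 J h0)
    · have : Prod.mk J ⁻¹' E = ∅ := by
        ext U
        simp only [Set.mem_preimage, Set.mem_empty_iff_false, iff_false]
        intro hU
        exact hne ⟨U, hU⟩
      rw [this, measure_empty]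
      exact zero_le
  have hint : μ E ≤
      ENNReal.ofReal (∫ J, inflV Pl β J n (0 : Site 3) ∂(couplingLaw 3)) := by
    rw [hμ, Measure.prod_apply hmE, ofReal_integral_eq_lintegral_ofReal
      ((hB 3 Pl β (fun _ => rfl)).2.2.2.1 n 0).2
        (ae_of_all _ fun J => ((hB 3 Pl β (fun _ => rfl)).2.1 J n 0).1)]
    exact lintegral_mono hpt
  have hfin := hgood.trans hint
  have h12 : (1 / 2 : ENNReal) = ENNReal.ofReal (1 / 2) := by
    rw [ENNReal.ofReal_div_of_pos (by norm_num)]; simp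
  rw [h12] at hfin
  rw [ENNReal.ofReal_le_ofReal_iff'] at hfin
  rcases hfin with h | h
  · exact h
  · norm_num at h

end Pool.Agent.Helper35.EAM4
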