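import Pool.Agent.Helper35.EAM.Spec5
import Pool.Agent.Helper35.EAM.MAIN

/-!
# EAM4 part MAINV: the mean of the influence, uniform in the temperature
-/

set_option autoImplicit false

open MeasureTheory

namespace Pool.Agent.Helper35.EAM4

open Pool.H47EA Pool.Agent.Helper35.EAM

theorem tanh_mono {x y : ℝ} (h : x ≤ y) : Real.tanh x ≤ Real.tanh y := by
  rcases h.eq_or_lt with h | h
  · rw [h]
  · rw [Real.tanh_eq_sinh_div_cosh, Real.tanh_eq_sinh_div_cosh,
      div_le_div_iff₀ (Real.cosh_pos x) (Real.cosh_pos y)]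
    have h1 : Real.sinh (y - x) = Real.sinh y * Real.cosh x - Real.cosh y * Real.sinh x :=
      Real.sinh_sub y x
    have h2 : 0 ≤ Real.sinh (y - x) := Real.sinh_nonneg_iff.2 (by linarith)
    linarith

theorem main_J (hBV : S_BASV) (hN : S_NETU) (hNJ : S_NETJ) (hP : S_PATH) (hG : S_GEOM) {k d n : ℕ}
    (hkd : 4 * k ≤ d) (hn : 1 ≤ n) {β : ℝ} (hβ : 0 < β) (J : Coupling d) (lam : ℝ) :
    2 * lam * ∑ s : Fin n → Fin k, (if gam s ⊆ SJ k d n J then
        (Real.tanh β ^ 2) ^ (gam s).card else 0) -
      lam ^ 2 * ∑ s : Fin n → Fin k, ∑ s' : Fin n → Fin k,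
        (if gam s ∪ gam s' ⊆ SJ k d n J then (Real.tanh β ^ 2) ^ (gam s ∪ gam s').card else 0)
      ≤ inflV (fun _ _ => True) β J n (0 : Site d) := by
  classical
  obtain ⟨ω, hω⟩ := hNJ k d n J hkd
  have hkd2 : 2 * k ≤ d := by omega
  obtain ⟨-, -, -, -, -, -, -, hdist⟩ := hG k d hkd2
  set ωp : Site d → Bool := fun y => if y ∈ BdF k d n then true else ω y with hωp
  set ωm : Site d → Bool := fun y => if y ∈ BdF k d n then false else ω y with hωm
  have h0 : (0 : Fin k → ℤ) ∈ NdS k n := by
    unfold NdS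
    rw [Finset.mem_filter, Fintype.mem_piFinset]
    refine ⟨fun i => ?_, ?_⟩
    · rw [Finset.mem_Ico]
      refine ⟨le_refl _, ?_⟩
      show (0 : ℤ) < n
      omega
    · simp only [Pi.zero_apply, Finset.sum_const_zero]
      omega
  have h0F : (0 : Site d) ∈ NdF k d n := by
    unfold NdF
    rw [← nd_zero k d]
    exact Finset.mem_image_of_mem _ h0
  have hT0 : 0 ≤ Real.tanh β := by
    rw [Real.tanh_eq_sinh_div_cosh]
    exact div_nonneg (Real.sinh_nonneg_iff.2 hβ.le) (Real.cosh_pos β).le
  have key := fun (β' : ℝ) (hβ' : β ≤ β') => hN d (Bool × Bond k) β' (Real.tanh β) J (NdF k d n)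
    (BdF k d n) (SJ k d n J) (fw k d) (fu k d)
    (fv k d) ωp ωm 0 (hβ.le.trans hβ') hT0 (tanh_mono hβ')
    (hω ωp fun y hy => by rw [hωp]; simp only [hy, if_false])
    (hω ωm fun y hy => by rw [hωm]; simp only [hy, if_false])
    (fun y hy => by rw [hωp]; simp only [hy, if_true])
    (fun y hy => by rw [hωm]; simp only [hy, if_true]) h0F (Fin n → Fin k) gam
    (by
      intro s σ c hc hs
      obtain ⟨-, -, hB, -, -, hf⟩ := hP k n s
      have := hf (fun x => σ (nd k d x)) (fun b hb => by
        exact hs (false, b) (Finset.mem_image_of_mem _ hb))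
      rw [← nd_zero k d]
      refine this.trans (hc _ ?_)
      unfold BdF
      exact Finset.mem_image_of_mem _ hB) lam
  refine (hBV d (fun _ _ => True) β (fun _ => trivial)).1 J n 0 _ ωp ωm _
    (Finset.mem_union_left _ h0F) (fun _ _ => trivial) (fun y _ hy => ?_)
    fun β' hβ' => (key β' hβ').trans (le_abs_self _)
  have hyB : y ∉ BdF k d n := by
    intro hyB
    unfold BdF at hyB
    obtain ⟨x, hx, rfl⟩ := Finset.mem_image.1 hyB
    unfold BdS at hx
    rw [Finset.mem_filter, Fintype.mem_piFinset] at hx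
    have h1 := hdist x
    have h2 : ∑ i, |x i| = n := by
      rw [← hx.2]
      refine Finset.sum_congr rfl fun i _ => abs_of_nonneg ?_
      exact (Finset.mem_Icc.1 (hx.1 i)).1
    rw [h2] at h1
    have h3 : (dist1 (0 : Site d) (nd k d x) : ℤ) < n := by exact_mod_cast hy
    omega
  rw [hωp, hωm]
  simp only [hyB, if_false]

theorem t_MAINV (hBV : S_BASV) (hN : S_NETU) (hNJ : S_NETJ) (hP : S_PATH) (hS : S_SEC) (hPr : S_PROB)
    (hG : S_GEOM) : S_MAINV := by
  classical
  intro r d n β hr hrd hβ hT hn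
  have hkd : 4 * (16 * r) ≤ d := by omega
  set T := Real.tanh β ^ 2 with hTdef
  have hth : 0 < Real.tanh β := by
    rw [Real.tanh_eq_sinh_div_cosh]
    exact div_pos (Real.sinh_pos_iff.2 hβ) (Real.cosh_pos β)
  have hT0 : 0 < T := by positivity
  have hT1 : T ≤ 1 := by
    have := (Real.tanh_lt_one β).le
    rw [hTdef]
    exact pow_le_one₀ hth.le this
  set p := T / 4 with hp
  have hp0 : 0 < p := by positivity
  have hp1 : p ≤ 1 := by rw [hp]; linarith
  have hr' : (1 : ℝ) ≤ r := by exact_mod_cast hr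
  have hkp : 5 / 2 ≤ 16 * (r : ℝ) * p := by
    rw [hp]; nlinarith
  have hsec := hS r n p hr hp0 hp1 hkp
  set M : ℝ := (16 * (r : ℝ)) ^ n * p ^ n with hM
  have hM0 : 0 < M := by positivity
  set lam : ℝ := 1 / (2 * M) with hlam
  -- the lower bound for every J
  set Q : Finset (Bond (16 * r)) → Coupling d → ℝ := fun B J =>
    if ∀ b ∈ B, Good J b then 1 else 0 with hQ
  have hQi : ∀ B, Integrable (Q B) (couplingLaw d) := fun B => (hPr (16 * r) d (by omega) B).1
  have hQv : ∀ B, ∫ J, Q B J ∂(couplingLaw d) = (1 / 4) ^ B.card :=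
    fun B => (hPr (16 * r) d (by omega) B).2
  have hbN : ∀ s : Fin n → Fin (16 * r), ∀ b ∈ bonds s, b.1 ∈ NdS (16 * r) n :=
    fun s => (hP (16 * r) n s).1
  have hbc : ∀ s : Fin n → Fin (16 * r), (bonds s).card = n := fun s => (hP (16 * r) n s).2.1
  have hJ : ∀ J : Coupling d,
      2 * lam * ∑ s : Fin n → Fin (16 * r), T ^ n * Q (bonds s) J -
        lam ^ 2 * ∑ s : Fin n → Fin (16 * r), ∑ s' : Fin n → Fin (16 * r),
          T ^ (bonds s ∪ bonds s').card * Q (bonds s ∪ bonds s') J ≤ inflV (fun _ _ => True) β J n (0 : Site d) := by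
    intro J
    refine le_trans (le_of_eq ?_) (main_J hBV hN hNJ hP hG hkd hn hβ J lam)
    have e1 : ∀ s : Fin n → Fin (16 * r), T ^ n * Q (bonds s) J =
        (if gam s ⊆ SJ (16 * r) d n J then (Real.tanh β ^ 2) ^ (gam s).card else 0) := by
      intro s
      have h1 : gam s ⊆ SJ (16 * r) d n J ↔ ∀ b ∈ bonds s, Good J b :=
        gam_sub (n := n) J (bonds s) (hbN s)
      have h2 : (gam s).card = n := by
        unfold gam; rw [gam_card]; exact hbc s
      rw [h2, hQ]
      by_cases h : ∀ b ∈ bonds s, Good J b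
      · rw [if_pos (h1.2 h)]
        simp only
        rw [if_pos h, mul_one]
      · rw [if_neg (fun h' => h (h1.1 h'))]
        simp only
        rw [if_neg h, mul_zero]
    have e2 : ∀ s s' : Fin n → Fin (16 * r),
        T ^ (bonds s ∪ bonds s').card * Q (bonds s ∪ bonds s') J =
        (if gam s ∪ gam s' ⊆ SJ (16 * r) d n J then
          (Real.tanh β ^ 2) ^ (gam s ∪ gam s').card else 0) := by
      intro s s'
      have h1 := gam_sub (n := n) J (bonds s ∪ bonds s') (fun b hb => by
        rcases Finset.mem_union.1 hb with hb | hb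
        · exact hbN s b hb
        · exact hbN s' b hb)
      rw [gam_union, gam_card, hQ]
      by_cases h : ∀ b ∈ bonds s ∪ bonds s', Good J b
      · rw [if_pos (h1.2 h)]
        simp only
        rw [if_pos h, mul_one]
      · rw [if_neg (fun h' => h (h1.1 h'))]
        simp only
        rw [if_neg h, mul_zero]
    simp only [e1, e2]
  have hint : ∫ J, (2 * lam * ∑ s : Fin n → Fin (16 * r), T ^ n * Q (bonds s) J -
        lam ^ 2 * ∑ s : Fin n → Fin (16 * r), ∑ s' : Fin n → Fin (16 * r),
          T ^ (bonds s ∪ bonds s').card * Q (bonds s ∪ bonds s') J) ∂(couplingLaw d) =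
      2 * lam * M - lam ^ 2 * ∑ s : Fin n → Fin (16 * r), ∑ s' : Fin n → Fin (16 * r),
        p ^ (bonds s ∪ bonds s').card := by
    rw [integral_sub, integral_const_mul, integral_const_mul, integral_finsetSum,
      integral_finsetSum]
    · congr 1
      · congr 1
        have : ∀ s : Fin n → Fin (16 * r),
            ∫ J, T ^ n * Q (bonds s) J ∂(couplingLaw d) = p ^ n := by
          intro s
          rw [integral_const_mul, hQv, hbc, hp, ← mul_pow]
          congr 1; ring
        rw [Finset.sum_congr rfl fun s _ => this s]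
        rw [Finset.sum_const, nsmul_eq_mul, Finset.card_univ, Fintype.card_fun, Fintype.card_fin,
          Fintype.card_fin, hM]
        push_cast
        ring
      · congr 1
        refine Finset.sum_congr rfl fun s _ => ?_
        rw [integral_finsetSum]
        · refine Finset.sum_congr rfl fun s' _ => ?_
          rw [integral_const_mul, hQv, hp, ← mul_pow]
          congr 1; ring
        · exact fun s' _ => (hQi _).const_mul _
    · exact fun s _ => integrable_finsetSum _ fun s' _ => (hQi _).const_mul _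
    · exact fun s _ => (hQi _).const_mul _
    · exact (integrable_finsetSum _ fun s _ => (hQi _).const_mul _).const_mul _
    · exact (integrable_finsetSum _ fun s _ => integrable_finsetSum _ fun s' _ =>
        (hQi _).const_mul _).const_mul _
  have hmono : ∫ J, (2 * lam * ∑ s : Fin n → Fin (16 * r), T ^ n * Q (bonds s) J -
        lam ^ 2 * ∑ s : Fin n → Fin (16 * r), ∑ s' : Fin n → Fin (16 * r),
          T ^ (bonds s ∪ bonds s').card * Q (bonds s ∪ bonds s') J) ∂(couplingLaw d) ≤
      ∫ J, inflV (fun _ _ => True) β J n (0 : Site d) ∂(couplingLaw d) := by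
    refine integral_mono ?_ ((hBV d (fun _ _ => True) β (fun _ => trivial)).2.2.2.1 n 0).2 hJ
    exact ((integrable_finsetSum _ fun s _ => (hQi _).const_mul _).const_mul _).sub
      ((integrable_finsetSum _ fun s _ => integrable_finsetSum _ fun s' _ =>
        (hQi _).const_mul _).const_mul _)
  rw [hint] at hmono
  refine le_trans ?_ hmono
  have h1 : lam ^ 2 * ∑ s : Fin n → Fin (16 * r), ∑ s' : Fin n → Fin (16 * r),
      p ^ (bonds s ∪ bonds s').card ≤ lam ^ 2 * (2 * M ^ 2) :=
    mul_le_mul_of_nonneg_left hsec (sq_nonneg _)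
  have h2 : 2 * lam * M - lam ^ 2 * (2 * M ^ 2) = 1 / 2 := by
    rw [hlam]
    field_simp
    ring
  linarith

end Pool.Agent.Helper35.EAM4
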