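import Pool.Agent.Helper35.EAM.Spec5
import Pool.Agent.Helper35.EAM.NET

/-!
# EAM4 part NETU: as NET, with the paths evaluated at `T0 ≤ tanh β`
-/

set_option autoImplicit false

open MeasureTheory

namespace Pool.Agent.Helper35.EAM4

open Pool.H47EA Pool.Agent.Helper35.EAM

theorem t_NETU (hH : S_HAM) (hK : S_GKSU) : S_NETU := by
  intro d I _ β R J Nd Bd S w u v ωp ωm o hβ hR0 hRT hp hm hbp hbm ho P _ γ hγ lam
  classical
  have hoL : o ∈ LL Nd S w := Finset.mem_union_left _ ho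
  set T := Real.tanh β with hT
  have hT0 : 0 ≤ T := by
    rw [hT, Real.tanh_eq_sinh_div_cosh]
    exact div_nonneg (Real.sinh_nonneg_iff.2 hβ) (Real.cosh_pos β).le
  have hT1 : T ≤ 1 := (Real.tanh_lt_one β).le
  -- GKS
  have hG := hK (Option {x // x ∈ LL Nd S w}) ({i // i ∈ S} × Bool) {s : P // γ s ⊆ S}
    (ea Nd S w) (eb Nd S w u v) (some ⟨o, hoL⟩) none (fun s => dbl S (γ s.1)) (by
      rintro ⟨s, hs⟩ σ hσ
      set τ : Site d → Bool := fun y => σ (kap Nd S w y) with hτ
      have h1 := hγ s τ (σ none) (fun y hy => by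
        show σ (kap Nd S w y) = σ none
        unfold kap
        rw [dif_neg (notL_of_Bd hp hy)]) (fun i hi => by
        have hiS := hs hi
        have a1 := hσ (⟨i, hiS⟩, true) (by simp [dbl, hi])
        have a2 := hσ (⟨i, hiS⟩, false) (by simp [dbl, hi])
        simp only [ea, eb, if_true, Bool.false_eq_true, if_false] at a1 a2
        show σ (kap Nd S w (u i)) = σ (kap Nd S w (v i))
        rw [← a1, ← a2])
      have h2 : kap Nd S w o = some ⟨o, hoL⟩ := by
        unfold kap; rw [dif_pos hoL]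
      rw [← h2]
      exact h1) (fun _ => R) (fun _ => T) (fun _ => ⟨hR0, hRT, hT1⟩) lam
  -- the polynomial side
  have hs1 : ∑ s : {s : P // γ s ⊆ S}, ∏ _e ∈ dbl S (γ s.1), R =
      ∑ s, (if γ s ⊆ S then (R ^ 2) ^ (γ s).card else 0) := by
    rw [← Finset.sum_filter, ← Finset.sum_subtype (Finset.univ.filter fun s => γ s ⊆ S)
      (p := fun s => γ s ⊆ S) (by intro x; simp) (fun s => ∏ _e ∈ dbl S (γ s), R)]
    refine Finset.sum_congr rfl fun s hs => ?_
    exact dbl_prod S (Finset.mem_filter.1 hs).2 R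
  have hs2 : ∑ s : {s : P // γ s ⊆ S}, ∑ s' : {s : P // γ s ⊆ S},
      ∏ _e ∈ dbl S (γ s.1) ∪ dbl S (γ s'.1), R =
      ∑ s, ∑ s', (if γ s ∪ γ s' ⊆ S then (R ^ 2) ^ (γ s ∪ γ s').card else 0) := by
    have e1 : ∀ s : {s : P // γ s ⊆ S}, ∑ s' : {s : P // γ s ⊆ S},
        ∏ _e ∈ dbl S (γ s.1) ∪ dbl S (γ s'.1), R =
        ∑ s', (if γ s.1 ∪ γ s' ⊆ S then (R ^ 2) ^ (γ s.1 ∪ γ s').card else 0) := by
      intro s
      have : ∑ s', (if γ s.1 ∪ γ s' ⊆ S then (R ^ 2) ^ (γ s.1 ∪ γ s').card else 0) =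
          ∑ s', (if γ s' ⊆ S then (R ^ 2) ^ (γ s.1 ∪ γ s').card else 0) := by
        refine Finset.sum_congr rfl fun s' _ => ?_
        have : γ s.1 ∪ γ s' ⊆ S ↔ γ s' ⊆ S := by
          rw [Finset.union_subset_iff]
          exact ⟨fun h => h.2, fun h => ⟨s.2, h⟩⟩
        by_cases h : γ s' ⊆ S
        · rw [if_pos h, if_pos (this.2 h)]
        · rw [if_neg h, if_neg (fun h' => h (this.1 h'))]
      rw [this, ← Finset.sum_filter, ← Finset.sum_subtype (Finset.univ.filter fun s => γ s ⊆ S)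
        (p := fun s => γ s ⊆ S) (by intro x; simp)
        (fun s' => ∏ _e ∈ dbl S (γ s.1) ∪ dbl S (γ s'), R)]
      refine Finset.sum_congr rfl fun s' hs' => ?_
      rw [dbl_union]
      exact dbl_prod S (Finset.union_subset s.2 (Finset.mem_filter.1 hs').2) R
    rw [Finset.sum_congr rfl fun s _ => e1 s]
    have e2 : ∑ s, ∑ s', (if γ s ∪ γ s' ⊆ S then (R ^ 2) ^ (γ s ∪ γ s').card else 0) =
        ∑ s, (if γ s ⊆ S then ∑ s', (if γ s ∪ γ s' ⊆ S then (R ^ 2) ^ (γ s ∪ γ s').card else 0)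
          else 0) := by
      refine Finset.sum_congr rfl fun s _ => ?_
      by_cases h : γ s ⊆ S
      · rw [if_pos h]
      · rw [if_neg h]
        refine Finset.sum_eq_zero fun s' _ => ?_
        rw [if_neg]
        intro h'
        exact h (Finset.union_subset_iff.1 h').1
    rw [e2, ← Finset.sum_filter, ← Finset.sum_subtype (Finset.univ.filter fun s => γ s ⊆ S)
      (p := fun s => γ s ⊆ S) (by intro x; simp)
      (fun s => ∑ s', (if γ s ∪ γ s' ⊆ S then (R ^ 2) ^ (γ s ∪ γ s').card else 0))]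
  rw [hs1, hs2] at hG
  set ρ := 2 * lam * ∑ s, (if γ s ⊆ S then (R ^ 2) ^ (γ s).card else 0) -
    lam ^ 2 * ∑ s, ∑ s', (if γ s ∪ γ s' ⊆ S then (R ^ 2) ^ (γ s ∪ γ s').card else 0) with hρ
  -- the sums over the vertices
  have split : ∀ F : (Option {x // x ∈ LL Nd S w} → Bool) → ℝ,
      ∑ σ, F σ = ∑ η, F (cfg Nd S w true η) + ∑ η, F (cfg Nd S w false η) := by
    intro F
    rw [← Equiv.sum_comp (Equiv.piOptionEquivProd (α := {x // x ∈ LL Nd S w})
      (β := fun _ => Bool)).symm, Fintype.sum_prod_type, Fintype.sum_bool]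
    congr 1
    · refine Finset.sum_congr rfl fun η _ => ?_
      congr 1
      funext y
      cases y <;> rfl
    · refine Finset.sum_congr rfl fun η _ => ?_
      congr 1
      funext y
      cases y <;> rfl
  set X := XX β Nd S w u v true (fun _ => 1) with hX
  set Y := XX β Nd S w u v true (fun η => sg (η ⟨o, hoL⟩)) with hY
  have hXf : XX β Nd S w u v false (fun _ => 1) = X := XX_flip β true _
  have hYf : XX β Nd S w u v false (fun η => sg (η ⟨o, hoL⟩)) = - Y := by
    have := XX_flip (u := u) (v := v) β true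
      (fun η : {x // x ∈ LL Nd S w} → Bool => sg (η ⟨o, hoL⟩))
    rw [show (false : Bool) = !true from rfl, this, hY]
    unfold XX
    rw [← Finset.sum_neg_distrib]
    refine Finset.sum_congr rfl fun η _ => ?_
    show _ * sg (!η ⟨o, hoL⟩) = -(_ * sg (η ⟨o, hoL⟩))
    rw [sg_not]; ring
  have hD : ∑ σ : Option {x // x ∈ LL Nd S w} → Bool,
      wt (ea Nd S w) (eb Nd S w u v) (fun _ => T) σ = 2 * X := by
    rw [split]
    have a1 : ∑ η, wt (ea Nd S w) (eb Nd S w u v) (fun _ => T) (cfg Nd S w true η) = X := by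
      rw [hX]; unfold XX; simp [hT]
    have a2 : ∑ η, wt (ea Nd S w) (eb Nd S w u v) (fun _ => T) (cfg Nd S w false η) = X := by
      rw [← hXf]; unfold XX; simp [hT]
    rw [a1, a2]; ring
  have hN : ∑ σ : Option {x // x ∈ LL Nd S w} → Bool,
      wt (ea Nd S w) (eb Nd S w u v) (fun _ => T) σ * (sg (σ (some ⟨o, hoL⟩)) * sg (σ none)) =
      2 * Y := by
    rw [split]
    have a1 : ∑ η, wt (ea Nd S w) (eb Nd S w u v) (fun _ => T) (cfg Nd S w true η) *
        (sg (cfg Nd S w true η (some ⟨o, hoL⟩)) * sg (cfg Nd S w true η none)) = Y := by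
      rw [hY]; unfold XX
      refine Finset.sum_congr rfl fun η _ => ?_
      show _ * (sg (η ⟨o, hoL⟩) * sg true) = _
      rw [show sg true = 1 by simp [sg]]; ring
    have a2 : ∑ η, wt (ea Nd S w) (eb Nd S w u v) (fun _ => T) (cfg Nd S w false η) *
        (sg (cfg Nd S w false η (some ⟨o, hoL⟩)) * sg (cfg Nd S w false η none)) = Y := by
      rw [← neg_neg Y, ← hYf]; unfold XX
      rw [← Finset.sum_neg_distrib]
      refine Finset.sum_congr rfl fun η _ => ?_
      show _ * (sg (η ⟨o, hoL⟩) * sg false) = _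
      rw [show sg false = -1 by simp [sg]]; ring
    rw [a1, a2]; ring
  rw [hD, hN] at hG
  -- the expectations
  set C := (Real.cosh β ^ 2) ^ S.card with hC
  have hCpos : 0 < C := by
    rw [hC]; have := Real.cosh_pos β; positivity
  have hind : ∀ η : {x // x ∈ LL Nd S w} → Bool, ∀ ω : Site d → Bool,
      IsNet J Nd Bd S w u v ω →
      ind o (glue (LL Nd S w) (gau J Nd S w u η) ω) = (1 + sg (η ⟨o, hoL⟩)) / 2 := by
    intro η ω h
    have h1 := gau_node h η (y := o) (Or.inl ho)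
    have h2 : glue (LL Nd S w) η ω o = η ⟨o, hoL⟩ := by
      unfold glue; rw [dif_pos hoL]
    rw [h2] at h1
    unfold ind
    cases hb : glue (LL Nd S w) (gau J Nd S w u η) ω o with
    | true =>
      rw [hb] at h1
      rw [← h1]; simp [sg]
    | false =>
      rw [hb] at h1
      rw [← h1]; simp [sg]
  have hgE : ∀ (c : Bool) (ω : Site d → Bool), IsNet J Nd Bd S w u v ω →
      (∀ y ∈ Bd, ω y = c) → gE β J (LL Nd S w) ω (ind o) =
        (XX β Nd S w u v c (fun _ => 1) + XX β Nd S w u v c (fun η => sg (η ⟨o, hoL⟩))) /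
          (2 * XX β Nd S w u v c (fun _ => 1)) ∧ 0 < XX β Nd S w u v c (fun _ => 1) := by
    intro c ω h hc
    have z1 := sum_gau β hH h hc (fun _ => 1) (fun _ => 1) (fun _ => rfl)
    have z2 := sum_gau β hH h hc (ind o) (fun η => (1 + sg (η ⟨o, hoL⟩)) / 2)
      (fun η => hind η ω h)
    have z3 : Zp β J (LL Nd S w) ω = C * XX β Nd S w u v c (fun _ => 1) := by
      rw [← z1]; unfold Zp; simp
    have z4 : XX β Nd S w u v c (fun η => (1 + sg (η ⟨o, hoL⟩)) / 2) =
        (XX β Nd S w u v c (fun _ => 1) + XX β Nd S w u v c (fun η => sg (η ⟨o, hoL⟩))) / 2 := by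
      unfold XX
      rw [← Finset.sum_add_distrib, Finset.sum_div]
      refine Finset.sum_congr rfl fun η _ => ?_
      ring
    have hpos : 0 < XX β Nd S w u v c (fun _ => 1) := by
      have h1 := Basic.Zp_pos β J (LL Nd S w) ω
      rw [z3] at h1
      exact (pos_iff_pos_of_mul_pos h1).1 hCpos
    refine ⟨?_, hpos⟩
    unfold gE
    rw [z2, z3, z4, ← hC]
    field_simp
  obtain ⟨g1, hXp⟩ := hgE true ωp hp hbp
  obtain ⟨g2, -⟩ := hgE false ωm hm hbm
  rw [← hX] at hXp
  show ρ ≤ gE β J (LL Nd S w) ωp (ind o) - gE β J (LL Nd S w) ωm (ind o)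
  rw [g1, g2, hXf, hYf, ← hX, ← hY]
  have : (X + Y) / (2 * X) - (X + -Y) / (2 * X) = Y / X := by
    field_simp
    ring
  rw [this, le_div_iff₀ hXp]
  linarith

end Pool.Agent.Helper35.EAM4
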