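import Pool.Graph.R_pool_sql_team_seeded_1e53cb71.Results.MP_81d17b_pr.ExponentialMixingPhase

/-!
# EAM (MP_81d17b_pr): the strong mixing threshold of the Edwards Anderson model is of order 1/sqrt d

Statements `S_XXX : Prop` of the parts; a part consists in proving
`theorem t_XXX : S_XXX` in `Pool/Agent/HelperNN/EAM/XXX.lean` (or with earlier parts as
hypotheses, `theorem t_XXX (h : S_YYY) : S_XXX`).

Target: for `64 r ≤ d`, `5 ≤ 8 r tanh(β)^2`, `1 ≤ n`: the mean influence on the spin at the origin of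
the boundary condition at distance at least `n` is at least `1/2`.
-/

set_option autoImplicit false

open MeasureTheory

namespace Pool.Agent.Helper35.EAM

open Pool.H47EA

/-! ## GKS: ferromagnetic Ising correlation versus percolation (second moment form) -/

/-- the weight `∏_e (1 + t_e σ_{a e} σ_{b e})` -/
noncomputable def wt {V ι : Type} [Fintype ι] (a b : ι → V) (t : ι → ℝ) (σ : V → Bool) : ℝ :=
  ∏ e, (1 + t e * (sg (σ (a e)) * sg (σ (b e))))

/-- `F(t) = N(t)/D(t)`, `N = ∑_σ wt σ_o σ_g`, `D = ∑_σ wt`. -/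
def S_GKS : Prop :=
  ∀ (V ι P : Type) [Fintype V] [DecidableEq V] [Fintype ι] [DecidableEq ι] [Fintype P]
    (a b : ι → V) (o g : V) (γ : P → Finset ι),
    (∀ s, ∀ σ : V → Bool, (∀ e ∈ γ s, σ (a e) = σ (b e)) → σ o = σ g) →
    ∀ t : ι → ℝ, (∀ e, 0 ≤ t e ∧ t e ≤ 1) → ∀ lam : ℝ,
      (2 * lam * ∑ s, ∏ e ∈ γ s, t e - lam ^ 2 * ∑ s, ∑ s', ∏ e ∈ γ s ∪ γ s', t e)
        * ∑ σ : V → Bool, wt a b t σ ≤ ∑ σ : V → Bool, wt a b t σ * (sg (σ o) * sg (σ g))

/-! ## NET: an Edwards Anderson model in a finite set `L = Nd ∪ w(S)`, frozen spins outside, which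
is a ferromagnet in disguise -/

/-- `Nd` = free nodes, `Bd` = boundary nodes, `w i` (`i ∈ S`) = free intermediate sites, the only
neighbours of `w i` in `Nd ∪ Bd ∪ w(S)` are `u i ≠ v i ∈ Nd ∪ Bd`; no two nodes are adjacent; the field of
the frozen spins which are not boundary nodes vanishes at every free site. -/
structure IsNet {d : ℕ} {I : Type} (J : Coupling d) (Nd Bd : Finset (Site d)) (S : Finset I)
    (w u v : I → Site d) (ω : Site d → Bool) : Prop where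
  inj : ∀ i ∈ S, ∀ j ∈ S, w i = w j → i = j
  wN : ∀ i ∈ S, w i ∉ Nd
  wB : ∀ i ∈ S, w i ∉ Bd
  NB : ∀ x ∈ Nd, x ∉ Bd
  uv : ∀ i ∈ S, u i ≠ v i
  um : ∀ i ∈ S, u i ∈ Nd ∨ u i ∈ Bd
  vm : ∀ i ∈ S, v i ∈ Nd ∨ v i ∈ Bd
  adW : ∀ i ∈ S, ∀ y, (y ∈ Nd ∨ y ∈ Bd) → (dist1 (w i) y = 1 ↔ y = u i ∨ y = v i)
  adWW : ∀ i ∈ S, ∀ j ∈ S, dist1 (w i) (w j) ≠ 1
  adN : ∀ x ∈ Nd, ∀ y, (y ∈ Nd ∨ y ∈ Bd) → dist1 x y ≠ 1
  fldN : ∀ x ∈ Nd, ∑ y ∈ nbr x \ (Nd ∪ Bd ∪ S.image w), Jc J x y * sg (ω y) = 0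
  fldW : ∀ i ∈ S, ∑ y ∈ nbr (w i) \ (Nd ∪ Bd ∪ S.image w), Jc J (w i) y * sg (ω y) = 0
  ferro : ∀ i ∈ S, Jc J (w i) (u i) = Jc J (w i) (v i)

/-- the Hamiltonian of a network (use `ham_eq_sum` of `R_seed8/H47R2/EA/REDUCE.lean`) -/
def S_HAM : Prop :=
  ∀ (d : ℕ) (I : Type) (J : Coupling d) (Nd Bd : Finset (Site d)) (S : Finset I)
    (w u v : I → Site d) (ω : Site d → Bool), IsNet J Nd Bd S w u v ω →
    ∀ η : (Nd ∪ S.image w : Finset (Site d)) → Bool,
      ham J (Nd ∪ S.image w) (glue (Nd ∪ S.image w) η ω) =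
        ∑ i ∈ S, (Jc J (w i) (u i) * sg (glue (Nd ∪ S.image w) η ω (w i)) *
              sg (glue (Nd ∪ S.image w) η ω (u i)) +
            Jc J (w i) (v i) * sg (glue (Nd ∪ S.image w) η ω (w i)) *
              sg (glue (Nd ∪ S.image w) η ω (v i)))

/-- the difference of the two finite volume expectations versus percolation; from `S_HAM` and
`S_GKS` (index set of the edges `{i // i ∈ S} × Bool`, vertices `Option L`, `none` the boundary
spin; gauge `η (w i) ↦ J_{w i, u i} η (w i)`; `exp (β J σ σ') = cosh β (1 + J σ σ' tanh β)`). -/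
def S_NET : Prop :=
  ∀ (d : ℕ) (I : Type) [DecidableEq I] (β : ℝ) (J : Coupling d) (Nd Bd : Finset (Site d))
    (S : Finset I) (w u v : I → Site d) (ωp ωm : Site d → Bool) (o : Site d), 0 ≤ β →
    IsNet J Nd Bd S w u v ωp → IsNet J Nd Bd S w u v ωm →
    (∀ y ∈ Bd, ωp y = true) → (∀ y ∈ Bd, ωm y = false) → o ∈ Nd →
    ∀ (P : Type) [Fintype P] (γ : P → Finset I),
      (∀ s, ∀ (σ : Site d → Bool) (c : Bool), (∀ y ∈ Bd, σ y = c) →
        (∀ i ∈ γ s, σ (u i) = σ (v i)) → σ o = c) →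
      ∀ lam : ℝ,
        2 * lam * ∑ s, (if γ s ⊆ S then (Real.tanh β ^ 2) ^ (γ s).card else 0) -
          lam ^ 2 * ∑ s, ∑ s', (if γ s ∪ γ s' ⊆ S then (Real.tanh β ^ 2) ^ (γ s ∪ γ s').card else 0)
        ≤ gE β J (Nd ∪ S.image w) ωp (ind o) - gE β J (Nd ∪ S.image w) ωm (ind o)

/-! ## FIELD: the spins outside the slab can be frozen so that the field vanishes -/

/-- `L ⊆ A`, `A` contained in the slab `{x_i = 0 for i ≥ 2k}`, every site of `L` has an even number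
of neighbours in `A`, `4 k ≤ d`: there is a configuration such that at every `x ∈ L` the field of
the spins outside `A` is `0`. (The neighbours `x ± e_i`, `i ≥ 2k`, of `x` in the slab are adjacent to no
other site of the slab; there are `2 (d - 2k) ≥ 4k` of them; the others, put `+`, are at most `4k`.
A sum of `J_y ω_y` over a set of `m` sites can be made equal to any `j`, `|j| ≤ m`, `j ≡ m mod 2`.) -/
def S_FIELD : Prop :=
  ∀ (k d : ℕ) (J : Coupling d) (A L : Finset (Site d)), 4 * k ≤ d →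
    (∀ x ∈ A, ∀ i : Fin d, 2 * k ≤ i.val → x i = 0) → L ⊆ A →
    (∀ x ∈ L, Even (nbr x ∩ A).card) →
    ∃ ω : Site d → Bool, ∀ x ∈ L, ∑ y ∈ nbr x \ A, Jc J x y * sg (ω y) = 0

/-! ## GEOM: the embedding of `ℤ^k` -/

/-- the node of `x : ℤ^k`: `(x_0, x_0, x_1, x_1, …, x_{k-1}, x_{k-1}, 0, …)` -/
def nd (k d : ℕ) (x : Fin k → ℤ) : Site d :=
  fun i => if h : i.val / 2 < k then x ⟨i.val / 2, h⟩ else 0

/-- the two intermediate sites `nd x + e_{2c+τ}` between `nd x` and `nd (x + e_c)` -/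
def im (k d : ℕ) (τ : Bool) (x : Fin k → ℤ) (c : Fin k) : Site d :=
  fun i => nd k d x i + if i.val = 2 * c.val + τ.toNat then 1 else 0

/-- `x + e_c` -/
def up {k : ℕ} (x : Fin k → ℤ) (c : Fin k) : Fin k → ℤ := x + Pi.single c 1

def S_GEOM : Prop :=
  ∀ k d : ℕ, 2 * k ≤ d →
    (∀ x y : Fin k → ℤ, nd k d x = nd k d y → x = y) ∧
    (∀ x y : Fin k → ℤ, dist1 (nd k d x) (nd k d y) ≠ 1) ∧
    (∀ (τ : Bool) (x y : Fin k → ℤ) (c : Fin k),
      dist1 (im k d τ x c) (nd k d y) = 1 ↔ y = x ∨ y = up x c) ∧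
    (∀ (τ τ' : Bool) (x y : Fin k → ℤ) (c c' : Fin k),
      dist1 (im k d τ x c) (im k d τ' y c') ≠ 1) ∧
    (∀ (τ τ' : Bool) (x y : Fin k → ℤ) (c c' : Fin k),
      im k d τ x c = im k d τ' y c' → τ = τ' ∧ x = y ∧ c = c') ∧
    (∀ (τ : Bool) (x y : Fin k → ℤ) (c : Fin k), nd k d y ≠ im k d τ x c) ∧
    (∀ (τ : Bool) (x : Fin k → ℤ) (c : Fin k) (i : Fin d), 2 * k ≤ i.val →
      nd k d x i = 0 ∧ im k d τ x c i = 0) ∧
    (∀ x : Fin k → ℤ, (dist1 (0 : Site d) (nd k d x) : ℤ) = 2 * ∑ i, |x i|)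

/-! ## the network of a realisation of the signs -/

/-- bonds `(x, x + e_c)` of `ℤ^k` -/
abbrev Bond (k : ℕ) : Type := (Fin k → ℤ) × Fin k

/-- the nodes `x ∈ ℕ^k`, `|x| < n` -/
noncomputable def NdS (k n : ℕ) : Finset (Fin k → ℤ) :=
  (Fintype.piFinset fun _ => Finset.Ico (0 : ℤ) n).filter fun x => ∑ i, x i < n

/-- the boundary nodes `x ∈ ℕ^k`, `|x| = n` -/
noncomputable def BdS (k n : ℕ) : Finset (Fin k → ℤ) :=
  (Fintype.piFinset fun _ => Finset.Icc (0 : ℤ) n).filter fun x => ∑ i, x i = n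

/-- both connections through the intermediate sites are ferromagnetic -/
def Good {k d : ℕ} (J : Coupling d) (b : Bond k) : Prop :=
  ∀ τ, Jc J (im k d τ b.1 b.2) (nd k d b.1) = Jc J (im k d τ b.1 b.2) (nd k d (up b.1 b.2))

open Classical in
/-- the (indices of the) free intermediate sites -/
noncomputable def SJ (k d n : ℕ) (J : Coupling d) : Finset (Bool × Bond k) :=
  (Finset.univ ×ˢ (NdS k n ×ˢ Finset.univ)).filter fun i => Good J i.2

/-- site, first end, second end of an index -/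
def fw (k d : ℕ) (i : Bool × Bond k) : Site d := im k d i.1 i.2.1 i.2.2
def fu (k d : ℕ) (i : Bool × Bond k) : Site d := nd k d i.2.1
def fv (k d : ℕ) (i : Bool × Bond k) : Site d := nd k d (up i.2.1 i.2.2)

/-- nodes and boundary nodes in `ℤ^d` -/
noncomputable def NdF (k d n : ℕ) : Finset (Site d) := (NdS k n).image (nd k d)
noncomputable def BdF (k d n : ℕ) : Finset (Site d) := (BdS k n).image (nd k d)

/-- `t_NETJ (hG : S_GEOM) (hF : S_FIELD) : S_NETJ`; the number of neighbours of a node in the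
network is even: they come in pairs `im false x c`, `im true x c`. -/
def S_NETJ : Prop :=
  ∀ (k d n : ℕ) (J : Coupling d), 4 * k ≤ d → ∃ ω : Site d → Bool,
    ∀ ω' : Site d → Bool, (∀ y, y ∉ BdF k d n → ω' y = ω y) →
      IsNet J (NdF k d n) (BdF k d n) (SJ k d n J) (fw k d) (fu k d) (fv k d) ω'

/-! ## directed paths -/

/-- position after `m` steps -/
def pos {D : Type} [DecidableEq D] {n : ℕ} (s : Fin n → D) (m : ℕ) : D → ℤ :=
  fun c => ((Finset.univ.filter fun l : Fin n => l.val < m ∧ s l = c).card : ℤ)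

/-- the bonds used by the path -/
def bonds {D : Type} [Fintype D] [DecidableEq D] {n : ℕ} (s : Fin n → D) : Finset ((D → ℤ) × D) :=
  Finset.univ.image fun m : Fin n => (pos s m.val, s m)

def S_PATH : Prop :=
  ∀ (k n : ℕ) (s : Fin n → Fin k),
    (∀ b ∈ bonds s, b.1 ∈ NdS k n) ∧ (bonds s).card = n ∧ pos s n ∈ BdS k n ∧ pos s 0 = 0 ∧
    (∀ m : Fin n, pos s (m.val + 1) = up (pos s m.val) (s m)) ∧
    -- a configuration which is constant along the bonds of the path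
    (∀ f : (Fin k → ℤ) → Bool, (∀ b ∈ bonds s, f b.1 = f (up b.1 b.2)) → f 0 = f (pos s n))

/-! ## SEC: the second moment. `Dir r` has `16 r` elements -/

abbrev Dir (r : ℕ) : Type := (Fin 4 → Bool) × Fin r

/-- number of bonds in the union of two paths: `2 n -` number of common bonds (at equal times) -/
def S_UNI : Prop :=
  ∀ (D : Type) [Fintype D] [DecidableEq D] (n : ℕ) (s s' : Fin n → D),
    (bonds s ∪ bonds s').card +
      (Finset.univ.filter fun m : Fin n => pos s m.val = pos s' m.val ∧ s m = s' m).card = 2 * n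

/-- the mean, over two independent uniform paths started at difference `δ`, of
`(1 + c) ^ #(common bonds)`, by recursion -/
noncomputable def fR (D : Type) [Fintype D] [DecidableEq D] (c : ℝ) : ℕ → (D → ℤ) → ℝ
  | 0, _ => 1
  | n + 1, δ => (∑ a : D, ∑ b : D, (1 + c * if δ = 0 ∧ a = b then 1 else 0) *
      fR D c n (δ + Pi.single a 1 - Pi.single b 1)) / (Fintype.card D : ℝ) ^ 2

/-- the probability that the difference walk started at `δ` is at `0` at time `n` -/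
noncomputable def gR (D : Type) [Fintype D] [DecidableEq D] : ℕ → (D → ℤ) → ℝ
  | 0, δ => if δ = 0 then 1 else 0
  | n + 1, δ => (∑ a : D, ∑ b : D, gR D n (δ + Pi.single a 1 - Pi.single b 1)) /
      (Fintype.card D : ℝ) ^ 2

/-- expansion over paths (induction on `n`, `Fin.cons`; with a general starting difference) -/
def S_EXPA : Prop :=
  ∀ (D : Type) [Fintype D] [DecidableEq D] [Nonempty D] (n : ℕ) (q : ℝ),
    ∑ s : Fin n → D, ∑ s' : Fin n → D,
      q ^ (Finset.univ.filter fun m : Fin n => pos s m.val = pos s' m.val ∧ s m = s' m).card =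
      (Fintype.card D : ℝ) ^ (2 * n) * fR D (q - 1) n 0

/-- `f_n(δ) = 1 + (c/k) ∑_{t<n} g_t(δ) f_{n-1-t}(0)`, hence `f_n(0) ≤ 2` if
`(c/k) ∑_t g_t(0) ≤ 1/2`. -/
def S_REN : Prop :=
  ∀ (D : Type) [Fintype D] [DecidableEq D] [Nonempty D] (c : ℝ), 0 ≤ c →
    (∀ n : ℕ, c * ∑ t ∈ Finset.range n, gR D t 0 ≤ (Fintype.card D : ℝ) / 2) →
    ∀ n : ℕ, fR D c n 0 ≤ 2

/-- `g_t(0) ≤ u_t^4`, `u_t = C(2t,t)/4^t`, `u_t^2 ≤ 1/(2t+1)`, `∑ 1/(2t+1)^2 ≤ 5/4`.
(The four bits of a uniform direction are independent; each gives a lazy simple random walk on `ℤ`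
with `v_t(j) = C(2t, t+|j|)/4^t`; `g_t(δ) ≤ ∏_i v_t(∑_{a} χ_i(a) δ_a)` by induction on `t`.) -/
def S_WALK : Prop :=
  ∀ (r n : ℕ), 1 ≤ r → ∑ t ∈ Finset.range n, gR (Dir r) t 0 ≤ 5 / 4

/-- the second moment; from UNI, EXPA, REN, WALK and a transport along `Dir r ≃ Fin (16 * r)` -/
def S_SEC : Prop :=
  ∀ (r n : ℕ) (p : ℝ), 1 ≤ r → 0 < p → p ≤ 1 → 5 / 2 ≤ 16 * r * p →
    ∑ s : Fin n → Fin (16 * r), ∑ s' : Fin n → Fin (16 * r), p ^ (bonds s ∪ bonds s').card ≤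
      2 * ((16 * r) ^ n * p ^ n) ^ 2

/-! ## PROB: the bonds are good independently with probability `1/4` -/

open Classical in
def S_PROB : Prop :=
  ∀ (k d : ℕ), 2 * k ≤ d → ∀ B : Finset (Bond k),
    Integrable (fun J : Coupling d => if ∀ b ∈ B, Good J b then (1 : ℝ) else 0) (couplingLaw d) ∧
    ∫ J, (if ∀ b ∈ B, Good J b then (1 : ℝ) else 0) ∂(couplingLaw d) = (1 / 4) ^ B.card

/-! ## MAIN -/

/-- from NET, NETJ, PATH, SEC, PROB, GEOM -/
def S_MAIN : Prop :=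
  ∀ (r d n : ℕ) (β : ℝ), 1 ≤ r → 64 * r ≤ d → 0 < β → 5 ≤ 8 * r * Real.tanh β ^ 2 → 1 ≤ n →
    1 / 2 ≤ ∫ J, Pool.Agent.Helper79K9.FS.infl β J n (0 : Site d) ∂(couplingLaw d)

/-- parameters: for `d ≤ 330` take `r = 1` (`β ≥ 20/√330 ≥ 1.1`, `tanh(1.1)^2 ≥ 5/8`), for `d ≥ 331` take
`r = d/64` and `tanh x ≥ x/(1+x)` at `x = 20/√d ≤ 1.1` (tanh is increasing) -/
def S_PAR : Prop :=
  ∀ (d : ℕ) (β : ℝ), 64 ≤ d → 20 / √(d : ℝ) ≤ β →
    ∃ r : ℕ, 1 ≤ r ∧ 64 * r ≤ d ∧ 5 ≤ 8 * r * Real.tanh β ^ 2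

end Pool.Agent.Helper35.EAM
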