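import Pool.Agent.Helper35.EAM.Spec
import Pool.Graph.R_pool_sql_team_22a80281.Lib.helper12_.Peierls

/-!
# EAM2 (MP_81d17b_pr): extension of the threshold `1/√d` to all `d ≥ 3`

Plan: the influence is at least `1/2` in dimension `3` for all `β ≥ 21` (`S_MAIN3`); monotonicity in
the dimension (library) then gives all `d ≥ 3`.

Geometry: in the plane `x_2 = 0` of `ℤ³` black cells of side `244` touch each other at their
corners, like the black squares of a chessboard; the cell `s = (a, b)` has lower left corner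
`244 (2a - b, b)`; its upper neighbours are `(a, b+1)` (up left) and `(a+1, b+1)` (up right).
The free spins are on the boundaries (rings) of the good cells of the rows `b < n`. Each of the four
sides of a cell is a path of `246` steps between two corners with one notch of width 2 and depth 1 (inward)
at one of `60` possible places `q`; a side is fine if for some `q` the product of the couplings along
the path is `+1`. A cell is good if its four sides are fine.
-/

set_option autoImplicit false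

open MeasureTheory

namespace Pool.Agent.Helper35.EAM2

open Pool.H47EA Pool.Agent.Helper35.EAM
open Pool.Agent.Lib.helper12.Peierls (Surv)

/-! ## FIELD2: as `S_FIELD`, with less room -/

/-- as `S_FIELD`, for `D` slab coordinates: at `x ∈ L` there are `2 (d - D)` private neighbours and
at most `2 D - #(nbr x ∩ A)` others outside `A`. -/
def S_FIELD2 : Prop :=
  ∀ (D d : ℕ) (J : Coupling d) (A L : Finset (Site d)), D ≤ d →
    (∀ x ∈ A, ∀ i : Fin d, D ≤ i.val → x i = 0) → L ⊆ A →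
    (∀ x ∈ L, Even (nbr x ∩ A).card ∧ 4 * D ≤ (nbr x ∩ A).card + 2 * d) →
    ∃ ω : Site d → Bool, ∀ x ∈ L, ∑ y ∈ nbr x \ A, Jc J x y * sg (ω y) = 0

/-! ## GKSP: ferromagnet versus percolation -/

open Classical in
/-- as `S_GKS`: `F(t) ≥ ∑_U (∏ t_e^{U_e} (1-t_e)^{1-U_e}) 1[o and g are connected by the open edges]`
(`affine_step`, `wt_update` etc. in `Pool/Agent/Helper97/EAM/GKS.lean`) -/
def S_GKSP : Prop :=
  ∀ (V ι : Type) [Fintype V] [DecidableEq V] [Fintype ι] [DecidableEq ι]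
    (a b : ι → V) (o g : V) (t : ι → ℝ), (∀ e, 0 ≤ t e ∧ t e ≤ 1) →
      (∑ U : ι → Bool, (∏ e, if U e = true then t e else 1 - t e) *
        (if ∀ σ : V → Bool, (∀ e, U e = true → σ (a e) = σ (b e)) → σ o = σ g then (1 : ℝ)
          else 0)) * ∑ σ : V → Bool, wt a b t σ ≤
        ∑ σ : V → Bool, wt a b t σ * (sg (σ o) * sg (σ g))

/-! ## NETG: any network which is unfrustrated -/

/-- independent edges, open with probability `T` -/
noncomputable def percLaw (d : ℕ) (T : ℝ) : Measure (Coupling d) :=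
  Measure.infinitePi fun _ =>
    ProbabilityTheory.bernoulliMeasure true false (Set.projIcc (0 : ℝ) 1 zero_le_one T)

instance (d : ℕ) (T : ℝ) : IsProbabilityMeasure (percLaw d T) := by
  unfold percLaw; infer_instance

/-- `o` is connected to `Bd` by open edges touching `L` with both ends in `L ∪ Bd`
(`Jc U x y = 1` iff `{x, y}` is an open edge) -/
def Conn {d : ℕ} (L Bd : Finset (Site d)) (o : Site d) (U : Coupling d) : Prop :=
  ∀ (σ : Site d → Bool) (c : Bool), (∀ y ∈ Bd, σ y = c) →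
    (∀ x ∈ L, ∀ y ∈ L ∪ Bd, Jc U x y = 1 → σ x = σ y) → σ o = c

/-- `t_NETG (h : S_GKSP) : S_NETG`; like `Pool/Agent/Helper35/EAM/NET.lean`, with index set of the edges
`{e // e ∈ E}`, `E` = the edges `{x,y}`, `x ∈ L`, `y ∈ L ∪ Bd`;
`ham = ∑_{e ∈ E} bond e + ∑_{x ∈ L} σ_x (field of the frozen spins off Bd)`. -/
def S_NETG : Prop :=
  ∀ (d : ℕ) (β : ℝ) (J : Coupling d) (L Bd : Finset (Site d)) (g ωp ωm : Site d → Bool)
    (o : Site d), 0 ≤ β → Disjoint L Bd → o ∈ L → g o = true → (∀ y ∈ Bd, g y = true) →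
    (∀ x ∈ L, ∀ y ∈ L ∪ Bd, dist1 x y = 1 → Jc J x y = sg (g x) * sg (g y)) →
    (∀ y ∈ Bd, ωp y = true) → (∀ y ∈ Bd, ωm y = false) →
    (∀ x ∈ L, ∑ y ∈ nbr x \ (L ∪ Bd), Jc J x y * sg (ωp y) = 0) →
    (∀ x ∈ L, ∑ y ∈ nbr x \ (L ∪ Bd), Jc J x y * sg (ωm y) = 0) →
    (percLaw d (Real.tanh β)).real {U | Conn L Bd o U} ≤
      gE β J L ωp (ind o) - gE β J L ωm (ind o)

/-! ## PEI: oriented percolation; a variant of the library theorem `peierls` -/

/-- the proof of the library theorem `Pool.Agent.Lib.helper12.Peierls.peierls` with the product formula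
`cyl` replaced by the hypothesis on lists -/
def S_PEI : Prop :=
  ∀ (Ω K : Type) [MeasurableSpace Ω] [Fintype K] [Inhabited K] (μ : Measure Ω)
    (cl : Ω → ℤ × ℤ → K → Prop) (p r : ENNReal),
    (∀ l : List ((ℤ × ℤ) × K), l.Nodup → μ {x | ∀ s ∈ l, cl x s.1 s.2} ≤ p ^ l.length) →
    p ≤ r ^ 3 → 3 * Fintype.card K * r ≤ 2⁻¹ →
    ∀ m : ℕ, μ {x | ¬ Surv (cl x) m 0} ≤ 2 * r ^ 2

/-! ## the cells -/

/-- the path along a side with a notch at place `q`: (position along the side, depth) of the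
`k`-th point, `0 ≤ k ≤ 246` -/
def lp (q k : ℕ) : ℤ × ℤ :=
  if k ≤ 4 * q + 3 then ((k : ℤ), 0)
  else if k = 4 * q + 4 then (4 * (q : ℤ) + 3, 1)
  else if k = 4 * q + 5 then (4 * (q : ℤ) + 4, 1)
  else if k = 4 * q + 6 then (4 * (q : ℤ) + 5, 1)
  else ((k : ℤ) - 2, 0)

/-- the site with coordinates `(position along the side, depth)` with respect to the side `j` of the
cell `s`; sides: `0` bottom, `1` top, `2` left, `3` right -/
def loc (s : ℤ × ℤ) (j : Fin 4) (p : ℤ × ℤ) : Site 3 :=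
  if j = 0 then ![244 * (2 * s.1 - s.2) + p.1, 244 * s.2 + p.2, 0]
  else if j = 1 then ![244 * (2 * s.1 - s.2) + p.1, 244 * s.2 + 244 - p.2, 0]
  else if j = 2 then ![244 * (2 * s.1 - s.2) + p.2, 244 * s.2 + p.1, 0]
  else ![244 * (2 * s.1 - s.2) + 244 - p.2, 244 * s.2 + p.1, 0]

/-- the `k`-th point of the side `j` of the cell `s` with a notch at place `q` -/
def P (s : ℤ × ℤ) (j : Fin 4) (q k : ℕ) : Site 3 := loc s j (lp q k)

/-- the corners of the cells -/
def crn (u v : ℤ) : Site 3 := ![244 * u, 244 * v, 0]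

/-- the cells of the rows `0 ≤ b < n` which can be reached from `(0, 0)` -/
noncomputable def cells (n : ℕ) : Finset (ℤ × ℤ) :=
  (Finset.Ico (0 : ℤ) n ×ˢ Finset.Ico (0 : ℤ) n).filter fun s => s.1 ≤ s.2

/-- the boundary nodes: corners at height `n` -/
noncomputable def Bdn (n : ℕ) : Finset (Site 3) := (Finset.Icc (-(n : ℤ)) n).image fun c => crn c n

/-- all nodes of the network of the cells in `G`, with notches at the places `nt s j` -/
noncomputable def An (G : Finset (ℤ × ℤ)) (nt : ℤ × ℤ → Fin 4 → ℕ) (n : ℕ) : Finset (Site 3) :=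
  (G.biUnion fun s => Finset.univ.biUnion fun j =>
    (Finset.range 247).image (P s j (nt s j))) ∪ Bdn n

/-- interior points of a side have a unique representation -/
def S_REP : Prop :=
  ∀ (nt : ℤ × ℤ → Fin 4 → ℕ), (∀ s j, nt s j < 60) →
    ∀ (s s' : ℤ × ℤ) (j j' : Fin 4) (k k' : ℕ), 0 < k → k < 246 → k' ≤ 246 →
      P s j (nt s j) k = P s' j' (nt s' j') k' → s = s' ∧ j = j' ∧ k = k'

/-- two points of the network which are adjacent in `ℤ³` are consecutive points of a side; (cases on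
`j`, `j'`, unfold, then `omega`) -/
def S_ADJ : Prop :=
  ∀ (nt : ℤ × ℤ → Fin 4 → ℕ), (∀ s j, nt s j < 60) →
    (∀ (s : ℤ × ℤ) (j : Fin 4) (k : ℕ), k < 246 →
      dist1 (P s j (nt s j) k) (P s j (nt s j) (k + 1)) = 1) ∧
    (∀ (s s' : ℤ × ℤ) (j j' : Fin 4) (k k' : ℕ), k ≤ 246 → k' ≤ 246 →
      dist1 (P s j (nt s j) k) (P s' j' (nt s' j') k') = 1 →
      ∃ (t : ℤ × ℤ) (i : Fin 4) (l : ℕ), (t = s ∨ t = s') ∧ l < 246 ∧
        ((P s j (nt s j) k = P t i (nt t i) l ∧ P s' j' (nt s' j') k' = P t i (nt t i) (l + 1)) ∨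
         (P s' j' (nt s' j') k' = P t i (nt t i) l ∧ P s j (nt s j) k = P t i (nt t i) (l + 1)))) ∧
    (∀ (s : ℤ × ℤ) (j : Fin 4) (k : ℕ) (u v : ℤ), k ≤ 246 →
      dist1 (P s j (nt s j) k) (crn u v) = 1 →
      (k = 1 ∧ crn u v = P s j (nt s j) 0) ∨ (k = 245 ∧ crn u v = P s j (nt s j) 246))

/-- every free node has an even number `≥ 2` of neighbours in the network. Interior points: the two
consecutive points. A corner `crn u v` with `u + v` even is the lower left corner of the cell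
`((u+v)/2, v)` and the upper right corner of `((u+v)/2 - 1, v - 1)`; with `u + v` odd it is the lower
right corner of `((u+v-1)/2, v)` and the upper left corner of `((u+v-1)/2, v-1)`; each
of these cells which is in `G` contributes two neighbours. -/
def S_PARITY : Prop :=
  ∀ (nt : ℤ × ℤ → Fin 4 → ℕ), (∀ s j, nt s j < 60) → ∀ (n : ℕ) (G : Finset (ℤ × ℤ)),
    G ⊆ cells n → ∀ x ∈ An G nt n \ Bdn n,
      Even (nbr x ∩ An G nt n).card ∧ 2 ≤ (nbr x ∩ An G nt n).card

/-! ## the signs -/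

/-- product of the couplings along a side -/
noncomputable def prodJ (J : Coupling 3) (s : ℤ × ℤ) (j : Fin 4) (q : ℕ) : ℝ :=
  ∏ k ∈ Finset.range 246, Jc J (P s j q k) (P s j q (k + 1))

open Classical in
/-- the place of the notch -/
noncomputable def nq (J : Coupling 3) (s : ℤ × ℤ) (j : Fin 4) : ℕ :=
  if h : ∃ q, q < 60 ∧ prodJ J s j q = 1 then Classical.choose h else 0

/-- good cells -/
def GC (J : Coupling 3) (s : ℤ × ℤ) : Prop := ∀ j, ∃ q, q < 60 ∧ prodJ J s j q = 1

open Classical in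
/-- the good cells of the rows `b < n` -/
noncomputable def gcells (J : Coupling 3) (n : ℕ) : Finset (ℤ × ℤ) := (cells n).filter (GC J)

/-- free nodes -/
noncomputable def Ln (J : Coupling 3) (n : ℕ) : Finset (Site 3) :=
  An (gcells J n) (nq J) n \ Bdn n

/-- the gauge: `g` at the `k`-th point of a side is the sign of the product of the first `k`
couplings; `t_GAUGE (h : S_REP) (h' : S_ADJ) : S_GAUGE` -/
def S_GAUGE : Prop :=
  ∀ (J : Coupling 3) (n : ℕ), ∃ g : Site 3 → Bool, (∀ u v, g (crn u v) = true) ∧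
    ∀ x ∈ Ln J n, ∀ y ∈ Ln J n ∪ Bdn n, dist1 x y = 1 → Jc J x y = sg (g x) * sg (g y)

/-! ## closed causes -/

/-- relative edges of a cell: `(false, i, h)` horizontal, `(true, i, h)` vertical -/
abbrev RE : Type := Bool × Fin 244 × Fin 245

/-- end points of an edge of the cell `s` -/
def ce1 (s : ℤ × ℤ) (e : RE) : Site 3 :=
  if e.1 = false then ![244 * (2 * s.1 - s.2) + (e.2.1.val : ℤ), 244 * s.2 + (e.2.2.val : ℤ), 0]
  else ![244 * (2 * s.1 - s.2) + (e.2.2.val : ℤ), 244 * s.2 + (e.2.1.val : ℤ), 0]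

def ce2 (s : ℤ × ℤ) (e : RE) : Site 3 :=
  if e.1 = false then
    ![244 * (2 * s.1 - s.2) + (e.2.1.val : ℤ) + 1, 244 * s.2 + (e.2.2.val : ℤ), 0]
  else ![244 * (2 * s.1 - s.2) + (e.2.2.val : ℤ), 244 * s.2 + (e.2.1.val : ℤ) + 1, 0]

/-- causes: a side which is not fine, or a closed edge -/
abbrev KK : Type := Fin 4 ⊕ RE

def cl (x : Coupling 3 × Coupling 3) (s : ℤ × ℤ) : KK → Prop
  | Sum.inl j => ∀ q, q < 60 → prodJ x.1 s j q ≠ 1
  | Sum.inr e => Jc x.2 (ce1 s e) (ce2 s e) ≠ 1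

/-- a directed path of open cells connects `0` to the boundary nodes -/
def S_CONN : Prop :=
  ∀ (n : ℕ) (J U : Coupling 3), 1 ≤ n → Surv (cl (J, U)) n 0 →
    (0 : Site 3) ∈ Ln J n ∧ Conn (Ln J n) (Bdn n) 0 U

/-- a general fact on fair coins: the functions `f y` change sign if the coin `v y` is flipped and do
not change if another coin `v y'` is flipped -/
def S_FLIP : Prop :=
  ∀ (E Y : Type) [Countable E] [DecidableEq E] [Fintype Y] (v : Y → E), Function.Injective v →
    ∀ (f : Y → (E → Bool) → Bool), (∀ y, Measurable (f y)) →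
      (∀ y y' J, y' ≠ y → f y (Function.update J (v y') (!J (v y'))) = f y J) →
      (∀ y J, f y (Function.update J (v y) (!J (v y))) = !f y J) →
      (Measure.infinitePi fun _ : E => (PMF.uniformOfFintype Bool).toMeasure)
        {J | ∀ y, f y J = true} = (1 / 2 : ENNReal) ^ Fintype.card Y

/-- from `S_FLIP`: index `(s, j, q)`, private edge `{loc s j (4q+3, 0), loc s j (4q+3, 1)}`, which is the
step `4q+3` of the path of the notch `q` and is in none of the other paths -/
def S_PJ : Prop :=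
  ∀ Y : Finset ((ℤ × ℤ) × Fin 4),
    couplingLaw 3 {J | ∀ y ∈ Y, ∀ q, q < 60 → prodJ J y.1 y.2 q ≠ 1} ≤
      ((1 / 2 : ENNReal) ^ 60) ^ Y.card

/-- distinct `(s, e)` are distinct lattice edges -/
def S_PU : Prop :=
  ∀ (T : ℝ), 0 ≤ T → T ≤ 1 → ∀ Y : Finset ((ℤ × ℤ) × RE),
    percLaw 3 T {U | ∀ y ∈ Y, Jc U (ce1 y.1 y.2) (ce2 y.1 y.2) ≠ 1} ≤
      (ENNReal.ofReal (1 - T)) ^ Y.card

/-- `t_LISTB (h : S_PJ) (h' : S_PU) : S_LISTB` -/
def S_LISTB : Prop :=
  ∀ (T : ℝ), 0 ≤ T → T ≤ 1 → ∀ p : ENNReal, (1 / 2 : ENNReal) ^ 60 ≤ p →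
    ENNReal.ofReal (1 - T) ≤ p → ∀ l : List ((ℤ × ℤ) × KK), l.Nodup →
      ((couplingLaw 3).prod (percLaw 3 T)) {x | ∀ s ∈ l, cl x s.1 s.2} ≤ p ^ l.length

/-- measurability (finitely many coordinates) -/
def S_MEAS : Prop :=
  ∀ n : ℕ, MeasurableSet {x : Coupling 3 × Coupling 3 | Surv (cl x) n 0}

/-- `r = 1/(6 · 119564)`, `p = r^3 ≈ 2.7e-18 ≥ 2^(-60)`, `1 - tanh β ≤ 2 exp(-2β) ≤ p` for
`β ≥ 21`; `2 r^2 ≤ 1/2` -/
def S_NUM : Prop :=
  ∃ p r : ENNReal, p ≤ r ^ 3 ∧ 3 * Fintype.card KK * r ≤ 2⁻¹ ∧ 2 * r ^ 2 ≤ 1 / 2 ∧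
    (1 / 2 : ENNReal) ^ 60 ≤ p ∧ ∀ β : ℝ, 21 ≤ β → ENNReal.ofReal (1 - Real.tanh β) ≤ p

/-- from FIELD2, NETG, PEI, PARITY, GAUGE, CONN, LISTB, MEAS, NUM -/
def S_MAIN3 : Prop :=
  ∀ (n : ℕ) (β : ℝ), 21 ≤ β → 1 ≤ n →
    1 / 2 ≤ ∫ J, Pool.Agent.Helper79K9.FS.infl β J n (0 : Site 3) ∂(couplingLaw 3)

/-! ## the infinite volume -/

/-- Gibbs states of the model on the set `S` of sites, the spins off `S` being frozen at `ζ` -/
def IsGibbsOn {d : ℕ} (β : ℝ) (J : Coupling d) (S : Set (Site d)) (ζ : Site d → Bool)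
    (π : Measure (Site d → Bool)) : Prop :=
  IsProbabilityMeasure π ∧ (∀ᵐ σ ∂π, ∀ y, y ∉ S → σ y = ζ y) ∧
    ∀ L : Finset (Site d), (∀ x ∈ L, x ∈ S) → ∀ A : Set (Site d → Bool), MeasurableSet A →
      (π A).toReal = ∫ ω, gE β J L ω (A.indicator fun _ => (1 : ℝ)) ∂π

/-- compactness: if the influence of far away boundary conditions on the spin at `x` does not
vanish then there are a set of sites and frozen spins off this set with two Gibbs states (take finite
sets `L_n ∋ x` and `ω_n, ω'_n`; limits along an ultrafilter of `L_n` (as a subset), of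
`ω_n` and of the expectations of all local functions) -/
def S_CPT : Prop :=
  ∀ (d : ℕ) (β : ℝ) (J : Coupling d) (x : Site d) (a : ℝ), 0 < a →
    (∀ n : ℕ, 1 ≤ n → a ≤ Pool.Agent.Helper79K9.FS.infl β J n x) →
    ∃ (S : Set (Site d)) (ζ : Site d → Bool) (π π' : Measure (Site d → Bool)),
      x ∈ S ∧ IsGibbsOn β J S ζ π ∧ IsGibbsOn β J S ζ π' ∧ π ≠ π'

/-- conversely, in the phase: uniqueness for every set of sites and all frozen spins, almost
surely for all `β` in the phase at once. From `ae_phase` (`DecaysAt`) of the library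
(`Helper79K9/FS/A4.lean`), existence by compactness as in `S_CPT` (or `GIBBSE`) -/
def S_HU : Prop :=
  ∀ d : ℕ, 1 ≤ d → ∀ᵐ J ∂(couplingLaw d), ∀ β ∈ Pool.Agent.Helper79K9.FS.phase d,
    ∀ (S : Set (Site d)) (ζ : Site d → Bool), ∃! π : Measure (Site d → Bool),
      IsGibbsOn β J S ζ π

/-- zero-one law: with positive probability `inf_n infl β J n 0 ≥ a`; then almost surely
there is a site `x` with `inf_n infl β J n x ≥ a`. (The event `E` = {exists `x`} is measurable and
invariant under translations (`infl` of the translated couplings is the translated `infl`, see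
`int_translate`, `infl_pull` in `Helper79K9/FS/A5.lean`); approximate `E` by an event `A` of
finitely many coordinates; `A` and a far translate of `A` are independent: `P(E) = P(E)^2`.) -/
def S_ERG : Prop :=
  ∀ (d : ℕ) (β a : ℝ), 1 ≤ d →
    0 < couplingLaw d {J | ∀ n : ℕ, 1 ≤ n → a ≤ Pool.Agent.Helper79K9.FS.infl β J n (0 : Site d)} →
    ∀ᵐ J ∂(couplingLaw d), ∃ x : Site d, ∀ n : ℕ, 1 ≤ n →
      a ≤ Pool.Agent.Helper79K9.FS.infl β J n x

end Pool.Agent.Helper35.EAM2
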