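import Pool.Agent.Helper35.EAM.Spec2

/-!
# EAM3 (MP_81d17b_pr): frozen spins in three consecutive hyperplanes suffice

`inflH c β J n x` is the influence `infl β J n x` with the supremum over the volumes `L` contained in
the hyperplane `{y : y_c = x_c}` only.
-/

set_option autoImplicit false

open MeasureTheory

namespace Pool.Agent.Helper35.EAM3

open Pool.H47EA Pool.Agent.Helper35.EAM Pool.Agent.Helper35.EAM2
open Pool.Agent.Helper79K9.FS (infl EF pull dist_add)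

variable {d : ℕ}

/-- the influences on the spin at `x` of a change of the boundary condition at distance at least `n`,
in the finite volumes contained in the hyperplane `{y : y_c = x_c}` -/
def inflHSet (c : Fin d) (β : ℝ) (J : Coupling d) (n : ℕ) (x : Site d) : Set ℝ :=
  {t | ∃ (L : Finset (Site d)) (ω ω' : Site d → Bool), x ∈ L ∧ (∀ y ∈ L, y c = x c) ∧
    (∀ y, y ∉ L → dist1 x y < n → ω y = ω' y) ∧ t = |gE β J L ω (ind x) - gE β J L ω' (ind x)|}

noncomputable def inflH (c : Fin d) (β : ℝ) (J : Coupling d) (n : ℕ) (x : Site d) : ℝ :=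
  sSup (inflHSet c β J n x)

/-- as in `Helper79K9/FS/A1.lean`, `A3.lean` (restrict, infl_local, meas_infl, int_infl) -/
def S_BASH : Prop :=
  ∀ (d : ℕ) (c : Fin d) (β : ℝ),
    (∀ (J : Coupling d) (n : ℕ) (x : Site d) (L : Finset (Site d)) (ω ω' : Site d → Bool), x ∈ L →
      (∀ y ∈ L, y c = x c) → (∀ y, y ∉ L → dist1 x y < n → ω y = ω' y) →
      |gE β J L ω (ind x) - gE β J L ω' (ind x)| ≤ inflH c β J n x) ∧
    (∀ (J : Coupling d) (n : ℕ) (x : Site d),
      0 ≤ inflH c β J n x ∧ inflH c β J n x ≤ 1 ∧ inflH c β J n x ≤ infl β J n x) ∧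
    (∀ (J : Coupling d) (n n' : ℕ) (x : Site d), n ≤ n' → inflH c β J n' x ≤ inflH c β J n x) ∧
    (∀ (J J' : Coupling d) (n : ℕ) (x : Site d), 1 ≤ n → (∀ e ∈ EF n x, J e = J' e) →
      inflH c β J n x = inflH c β J' n x) ∧
    (∀ (n : ℕ) (x : Site d), 1 ≤ n → Measurable (fun J : Coupling d => inflH c β J n x) ∧
      Integrable (fun J : Coupling d => inflH c β J n x) (couplingLaw d)) ∧
    (∀ (J' : Coupling d) (n : ℕ) (x v : Site d),
      inflH c β (pull (fun z => z + v) (fun x y => dist_add x y v) J') n x =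
        inflH c β J' n (x + v))

/-- as `Helper61/EAM/ERG.lean`, with `S_BASH` in place of the facts on `infl` -/
def S_ERGH : Prop :=
  ∀ (d : ℕ) (c : Fin d) (β a : ℝ),
    0 < couplingLaw d {J | ∀ n : ℕ, 1 ≤ n → a ≤ inflH c β J n (0 : Site d)} →
    ∀ᵐ J ∂(couplingLaw d), ∃ x : Site d, ∀ n : ℕ, 1 ≤ n → a ≤ inflH c β J n x

/-- as `Helper74/EAM/CPT.lean` (`limit_state`, `limit_frozen`), applied to the volumes
`L_n ∪ {y : dist1 x y ≤ n, 2 ≤ |y_c - x_c|}`: `L_n` is contained in the hyperplane, so the two parts are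
not adjacent and `gE β J (L ∪ L') ω (ind x) = gE β J L ω (ind x)` (consistency and locality,
`spEA` in `Helper79K9/FS/A1.lean`) -/
def S_CPTH : Prop :=
  ∀ (d : ℕ) (c : Fin d) (β : ℝ) (J : Coupling d) (x : Site d) (a : ℝ), 0 < a →
    (∀ n : ℕ, 1 ≤ n → a ≤ inflH c β J n x) →
    ∃ (S : Set (Site d)) (ζ : Site d → Bool) (π π' : Measure (Site d → Bool)),
      x ∈ S ∧ (∀ y : Site d, 2 ≤ |y c - x c| → y ∈ S) ∧ IsGibbsOn β J S ζ π ∧
      IsGibbsOn β J S ζ π' ∧ π ≠ π'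

/-- as `infl_pull`, `int_pull`, `mm_dim` in `Helper79K9/FS/A5.lean` (`hyp x = Fin.cons 0 x`, the image
of `L` is contained in the hyperplane `{y : y 0 = 0}`) -/
def S_DIMH : Prop :=
  ∀ (d n : ℕ) (β : ℝ), 1 ≤ n →
    ∫ J, infl β J n (0 : Site d) ∂(couplingLaw d) ≤
      ∫ J, inflH (0 : Fin (d + 1)) β J n (0 : Site (d + 1)) ∂(couplingLaw (d + 1))

/-- as `S_MAIN3` -/
def S_MAIN3H : Prop :=
  ∀ (n : ℕ) (β : ℝ), 21 ≤ β → 1 ≤ n →
    1 / 2 ≤ ∫ J, inflH (2 : Fin 3) β J n (0 : Site 3) ∂(couplingLaw 3)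

end Pool.Agent.Helper35.EAM3
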