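import Pool.Agent.Helper35.EAM.Spec3

/-!
# EAM4 (MP_81d17b_pr): frozen spins which do not depend on the temperature

`inflV C b β J n x`: influence which one pair of boundary conditions has for ALL `β ≥ b` at once; volumes
contained in `{y : C x y}`.
-/

set_option autoImplicit false

open MeasureTheory

namespace Pool.Agent.Helper35.EAM4

open Pool.H47EA Pool.Agent.Helper35.EAM Pool.Agent.Helper35.EAM2
open Pool.Agent.Helper79K9.FS (infl EF pull dist_add)

variable {d : ℕ}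

/-- the numbers `t` such that for some volume `L ∋ x` contained in `{y : C x y}` and some pair of
boundary conditions, equal at distance less than `n`, the influence is at least `t` for all `β ≥ b` -/
def inflVSet (C : Site d → Site d → Prop) (b : ℝ) (J : Coupling d) (n : ℕ) (x : Site d) : Set ℝ :=
  {t | ∃ (L : Finset (Site d)) (ω ω' : Site d → Bool), x ∈ L ∧ (∀ y ∈ L, C x y) ∧
    (∀ y, y ∉ L → dist1 x y < n → ω y = ω' y) ∧
    ∀ β : ℝ, b ≤ β → t ≤ |gE β J L ω (ind x) - gE β J L ω' (ind x)|}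

noncomputable def inflV (C : Site d → Site d → Prop) (b : ℝ) (J : Coupling d) (n : ℕ)
    (x : Site d) : ℝ :=
  sSup (inflVSet C b J n x)

/-- elementary facts; compare `Helper35/EAM/BASH.lean`. Measurability: `{J | a < inflV C b J n x}` is open
(if `t > a` is in `inflVSet C b J n x` with volume `L` then it is in `inflVSet C b J' n x` for all `J'` equal to `J`
on the edges touching `L`, `gE_coupling` in `Helper79K9/FS/A1.lean`), hence measurable. -/
def S_BASV : Prop :=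
  ∀ (d : ℕ) (C : Site d → Site d → Prop) (b : ℝ), (∀ x, C x x) →
    (∀ (J : Coupling d) (n : ℕ) (x : Site d) (L : Finset (Site d)) (ω ω' : Site d → Bool) (t : ℝ),
      x ∈ L → (∀ y ∈ L, C x y) → (∀ y, y ∉ L → dist1 x y < n → ω y = ω' y) →
      (∀ β : ℝ, b ≤ β → t ≤ |gE β J L ω (ind x) - gE β J L ω' (ind x)|) →
      t ≤ inflV C b J n x) ∧
    (∀ (J : Coupling d) (n : ℕ) (x : Site d), 0 ≤ inflV C b J n x ∧ inflV C b J n x ≤ 1) ∧
    (∀ (J : Coupling d) (n n' : ℕ) (x : Site d), n ≤ n' → inflV C b J n' x ≤ inflV C b J n x) ∧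
    (∀ (n : ℕ) (x : Site d), Measurable (fun J : Coupling d => inflV C b J n x) ∧
      Integrable (fun J : Coupling d => inflV C b J n x) (couplingLaw d)) ∧
    ((∀ x y v, C (x + v) (y + v) ↔ C x y) → ∀ (J' : Coupling d) (n : ℕ) (x v : Site d),
      inflV C b (pull (fun z => z + v) (fun x y => dist_add x y v) J') n x =
        inflV C b J' n (x + v))

/-- the zero-one law for events invariant under translations: approximate `E` by an event `A` of
finitely many coordinates; for `v` far away `A` and `{J | pull v J ∈ A}` are independent: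
`P(E) = P(E)^2`; compare `Helper61/EAM/ERG.lean` (`dense_cyl`, `far`, `chain_indep`) -/
def S_ZO : Prop :=
  ∀ (d : ℕ) (E : Set (Coupling d)), 1 ≤ d → MeasurableSet E →
    (∀ (v : Site d) (J : Coupling d),
      pull (fun z => z + v) (fun x y => dist_add x y v) J ∈ E ↔ J ∈ E) →
    0 < couplingLaw d E → ∀ᵐ J ∂(couplingLaw d), J ∈ E

/-- as `S_CPTH`, for all `β ≥ b` with the same `S` and `ζ`: in `Helper74/EAM/CPTH.lean` choose
`L, ω, ω'` (for all `β` at once), then `S`, `ζ`, and only then `β` -/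
def S_CPTV : Prop :=
  ∀ (d : ℕ) (c : Fin d) (b : ℝ) (J : Coupling d) (x : Site d) (a : ℝ), 0 < a →
    (∀ n : ℕ, 1 ≤ n → a ≤ inflV (fun x y => y c = x c) b J n x) →
    ∃ (S : Set (Site d)) (ζ : Site d → Bool), (∀ y : Site d, 2 ≤ |y c - x c| → y ∈ S) ∧
      ∀ β : ℝ, b ≤ β → ∃ π π' : Measure (Site d → Bool), IsGibbsOn β J S ζ π ∧
        IsGibbsOn β J S ζ π' ∧ π ≠ π'

/-- as `Helper57/EAM/DIMH.lean` -/
def S_DIMV : Prop :=
  ∀ (d n : ℕ) (b : ℝ),
    ∫ J, inflV (fun _ _ => True) b J n (0 : Site d) ∂(couplingLaw d) ≤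
      ∫ J, inflV (fun x y => y (0 : Fin (d + 1)) = x (0 : Fin (d + 1))) b J n
        (0 : Site (d + 1)) ∂(couplingLaw (d + 1))

/-- as `S_GKS`, with the paths evaluated at smaller weights `t0 ≤ t`. From `main_perc` in
`Helper27/EAM/GKSP.lean` (`PP t * DD t ≤ NN t`), monotonicity of `PP` in `t` (`PP_affine`), and
`2 lam X - lam^2 X^2 ≤ 1` with `X` = number of open paths `γ s` (`PP t0 ≥ 2 lam E X - lam^2 E X^2`) -/
def S_GKSU : Prop :=
  ∀ (V ι P : Type) [Fintype V] [DecidableEq V] [Fintype ι] [DecidableEq ι] [Fintype P]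
    (a b : ι → V) (o g : V) (γ : P → Finset ι),
    (∀ s, ∀ σ : V → Bool, (∀ e ∈ γ s, σ (a e) = σ (b e)) → σ o = σ g) →
    ∀ t0 t : ι → ℝ, (∀ e, 0 ≤ t0 e ∧ t0 e ≤ t e ∧ t e ≤ 1) → ∀ lam : ℝ,
      (2 * lam * ∑ s, ∏ e ∈ γ s, t0 e - lam ^ 2 * ∑ s, ∑ s', ∏ e ∈ γ s ∪ γ s', t0 e)
        * ∑ σ : V → Bool, wt a b t σ ≤ ∑ σ : V → Bool, wt a b t σ * (sg (σ o) * sg (σ g))

/-- the connection probability is increasing: `perc_sum` in `Helper35/EAM/NETG.lean` and monotonicity of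
`PP` -/
def S_PERCM : Prop :=
  ∀ (d : ℕ) (L Bd : Finset (Site d)) (T0 T : ℝ) (o : Site d), 0 ≤ T0 → T0 ≤ T → T ≤ 1 →
    Disjoint L Bd → o ∈ L →
    (percLaw d T0).real {U | Conn L Bd o U} ≤ (percLaw d T).real {U | Conn L Bd o U}

/-- as `S_NET`, with the paths evaluated at `T0 ≤ tanh β` -/
def S_NETU : Prop :=
  ∀ (d : ℕ) (I : Type) [DecidableEq I] (β T0 : ℝ) (J : Coupling d) (Nd Bd : Finset (Site d))
    (S : Finset I) (w u v : I → Site d) (ωp ωm : Site d → Bool) (o : Site d), 0 ≤ β →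
    0 ≤ T0 → T0 ≤ Real.tanh β →
    IsNet J Nd Bd S w u v ωp → IsNet J Nd Bd S w u v ωm →
    (∀ y ∈ Bd, ωp y = true) → (∀ y ∈ Bd, ωm y = false) → o ∈ Nd →
    ∀ (P : Type) [Fintype P] (γ : P → Finset I),
      (∀ s, ∀ (σ : Site d → Bool) (c : Bool), (∀ y ∈ Bd, σ y = c) →
        (∀ i ∈ γ s, σ (u i) = σ (v i)) → σ o = c) →
      ∀ lam : ℝ,
        2 * lam * ∑ s, (if γ s ⊆ S then (T0 ^ 2) ^ (γ s).card else 0) -
          lam ^ 2 * ∑ s, ∑ s', (if γ s ∪ γ s' ⊆ S then (T0 ^ 2) ^ (γ s ∪ γ s').card else 0)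
        ≤ gE β J (Nd ∪ S.image w) ωp (ind o) - gE β J (Nd ∪ S.image w) ωm (ind o)

/-- as `S_MAIN` -/
def S_MAINV : Prop :=
  ∀ (r d n : ℕ) (b : ℝ), 1 ≤ r → 64 * r ≤ d → 0 < b → 5 ≤ 8 * r * Real.tanh b ^ 2 → 1 ≤ n →
    1 / 2 ≤ ∫ J, inflV (fun _ _ => True) b J n (0 : Site d) ∂(couplingLaw d)

/-- as `S_MAIN3H` -/
def S_MAIN3V : Prop :=
  ∀ (n : ℕ) (b : ℝ), 21 ≤ b → 1 ≤ n →
    1 / 2 ≤ ∫ J, inflV (fun x y => y (2 : Fin 3) = x (2 : Fin 3)) b J n (0 : Site 3)
      ∂(couplingLaw 3)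

end Pool.Agent.Helper35.EAM4
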