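import Pool.Agent.Helper35.EAM.Spec4
import Pool.Agent.Helper56.EAM.HU

/-!
# EAM3 part UNIV
-/

set_option autoImplicit false

open MeasureTheory

namespace Pool.Agent.Helper35.EAM3

open Pool.H47EA Pool.H47EA.GIBBSE Pool.Agent.Helper35.EAM Pool.Agent.Helper35.EAM2

variable {d : ℕ}

theorem ind01 (A : Set (Site d → Bool)) : Unit01 (A.indicator fun _ => (1 : ℝ)) := by
  intro σ
  by_cases h : σ ∈ A
  · rw [Set.indicator_of_mem h]; norm_num
  · rw [Set.indicator_of_notMem h]; norm_num

theorem measgE (β : ℝ) (J : Coupling d) (Λ : Finset (Site d)) (f : (Site d → Bool) → ℝ)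
    (hf : Measurable f) : Measurable (fun ω => gE β J Λ ω f) := by
  simp only [gE_eq]
  exact Finset.measurable_sum _ fun η _ =>
    (continuous_ww β J Λ η).measurable.mul (hf.comp (continuous_glue Λ η).measurable)

/-- a finite set is contained in a box -/
theorem exists_box (L : Finset (Site d)) : ∃ a b : Site d, L ⊆ Finset.Icc a b := by
  classical
  refine ⟨fun i => -(∑ x ∈ L, |x i|), fun i => ∑ x ∈ L, |x i|, fun x hx => ?_⟩
  rw [Finset.mem_Icc]
  have h : ∀ i, |x i| ≤ ∑ x ∈ L, |x i| := fun i =>
    Finset.single_le_sum (f := fun x : Site d => |x i|) (fun _ _ => abs_nonneg _) hx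
  exact ⟨fun i => (abs_le.1 (h i)).1, fun i => (abs_le.1 (h i)).2⟩

theorem t_UNIV : S_UNIV := by
  intro d β J ζ π
  constructor
  · rintro ⟨h1, -, h3⟩
    exact ⟨h1, fun a b A hA => h3 _ (fun _ _ => Set.mem_univ _) A hA⟩
  · rintro ⟨h1, h2⟩
    refine ⟨h1, Filter.Eventually.of_forall fun σ y hy => absurd (Set.mem_univ y) hy, ?_⟩
    intro L _ A hA
    obtain ⟨a, b, hab⟩ := exists_box L
    have hp := prob_KK β J (Finset.Icc a b) π
    -- `π` is invariant under the kernel of the box
    have hinv : KK β J (Finset.Icc a b) π = π := by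
      ext B hB
      have e1 := h2 a b B hB
      have e2 := integral_KK β J (Finset.Icc a b) π (B.indicator fun _ => (1 : ℝ))
        (measurable_const.indicator hB) 1 (fun x => by
          have := ind01 B x
          rw [abs_of_nonneg this.1]; exact this.2)
      rw [← e2, integral_indicator_const _ hB] at e1
      simp only [smul_eq_mul, mul_one] at e1
      rw [measureReal_def] at e1
      exact ((ENNReal.toReal_eq_toReal_iff' (measure_ne_top _ _) (measure_ne_top _ _)).1 e1).symm
    have hA1 : Measurable (A.indicator fun _ => (1 : ℝ)) := measurable_const.indicator hA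
    have hgL : Measurable (fun ω => gE β J L ω (A.indicator fun _ => (1 : ℝ))) :=
      measgE β J L _ hA1
    have e3 : ∫ ω, gE β J L ω (A.indicator fun _ => (1 : ℝ)) ∂π =
        ∫ ω, gE β J (Finset.Icc a b) ω
          (fun τ => gE β J L τ (A.indicator fun _ => (1 : ℝ))) ∂π := by
      rw [← integral_KK β J (Finset.Icc a b) π _ hgL 1 (fun x => by
        have := (Pool.Agent.Helper79K9.FS.spEA β J).unit L x _ (ind01 A)
        rw [abs_of_nonneg this.1]; exact this.2), hinv]
    rw [e3, h2 a b A hA]
    refine integral_congr_ae (Filter.Eventually.of_forall fun ω => ?_)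
    exact (Pool.Agent.Helper79K9.FS.spEA β J).cons (Finset.Icc a b) ω L hab _

end Pool.Agent.Helper35.EAM3
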